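import Pool.Agent.Lib.MP_ac5134_an.SD.Sys

/-!
# Three lines: the path configuration (Katz-Tao)
-/

open RFold Finset

namespace Pool.Agent.MPac5134.SD

section Assoc

variable {Ω Ω' Ω'' : Type*} [Fintype Ω] [Fintype Ω'] [Fintype Ω''] {α β γ : Type*}
  {p : Ω → ℝ} {q : Ω' → ℝ} {r : Ω'' → ℝ} {f : Ω → β} {g : Ω' → β} {g' : Ω' → γ} {k : Ω'' → γ}

/-- the second and third part of a chain of two couplings -/
theorem sum_gl_assoc (hp : IsPr p) (hq : IsPr q) (hl : ∀ b, law p f b = law q g b)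
    (φ : Ω' × Ω'' → ℝ) :
    ∑ x : (Ω × Ω') × Ω'', gl (gl p q f g) r (fun x => g' x.2) k x * φ (x.1.2, x.2) =
      ∑ y, gl q r g' k y * φ y := by
  classical
  rw [Fintype.sum_prod_type, Fintype.sum_prod_type, Fintype.sum_prod_type, sum_comm]
  refine sum_congr rfl fun ω' _ => ?_
  rw [sum_comm]
  refine sum_congr rfl fun ω'' _ => ?_
  have h1 : ∀ ω, gl (gl p q f g) r (fun x => g' x.2) k ((ω, ω'), ω'') * φ (ω', ω'') =
      gl p q f g (ω, ω') * ((if g' ω' = k ω'' then r ω'' / law q g' (g' ω') else 0) *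
        φ (ω', ω'')) := by
    intro ω
    have e : law (gl p q f g) (fun x => g' x.2) (g' ω') = law q g' (g' ω') :=
      law_gl_snd hp hq hl g' (g' ω')
    unfold gl
    simp only
    by_cases h : g' ω' = k ω''
    · rw [if_pos h, if_pos h]
      have e' : law (gl p q f g) (fun x => g' x.2) (g' ω') = law q g' (g' ω') := e
      unfold gl at e'
      rw [e']
      ring
    · rw [if_neg h, if_neg h]
      ring
  rw [sum_congr rfl fun ω _ => h1 ω, ← sum_mul]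
  have h2 : ∑ ω, gl p q f g (ω, ω') = q ω' := by
    have h3 := sum_gl_snd hp hq hl (fun z => if z = ω' then 1 else 0)
    simp only [mul_ite, mul_one, mul_zero, sum_ite_eq', mem_univ, if_true] at h3
    rw [← h3, Fintype.sum_prod_type]
    refine sum_congr rfl fun ω _ => ?_
    rw [sum_ite_eq']
    simp
  rw [h2]
  unfold gl
  simp only
  by_cases h : g' ω' = k ω''
  · rw [if_pos h, if_pos h]
    ring
  · rw [if_neg h, if_neg h]
    ring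

theorem ent_gl_assoc (hp : IsPr p) (hq : IsPr q) (hl : ∀ b, law p f b = law q g b)
    (φ : Ω' × Ω'' → α) :
    ent (gl (gl p q f g) r (fun x => g' x.2) k) (fun x => φ (x.1.2, x.2)) =
      ent (gl q r g' k) φ := by
  classical
  refine ent_of_law' fun a => ?_
  have h := sum_gl_assoc (r := r) (g' := g') (k := k) hp hq hl (fun y => if φ y = a then 1 else 0)
  simp only [mul_ite, mul_one, mul_zero] at h
  unfold law pr
  convert h

end Assoc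

variable {V Ω : Type} [AddCommGroup V] [Module ℚ V] [Fintype Ω] (S : Sys V Ω)

namespace Sys

/-- Path of three lines: `x.1.1` meets `x.1.2` at height `t₀`, `x.1.2` meets `x.2` at height
`t₁`. -/
noncomputable def w3 (t₀ t₁ : ℚ) : (Ω × Ω) × Ω → ℝ :=
  gl (S.v t₀) S.p (fun x => S.P t₁ x.2) (S.P t₁)

theorem law_w3 (t₀ t₁ : ℚ) (b : V) :
    law (S.v t₀) (fun x => S.P t₁ x.2) b = law S.p (S.P t₁) b :=
  law_gl_snd S.hp S.hp (fun _ => rfl) (S.P t₁) b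

theorem isPr_w3 (t₀ t₁ : ℚ) : IsPr (S.w3 t₀ t₁) := isPr_gl (S.isPr_v t₀) S.hp (S.law_w3 t₀ t₁)

theorem w3_ne_zero {t₀ t₁ : ℚ} {x : (Ω × Ω) × Ω} (h : S.w3 t₀ t₁ x ≠ 0) :
    S.p x.1.1 ≠ 0 ∧ S.p x.1.2 ≠ 0 ∧ S.p x.2 ≠ 0 ∧ S.P t₀ x.1.1 = S.P t₀ x.1.2 ∧
      S.P t₁ x.1.2 = S.P t₁ x.2 := by
  obtain ⟨h1, h2, h3⟩ := gl_ne_zero h
  obtain ⟨h4, h5, h6⟩ := S.v_ne_zero h1
  exact ⟨h4, h5, h2, h6, h3⟩

theorem ent_w3_12 {α : Type*} (t₀ t₁ : ℚ) (φ : Ω × Ω → α) :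
    ent (S.w3 t₀ t₁) (fun x => φ x.1) = ent (S.v t₀) φ :=
  ent_gl_fst (S.isPr_v t₀) (S.law_w3 t₀ t₁) φ

theorem ent_w3_23 {α : Type*} (t₀ t₁ : ℚ) (φ : Ω × Ω → α) :
    ent (S.w3 t₀ t₁) (fun x => φ (x.1.2, x.2)) = ent (S.v t₁) φ :=
  ent_gl_assoc (r := S.p) (g' := S.P t₁) (k := S.P t₁) S.hp S.hp (fun _ => rfl) φ

theorem ent_w3_3 {α : Type*} (t₀ t₁ : ℚ) (φ : Ω → α) :
    ent (S.w3 t₀ t₁) (fun x => φ x.2) = ent S.p φ :=
  ent_gl_snd (S.isPr_v t₀) S.hp (S.law_w3 t₀ t₁) φ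

theorem ent_w3_1 {α : Type*} (t₀ t₁ : ℚ) (φ : Ω → α) :
    ent (S.w3 t₀ t₁) (fun x => φ x.1.1) = ent S.p φ := by
  rw [S.ent_w3_12 t₀ t₁ (fun x => φ x.1), S.ent_v_fst]

/-- The entropy of the whole path. -/
theorem ent_w3 (t₀ t₁ : ℚ) :
    ent (S.w3 t₀ t₁) (fun x => ((S.B x.1.1, S.B x.1.2), S.B x.2)) =
      3 * S.h - S.H t₀ - S.H t₁ := by
  have h1 := ent_gl (S.isPr_v t₀) S.hp (S.law_w3 t₀ t₁) (F := fun x => (S.B x.1, S.B x.2))
    (G := S.B) (f := fun x => S.P t₁ x.2) (g := S.P t₁) ?_ (S.det_P t₁)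
  · unfold w3
    rw [h1, S.ent_v, S.ent_v_snd t₀ (S.P t₁)]
    unfold h H
    ring
  · intro x y hx hy e
    simp only [Prod.mk.injEq] at e
    obtain ⟨_, hx2, _⟩ := S.v_ne_zero hx
    obtain ⟨_, hy2, _⟩ := S.v_ne_zero hy
    exact S.P_eq t₁ hx2 hy2 e.2

end Sys

end Pool.Agent.MPac5134.SD
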