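import Pool.Agent.Lib.MP_ac5134_an.SD.Defs

/-!
# The improvement map `Ψ` and the final elimination
-/

namespace Pool.Agent.MPac5134.SD

/-- the denominator of `Ψ` -/
noncomputable def den (α : ℝ) : ℝ := 7 * α ^ 3 + 9 * α ^ 2 - 15 * α + 6

/-- the numerator of `Ψ - 1` -/
noncomputable def num (α : ℝ) : ℝ := 8 * α ^ 3 - 3 * α ^ 2 - 3 * α + 2

/-- If all systems satisfy `H(B) ≤ α s` then they satisfy `H(B) ≤ (Ψ(α) + ε) s`. -/
noncomputable def Psi (α : ℝ) : ℝ := 1 + num α / den α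

/-- the numerator of the constant of the error term -/
noncomputable def cstn (α : ℝ) : ℝ :=
  4 * (α - 1) ^ 3 + α ^ 3 + 3 * (α ^ 3 - (α - 1) ^ 3) +
    ((α - 1) ^ 3 + α * (α - 1) ^ 2 + α ^ 2 * (α - 1)) +
    (3 * α ^ 2 - 3 * α + 1) * (2 * α - 1)

/-- the constant of the error term -/
noncomputable def cst (α : ℝ) : ℝ := cstn α / den α

theorem den_pos {α : ℝ} (h1 : 1 < α) : 0 < den α := by
  unfold den
  nlinarith [sq_nonneg (α - 1), mul_pos (show 0 < α by linarith) (sub_pos.mpr h1)]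

theorem num_pos {α : ℝ} (h1 : 1 < α) : 0 < num α := by
  unfold num
  nlinarith [sq_nonneg (α - 1), mul_pos (show 0 < α by linarith) (sub_pos.mpr h1)]

theorem cube_sub {α : ℝ} (h1 : 1 < α) : 0 ≤ α ^ 3 - (α - 1) ^ 3 := by
  nlinarith [sq_nonneg (α - 1)]

theorem cst_nonneg {α : ℝ} (h1 : 1 < α) : 0 ≤ cst α := by
  have h0 : 0 < α := by linarith
  have h2 : 0 < α - 1 := by linarith
  have h3 : 0 < 2 * α - 1 := by linarith
  have h4 : 0 < 3 * α ^ 2 - 3 * α + 1 := by nlinarith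
  have h5 := cube_sub h1
  have := den_pos h1
  unfold cst cstn
  positivity

theorem final_alg {α h s G σ δ fq fk fd sg P P' n2 : ℝ} (h1 : 1 < α) (h2 : α ≤ 2)
    (hG : G ≤ 2 * s) (hfq : 4 * h - 2 * s - G ≤ fq) (hfk : fq + 2 * h - 3 * s ≤ fk)
    (hfd : fk + 2 * h - 3 * s ≤ fd) (hsg : σ - δ ≤ sg) (hP : P ≤ 4 * s - σ + 3 * δ)
    (hP' : P - 4 * δ ≤ P')
    (hA : 3 * h - 2 * s + (α - 1) * (h - 2 * s + (G - δ)) ≤ α * (s + (σ + δ)))
    (hB : (α - 1) * n2 ≤ α * ((α * (P + δ) - fq) / (α - 1) + 2 * s - sg) - fk)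
    (hC : fd + (α - 1) * (fq + P' + sg - 4 * s) ≤ α * (2 * s + n2 - sg)) :
    h ≤ Psi α * s + cst α * δ := by
  have h0 : 0 < α := by linarith
  have ha : 0 < α - 1 := by linarith
  have h4 : 0 < 3 * α ^ 2 - 3 * α + 1 := by nlinarith
  have h5 := cube_sub h1
  have hden := den_pos h1
  -- eliminate `n2`
  have hB' : (α - 1) * ((α - 1) * n2) ≤
      α * (α * (P + δ) - fq + (α - 1) * (2 * s - sg)) - (α - 1) * fk := by
    have e := mul_le_mul_of_nonneg_left hB ha.le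
    have e1 : (α - 1) * (α * ((α * (P + δ) - fq) / (α - 1) + 2 * s - sg) - fk) =
        α * (α * (P + δ) - fq + (α - 1) * (2 * s - sg)) - (α - 1) * fk := by
      field_simp
      ring
    linarith
  have hC' := mul_le_mul_of_nonneg_left hC (show 0 ≤ (α - 1) ^ 2 by positivity)
  have hBα := mul_le_mul_of_nonneg_left hB' h0.le
  have k1 := mul_le_mul_of_nonneg_left hP' (show 0 ≤ (α - 1) ^ 3 by positivity)
  have k2 := mul_le_mul_of_nonneg_left hP h5
  have k3 := mul_le_mul_of_nonneg_left hsg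
    (show 0 ≤ (α - 1) ^ 3 + α * (α - 1) ^ 2 + α ^ 2 * (α - 1) by positivity)
  have k4 := mul_le_mul_of_nonneg_left hfd (show 0 ≤ (α - 1) ^ 2 by positivity)
  have k5 := mul_le_mul_of_nonneg_left hfk
    (show 0 ≤ (α - 1) ^ 2 + α * (α - 1) by positivity)
  have k6 := mul_le_mul_of_nonneg_left hfq (show 0 ≤ α ^ 3 by positivity)
  have k7 := mul_le_mul_of_nonneg_left hA h4.le
  have hcG : 0 ≤ α ^ 3 - (3 * α ^ 2 - 3 * α + 1) * (α - 1) := by
    have e : α ^ 3 - (3 * α ^ 2 - 3 * α + 1) * (α - 1) =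
        1 + 2 * (α * ((α - 1) * (2 - α))) := by ring
    rw [e]
    have : 0 ≤ α * ((α - 1) * (2 - α)) :=
      mul_nonneg h0.le (mul_nonneg ha.le (by linarith))
    linarith
  have k8 := mul_le_mul_of_nonneg_left hG hcG
  have hmain : h * den α ≤ (den α + num α) * s + cstn α * δ := by
    unfold den num cstn
    linarith [hC', hBα, k1, k2, k3, k4, k5, k6, k7, k8]
  have hP : Psi α * s + cst α * δ = ((den α + num α) * s + cstn α * δ) / den α := by
    unfold Psi cst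
    field_simp
  rw [hP, le_div_iff₀ hden]
  exact hmain

end Pool.Agent.MPac5134.SD
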