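import Mathlib

/-!
# SD-Avg: averages over multisets are almost invariant under the generators
-/

open Finset

namespace Pool.Agent.MPac5134.SD

private theorem av_core {M J : Type} [CommMonoid M] [Fintype J] [DecidableEq J] (g : J → M)
    {E : ℕ} (φ : M → ℝ) (j : J) (h : M) :
    ∑ e : J → Fin E, φ (h * ∏ i, g i ^ (e i : ℕ)) =
      ∑ r : {i // i ≠ j} → Fin E, ∑ a ∈ range E,
        φ (h * (g j ^ a * ∏ i : {i // i ≠ j}, g i ^ (r i : ℕ))) := by
  rw [← (Equiv.funSplitAt j (Fin E)).symm.sum_comp, Fintype.sum_prod_type_right]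
  refine sum_congr rfl fun r _ => ?_
  rw [sum_range]
  refine sum_congr rfl fun a _ => ?_
  rw [Fintype.prod_eq_mul_prod_subtype_ne _ j]
  congr 3
  · simp [Equiv.funSplitAt, Equiv.piSplitAt]
  · refine prod_congr rfl fun i _ => ?_
    have : ((Equiv.funSplitAt j (Fin E)).symm (a, r)) (i : J) = r i := by
      simp [Equiv.funSplitAt, Equiv.piSplitAt, i.2]
    rw [this]

/-- almost invariance, multiplicative form -/
theorem av_mul {M J : Type} [CommMonoid M] [Fintype J] [DecidableEq J] (g : J → M) {E : ℕ}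
    (hE : 0 < E) (φ : M → ℝ) {Bd : ℝ} (hφ : ∀ x, |φ x| ≤ Bd) (j : J) :
    |(Fintype.card (J → Fin E) : ℝ)⁻¹ * ∑ e : J → Fin E, φ (g j * ∏ i, g i ^ (e i : ℕ)) -
      (Fintype.card (J → Fin E) : ℝ)⁻¹ * ∑ e : J → Fin E, φ (∏ i, g i ^ (e i : ℕ))| ≤
      2 * Bd / E := by
  have : Nonempty (Fin E) := ⟨⟨0, hE⟩⟩
  have h1 := av_core (E := E) g φ j (g j)
  have h2 := av_core (E := E) g φ j 1
  simp only [one_mul] at h2
  have h3 : ∑ e : J → Fin E, φ (g j * ∏ i, g i ^ (e i : ℕ)) -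
      ∑ e : J → Fin E, φ (∏ i, g i ^ (e i : ℕ)) =
      ∑ r : {i // i ≠ j} → Fin E, (φ (g j ^ E * ∏ i : {i // i ≠ j}, g i ^ (r i : ℕ)) -
        φ (∏ i : {i // i ≠ j}, g i ^ (r i : ℕ))) := by
    rw [h1, h2, ← sum_sub_distrib]
    refine sum_congr rfl fun r _ => ?_
    rw [← sum_sub_distrib]
    have h4 := sum_range_sub (fun a => φ (g j ^ a * ∏ i : {i // i ≠ j}, g i ^ (r i : ℕ))) E
    simp only [pow_zero, one_mul] at h4
    rw [← h4]
    refine sum_congr rfl fun a _ => ?_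
    rw [← mul_assoc, ← pow_succ']
  have hc : Fintype.card (J → Fin E) = E * Fintype.card ({i // i ≠ j} → Fin E) := by
    rw [Fintype.card_congr (Equiv.funSplitAt j (Fin E)), Fintype.card_prod, Fintype.card_fin]
  have hn : (0 : ℝ) < Fintype.card ({i // i ≠ j} → Fin E) := by
    exact_mod_cast Fintype.card_pos
  have hE' : (0 : ℝ) < E := by exact_mod_cast hE
  have h5 : |∑ r : {i // i ≠ j} → Fin E, (φ (g j ^ E * ∏ i : {i // i ≠ j}, g i ^ (r i : ℕ)) -
        φ (∏ i : {i // i ≠ j}, g i ^ (r i : ℕ)))| ≤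
      Fintype.card ({i // i ≠ j} → Fin E) * (2 * Bd) := by
    refine (abs_sum_le_sum_abs _ _).trans ?_
    refine (sum_le_card_nsmul _ _ (2 * Bd) fun r _ => ?_).trans ?_
    · refine (abs_sub _ _).trans ?_
      have := hφ (g j ^ E * ∏ i : {i // i ≠ j}, g i ^ (r i : ℕ))
      have := hφ (∏ i : {i // i ≠ j}, g i ^ (r i : ℕ))
      linarith
    · rw [nsmul_eq_mul, card_univ]
  rw [← mul_sub, h3, abs_mul, hc]
  push_cast
  rw [abs_of_pos (by positivity : (0 : ℝ) < ((E : ℝ) * Fintype.card ({i // i ≠ j} → Fin E))⁻¹)]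
  calc ((E : ℝ) * Fintype.card ({i // i ≠ j} → Fin E))⁻¹ * _
      ≤ ((E : ℝ) * Fintype.card ({i // i ≠ j} → Fin E))⁻¹ *
        (Fintype.card ({i // i ≠ j} → Fin E) * (2 * Bd)) :=
        mul_le_mul_of_nonneg_left h5 (by positivity)
    _ = 2 * Bd / E := by
        field_simp

/-- almost invariance, additive form -/
theorem av_add {M J : Type} [AddCommMonoid M] [Fintype J] [DecidableEq J] (g : J → M) {E : ℕ}
    (hE : 0 < E) (φ : M → ℝ) {Bd : ℝ} (hφ : ∀ x, |φ x| ≤ Bd) (j : J) :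
    |(Fintype.card (J → Fin E) : ℝ)⁻¹ * ∑ e : J → Fin E, φ (g j + ∑ i, (e i : ℕ) • g i) -
      (Fintype.card (J → Fin E) : ℝ)⁻¹ * ∑ e : J → Fin E, φ (∑ i, (e i : ℕ) • g i)| ≤
      2 * Bd / E := by
  have h := av_mul (M := Multiplicative M) (fun i => Multiplicative.ofAdd (g i)) hE
    (fun x => φ (Multiplicative.toAdd x)) (fun x => hφ _) j
  simpa [toAdd_prod] using h

end Pool.Agent.MPac5134.SD
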