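import Pool.Agent.Lib.MP_3581cd_co.Ent

/-!
# Sums-differences: the basic inequality

`Ineq x c F`: for all finite random pairs `(A, B)` in rational vector spaces such that `B`
determines `A`, if all slices `A + t B`, `t ∈ F`, have entropy at most `s` then
`H(B) ≤ x H(A) + c s`.
-/

open RFold Finset

namespace Pool.Agent.MPac5134.SD

/-- `H(B) ≤ x H(A) + c s` whenever `B` determines `A` and all slices `A + t B`, `t ∈ F`, have
entropy at most `s`. -/
def Ineq (x c : ℝ) (F : Finset ℚ) : Prop :=
  ∀ (V : Type) [AddCommGroup V] [Module ℚ V] (Ω : Type) [Fintype Ω] (p : Ω → ℝ) (A B : Ω → V)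
    (s : ℝ), IsPr p → Det p B A → (∀ t ∈ F, ent p (fun ω => A ω + t • B ω) ≤ s) →
    ent p B ≤ x * ent p A + c * s

end Pool.Agent.MPac5134.SD
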