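import Pool.Agent.Lib.MP_ac5134_an.SD.Prod

/-!
# Conditional form of `Ineq`

The conditional entropy is the average of the entropies of the fibres.
-/

open RFold Finset

namespace Pool.Agent.MPac5134.SD

section Fib

variable {Ω : Type*} [Fintype Ω] {β γ : Type*}

open Classical in
/-- The law conditioned on `C = C ω₀` (a point mass if `p ω₀ = 0`). -/
noncomputable def fib (p : Ω → ℝ) (C : Ω → γ) (ω₀ ω : Ω) : ℝ :=
  if p ω₀ = 0 then (if ω = ω₀ then 1 else 0)
  else if C ω = C ω₀ then p ω / law p C (C ω₀) else 0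

theorem isPr_fib {p : Ω → ℝ} (hp : IsPr p) (C : Ω → γ) (ω₀ : Ω) : IsPr (fib p C ω₀) := by
  classical
  by_cases h0 : p ω₀ = 0
  · refine ⟨fun ω => ?_, ?_⟩
    · unfold fib
      rw [if_pos h0]
      split_ifs <;> norm_num
    · unfold fib
      simp [h0]
  · have hl := law_pos hp C h0
    refine ⟨fun ω => ?_, ?_⟩
    · unfold fib
      rw [if_neg h0]
      split_ifs
      · exact div_nonneg (hp.nonneg ω) hl.le
      · exact le_rfl
    · unfold fib
      simp only [h0, if_false]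
      have h1 : ∀ ω, (if C ω = C ω₀ then p ω / law p C (C ω₀) else 0) =
          (if C ω = C ω₀ then p ω else 0) / law p C (C ω₀) := by
        intro ω
        split_ifs
        · rfl
        · rw [zero_div]
      rw [sum_congr rfl fun ω _ => h1 ω, ← sum_div]
      exact div_self hl.ne'

theorem fib_ne_zero {p : Ω → ℝ} {C : Ω → γ} {ω₀ ω : Ω} (h0 : p ω₀ ≠ 0)
    (h : fib p C ω₀ ω ≠ 0) : p ω ≠ 0 ∧ C ω = C ω₀ := by
  unfold fib at h
  rw [if_neg h0] at h
  split_ifs at h with h1
  · refine ⟨?_, h1⟩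
    rintro h2
    rw [h2, zero_div] at h
    exact h rfl
  · exact absurd rfl h

theorem det_fib {p : Ω → ℝ} {C : Ω → γ} {f : Ω → β} {δ : Type*} {g : Ω → δ}
    (h : Det p (fun ω => (f ω, C ω)) g) (ω₀ : Ω) : Det (fib p C ω₀) f g := by
  classical
  intro ω ω' hω hω' e
  by_cases h0 : p ω₀ = 0
  · unfold fib at hω hω'
    rw [if_pos h0] at hω hω'
    split_ifs at hω hω' with h1 h2
    · rw [h1, h2]
    all_goals exact absurd rfl (by assumption)
  · obtain ⟨a1, a2⟩ := fib_ne_zero h0 hω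
    obtain ⟨b1, b2⟩ := fib_ne_zero h0 hω'
    exact h ω ω' a1 b1 (Prod.ext e (a2.trans b2.symm))

theorem law_fib {p : Ω → ℝ} (C : Ω → γ) (f : Ω → β) {ω₀ : Ω} (h0 : p ω₀ ≠ 0) (b : β) :
    law (fib p C ω₀) f b = law p (fun ω => (f ω, C ω)) (b, C ω₀) / law p C (C ω₀) := by
  classical
  have e1 : law (fib p C ω₀) f b = ∑ ω, if f ω = b then fib p C ω₀ ω else 0 := by
    unfold law pr
    exact sum_congr rfl fun ω _ => by congr
  have e2 : law p (fun ω => (f ω, C ω)) (b, C ω₀) =
      ∑ ω, if f ω = b ∧ C ω = C ω₀ then p ω else 0 := by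
    unfold law pr
    refine sum_congr rfl fun ω _ => ?_
    simp only [Prod.mk.injEq]
  rw [e1, e2, sum_div]
  refine sum_congr rfl fun ω _ => ?_
  unfold fib
  rw [if_neg h0]
  by_cases h1 : f ω = b
  · by_cases h2 : C ω = C ω₀
    · simp [h1, h2]
    · simp [h1, h2]
  · simp [h1]

/-- `H(f | C)` is the average of the entropies of `f` on the fibres of `C`. -/
theorem cent_eq_fib {p : Ω → ℝ} (hp : IsPr p) (f : Ω → β) (C : Ω → γ) :
    cent p f C = ∑ ω₀, p ω₀ * ent (fib p C ω₀) f := by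
  classical
  rw [cent_eq]
  have h : ∀ ω₀, p ω₀ * ent (fib p C ω₀) f = ∑ ω, if C ω = C ω₀ then
      p ω₀ * (p ω / law p C (C ω) * (Real.log (law p C (C ω)) -
        Real.log (law p (fun ω => (f ω, C ω)) (f ω, C ω)))) else 0 := by
    intro ω₀
    by_cases h0 : p ω₀ = 0
    · simp [h0]
    · unfold ent
      rw [mul_sum]
      refine sum_congr rfl fun ω _ => ?_
      rw [law_fib C f h0]
      unfold fib
      rw [if_neg h0]
      by_cases h2 : C ω = C ω₀
      · rw [if_pos h2, if_pos h2, h2]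
        by_cases h3 : p ω = 0
        · simp [h3]
        · have l1 := law_pos hp C h0
          have l2 : 0 < law p (fun ω => (f ω, C ω)) (f ω, C ω₀) := by
            have := law_pos hp (fun ω => (f ω, C ω)) h3
            simpa [h2] using this
          rw [Real.log_div l2.ne' l1.ne']
          ring
      · rw [if_neg h2, if_neg h2]
        ring
  rw [sum_congr rfl fun ω₀ _ => h ω₀, sum_comm]
  refine sum_congr rfl fun ω _ => ?_
  have h1 : ∀ ω₀, (if C ω = C ω₀ then p ω₀ * (p ω / law p C (C ω) *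
      (Real.log (law p C (C ω)) - Real.log (law p (fun ω => (f ω, C ω)) (f ω, C ω)))) else 0) =
      (if C ω₀ = C ω then p ω₀ else 0) * (p ω / law p C (C ω) * (Real.log (law p C (C ω)) -
        Real.log (law p (fun ω => (f ω, C ω)) (f ω, C ω)))) := by
    intro ω₀
    by_cases h2 : C ω = C ω₀
    · rw [if_pos h2, if_pos h2.symm]
    · rw [if_neg h2, if_neg (fun h => h2 h.symm), zero_mul]
  rw [sum_congr rfl fun ω₀ _ => h1 ω₀, ← sum_mul]
  have h2 : ∑ ω₀, (if C ω₀ = C ω then p ω₀ else 0) = law p C (C ω) := by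
    unfold law pr
    exact sum_congr rfl fun ω₀ _ => by congr
  rw [h2]
  by_cases h3 : p ω = 0
  · simp [h3]
  · have l1 := (law_pos hp C h3).ne'
    field_simp

end Fib

/-- Conditional and averaged form of `Ineq`. -/
theorem Ineq.cavg {x c : ℝ} {F : Finset ℚ} (hx : 0 ≤ x) (h : Ineq x c F)
    {V : Type} [AddCommGroup V] [Module ℚ V] {Ω I : Type} [Fintype Ω] [Fintype I] {γ : Type*}
    {w : I → ℝ} (hw : ∀ i, 0 ≤ w i) {p : I → Ω → ℝ} (hp : ∀ i, IsPr (p i))
    (A B : I → Ω → V) (C : I → Ω → γ) (hdet : ∀ i, Det (p i) (fun ω => (B i ω, C i ω)) (A i))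
    {s : ℝ} (hs : ∀ t ∈ F, ∑ i, w i * cent (p i) (fun ω => A i ω + t • B i ω) (C i) ≤ s) :
    ∑ i, w i * cent (p i) (B i) (C i) ≤ x * ∑ i, w i * cent (p i) (A i) (C i) + c * s := by
  have e : ∀ f : I → Ω → V, ∑ i, w i * cent (p i) (f i) (C i) =
      ∑ k : I × Ω, (w k.1 * p k.1 k.2) * ent (fib (p k.1) (C k.1) k.2) (f k.1) := by
    intro f
    rw [Fintype.sum_prod_type]
    refine sum_congr rfl fun i _ => ?_
    rw [cent_eq_fib (hp i), mul_sum]
    exact sum_congr rfl fun ω _ => by ring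
  rw [e, e]
  refine h.favg hx (w := fun k : I × Ω => w k.1 * p k.1 k.2)
    (p := fun k => fib (p k.1) (C k.1) k.2) (fun k => mul_nonneg (hw k.1) ((hp k.1).nonneg k.2))
    (fun k => isPr_fib (hp k.1) (C k.1) k.2) (fun k => A k.1) (fun k => B k.1)
    (fun k => det_fib (hdet k.1) k.2) ?_
  intro t ht
  have := hs t ht
  rw [e] at this
  exact this

end Pool.Agent.MPac5134.SD
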