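import Pool.Agent.Lib.MP_ac5134_an.SD.Alg

/-!
# The fixed point
-/

open RFold Finset

namespace Pool.Agent.MPac5134.SD

theorem psi_le {α : ℝ} (h1 : 166959 / 100000 ≤ α) : Psi α ≤ α - 1 / 10 ^ 6 := by
  have hD := den_pos (show 1 < α by linarith)
  obtain ⟨t, ht⟩ : ∃ t : ℝ, t = α - 166959 / 100000 := ⟨_, rfl⟩
  have ht0 : 0 ≤ t := by linarith
  have hα : α = 166959 / 100000 + t := by linarith
  have key : num α ≤ (α - 1 / 10 ^ 6 - 1) * den α := by
    unfold den num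
    rw [hα]
    have : 0 ≤ t ^ 2 := by positivity
    have : 0 ≤ t ^ 3 := by positivity
    have : 0 ≤ t ^ 4 := by positivity
    nlinarith
  have : num α / den α ≤ α - 1 / 10 ^ 6 - 1 := by
    rw [div_le_iff₀ hD]
    exact key
  unfold Psi
  linarith

/-- `s ≥ 0` automatically if `F` is nonempty -/
theorem Ineq.mono {α β : ℝ} {F : Finset ℚ} (hα : 0 < α) (h : Ineq 0 α F) (hαβ : α ≤ β) :
    Ineq 0 β F := by
  intro V _ _ Ω _ p A B s hp hd hF
  have h1 := h V Ω p A B s hp hd hF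
  have h2 := ent_nonneg hp B
  have hs : 0 ≤ s := by
    by_contra hs
    push Not at hs
    nlinarith [mul_neg_of_pos_of_neg hα hs]
  nlinarith [mul_le_mul_of_nonneg_right hαβ hs]

/-- two slices determine the direction -/
theorem base : Ineq 0 2 {0, 1} := by
  intro V _ _ Ω _ p A B s hp hd hF
  have h0 := hF 0 (by simp)
  have h1 := hF 1 (by simp)
  have h2 : Det p (fun ω => (A ω + (0 : ℚ) • B ω, A ω + (1 : ℚ) • B ω)) B := by
    intro ω ω' _ _ h
    simp only [zero_smul, add_zero, one_smul, Prod.mk.injEq] at h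
    obtain ⟨ha, hb⟩ := h
    rw [ha] at hb
    exact add_left_cancel hb
  have h3 := ent_mono hp h2
  have h4 := ent_pair_le hp (fun ω => A ω + (0 : ℚ) • B ω) (fun ω => A ω + (1 : ℚ) • B ω)
  linarith

theorem exists_F_of_step
    (step : ∀ α : ℝ, 1 < α → α ≤ 2 → ∀ F : Finset ℚ, Ineq 0 α F → ∀ ε : ℝ, 0 < ε →
      ∃ F' : Finset ℚ, Ineq 0 (Psi α + ε) F') :
    ∃ F : Finset ℚ, Ineq 0 (166959 / 100000) F := by
  obtain ⟨S, hS⟩ : ∃ S : Set ℝ, S = {α | 166959 / 100000 ≤ α ∧ α ≤ 2 ∧ ∃ F, Ineq 0 α F} :=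
    ⟨_, rfl⟩
  have h2S : (2 : ℝ) ∈ S := by
    rw [hS]
    exact ⟨by norm_num, le_rfl, _, base⟩
  have hbdd : BddBelow S := ⟨166959 / 100000, by rw [hS]; exact fun x hx => hx.1⟩
  obtain ⟨α, hαS, hα⟩ := exists_lt_of_csInf_lt (b := sInf S + 1 / (2 * 10 ^ 6)) ⟨2, h2S⟩
    (by norm_num)
  have hαS' := hαS
  rw [hS] at hαS'
  obtain ⟨hα1, hα2, F, hF⟩ := hαS'
  obtain ⟨F', hF'⟩ := step α (by linarith) hα2 F hF (1 / 10 ^ 7) (by norm_num)
  have hpsi := psi_le hα1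
  have hpos : 0 < Psi α + 1 / 10 ^ 7 := by
    have hD := den_pos (show 1 < α by linarith)
    have hN := num_pos (show 1 < α by linarith)
    have : 0 < num α / den α := div_pos hN hD
    unfold Psi
    linarith
  rcases le_or_gt (Psi α + 1 / 10 ^ 7) (166959 / 100000) with h | h
  · exact ⟨F', hF'.mono hpos h⟩
  · exfalso
    have : Psi α + 1 / 10 ^ 7 ∈ S := by
      rw [hS]
      exact ⟨h.le, by linarith, F', hF'⟩
    have h3 := csInf_le hbdd this
    have : (1 : ℝ) / (2 * 10 ^ 6) + 1 / 10 ^ 7 < 1 / 10 ^ 6 := by norm_num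
    linarith

end Pool.Agent.MPac5134.SD
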