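import Pool.Agent.Lib.MP_ac5134_an.SD.Fib

/-!
# Gluing two laws over a common marginal
-/

open RFold Finset

namespace Pool.Agent.MPac5134.SD

section Glue

variable {Ω Ω' : Type*} [Fintype Ω] [Fintype Ω'] {α β γ : Type*}

open Classical in
/-- The conditionally independent coupling of `p` and `q` over `f = g`. -/
noncomputable def gl (p : Ω → ℝ) (q : Ω' → ℝ) (f : Ω → β) (g : Ω' → β) (x : Ω × Ω') : ℝ :=
  if f x.1 = g x.2 then p x.1 * q x.2 / law p f (f x.1) else 0

omit [Fintype Ω'] in
theorem gl_ne_zero {p : Ω → ℝ} {q : Ω' → ℝ} {f : Ω → β} {g : Ω' → β} {x : Ω × Ω'}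
    (h : gl p q f g x ≠ 0) : p x.1 ≠ 0 ∧ q x.2 ≠ 0 ∧ f x.1 = g x.2 := by
  unfold gl at h
  split_ifs at h with h1
  · refine ⟨?_, ?_, h1⟩
    · rintro h2
      exact h (by rw [h2]; ring)
    · rintro h2
      exact h (by rw [h2]; ring)
  · exact absurd rfl h

variable {p : Ω → ℝ} {q : Ω' → ℝ} {f : Ω → β} {g : Ω' → β}

theorem sum_gl_fst (hp : IsPr p) (hl : ∀ b, law p f b = law q g b) (φ : Ω → ℝ) :
    ∑ x, gl p q f g x * φ x.1 = ∑ ω, p ω * φ ω := by
  classical
  rw [Fintype.sum_prod_type]
  refine sum_congr rfl fun ω _ => ?_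
  have h1 : ∀ ω', gl p q f g (ω, ω') * φ ω =
      (if g ω' = f ω then q ω' else 0) * (p ω / law p f (f ω) * φ ω) := by
    intro ω'
    unfold gl
    by_cases h : f ω = g ω'
    · rw [if_pos h, if_pos h.symm]
      ring
    · rw [if_neg h, if_neg fun e => h e.symm]
      ring
  rw [sum_congr rfl fun ω' _ => h1 ω', ← sum_mul]
  have h2 : ∑ ω', (if g ω' = f ω then q ω' else 0) = law q g (f ω) := by
    unfold law pr
    exact sum_congr rfl fun ω' _ => by congr
  rw [h2, ← hl]
  by_cases h0 : p ω = 0
  · simp [h0]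
  · have := (law_pos hp f h0).ne'
    field_simp

theorem sum_gl_snd (hp : IsPr p) (hq : IsPr q) (hl : ∀ b, law p f b = law q g b) (φ : Ω' → ℝ) :
    ∑ x, gl p q f g x * φ x.2 = ∑ ω, q ω * φ ω := by
  classical
  rw [Fintype.sum_prod_type, sum_comm]
  refine sum_congr rfl fun ω' _ => ?_
  have h1 : ∀ ω, gl p q f g (ω, ω') * φ ω' =
      (if f ω = g ω' then p ω else 0) * (q ω' / law q g (g ω') * φ ω') := by
    intro ω
    unfold gl
    by_cases h : f ω = g ω'
    · rw [if_pos h, if_pos h]
      simp only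
      rw [h, hl]
      ring
    · rw [if_neg h, if_neg h]
      ring
  rw [sum_congr rfl fun ω _ => h1 ω, ← sum_mul]
  have h2 : ∑ ω, (if f ω = g ω' then p ω else 0) = law p f (g ω') := by
    unfold law pr
    exact sum_congr rfl fun ω' _ => by congr
  rw [h2, hl]
  by_cases h0 : q ω' = 0
  · simp [h0]
  · have := (law_pos hq g h0).ne'
    field_simp

theorem isPr_gl (hp : IsPr p) (hq : IsPr q) (hl : ∀ b, law p f b = law q g b) :
    IsPr (gl p q f g) := by
  classical
  refine ⟨fun x => ?_, ?_⟩
  · unfold gl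
    split_ifs
    · exact div_nonneg (mul_nonneg (hp.nonneg _) (hq.nonneg _)) (law_nonneg hp _ _)
    · exact le_rfl
  · have := sum_gl_fst (q := q) (g := g) hp hl (fun _ => 1)
    simp only [mul_one] at this
    rw [this, hp.sum_eq]

theorem law_gl_fst (hp : IsPr p) (hl : ∀ b, law p f b = law q g b) (φ : Ω → α) (a : α) :
    law (gl p q f g) (fun x => φ x.1) a = law p φ a := by
  classical
  have h := sum_gl_fst (q := q) (g := g) hp hl (fun ω => if φ ω = a then 1 else 0)
  simp only [mul_ite, mul_one, mul_zero] at h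
  unfold law pr
  convert h

theorem law_gl_snd (hp : IsPr p) (hq : IsPr q) (hl : ∀ b, law p f b = law q g b) (φ : Ω' → α)
    (a : α) : law (gl p q f g) (fun x => φ x.2) a = law q φ a := by
  classical
  have h := sum_gl_snd hp hq hl (fun ω => if φ ω = a then 1 else 0)
  simp only [mul_ite, mul_one, mul_zero] at h
  unfold law pr
  convert h

theorem ent_gl_fst (hp : IsPr p) (hl : ∀ b, law p f b = law q g b) (φ : Ω → α) :
    ent (gl p q f g) (fun x => φ x.1) = ent p φ := ent_of_law' (law_gl_fst hp hl φ)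

theorem ent_gl_snd (hp : IsPr p) (hq : IsPr q) (hl : ∀ b, law p f b = law q g b) (φ : Ω' → α) :
    ent (gl p q f g) (fun x => φ x.2) = ent q φ := ent_of_law' (law_gl_snd hp hq hl φ)

/-- The entropy of the coupling: `H(F, G) = H(F) + H(G) - H(f)` if `F` determines `f` and `G`
determines `g`. -/
theorem ent_gl (hp : IsPr p) (hq : IsPr q) (hl : ∀ b, law p f b = law q g b)
    {F : Ω → α} {G : Ω' → γ} (hF : Det p F f) (hG : Det q G g) :
    ent (gl p q f g) (fun x => (F x.1, G x.2)) = ent p F + ent q G - ent p f := by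
  classical
  have hlaw : ∀ x, gl p q f g x ≠ 0 → law (gl p q f g) (fun x => (F x.1, G x.2)) (F x.1, G x.2) =
      law p F (F x.1) * law q G (G x.2) / law p f (f x.1) := by
    rintro ⟨ω, ω'⟩ hx
    obtain ⟨h1, h2, h3⟩ := gl_ne_zero hx
    simp only at h1 h2 h3
    have e1 : law p F (F ω) = ∑ a, if F a = F ω then p a else 0 := by
      unfold law pr
      exact sum_congr rfl fun _ _ => by congr
    have e2 : law q G (G ω') = ∑ b, if G b = G ω' then q b else 0 := by
      unfold law pr
      exact sum_congr rfl fun _ _ => by congr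
    have e3 : law (gl p q f g) (fun x => (F x.1, G x.2)) (F ω, G ω') =
        ∑ a, ∑ b, if F a = F ω ∧ G b = G ω' then gl p q f g (a, b) else 0 := by
      unfold law pr
      rw [Fintype.sum_prod_type]
      refine sum_congr rfl fun a _ => sum_congr rfl fun b _ => ?_
      simp only [Prod.mk.injEq]
    simp only
    rw [e1, e2, e3, Finset.sum_mul_sum, sum_div]
    refine sum_congr rfl fun a _ => ?_
    rw [sum_div]
    refine sum_congr rfl fun b _ => ?_
    by_cases ha : F a = F ω
    · by_cases hb : G b = G ω'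
      · rw [if_pos ⟨ha, hb⟩, if_pos ha, if_pos hb]
        unfold gl
        simp only
        by_cases ha0 : p a = 0
        · simp [ha0]
        by_cases hb0 : q b = 0
        · simp [hb0]
        have ea : f a = f ω := hF a ω ha0 h1 ha
        have eb : g b = g ω' := hG b ω' hb0 h2 hb
        rw [if_pos (by rw [ea, eb, h3]), ea]
      · rw [if_neg fun h => hb h.2, if_neg hb]
        simp
    · rw [if_neg fun h => ha h.1, if_neg ha]
      simp
  have e0 : ent (gl p q f g) (fun x => (F x.1, G x.2)) = ∑ x, gl p q f g x *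
      (-Real.log (law (gl p q f g) (fun x => (F x.1, G x.2)) (F x.1, G x.2))) := rfl
  have key : ∀ x, gl p q f g x *
      (-Real.log (law (gl p q f g) (fun x => (F x.1, G x.2)) (F x.1, G x.2))) =
      gl p q f g x * (-Real.log (law p F (F x.1))) + gl p q f g x * (-Real.log (law q G (G x.2))) -
        gl p q f g x * (-Real.log (law p f (f x.1))) := by
    intro x
    by_cases h0 : gl p q f g x = 0
    · simp [h0]
    · obtain ⟨h1, h2, h3⟩ := gl_ne_zero h0
      have l1 := (law_pos hp F h1).ne'
      have l2 := (law_pos hq G h2).ne'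
      have l3 := (law_pos hp f h1).ne'
      rw [hlaw x h0, Real.log_div (mul_ne_zero l1 l2) l3, Real.log_mul l1 l2]
      ring
  rw [e0, sum_congr rfl fun x _ => key x, sum_sub_distrib, sum_add_distrib,
    sum_gl_fst hp hl (fun ω => -Real.log (law p F (F ω))),
    sum_gl_snd hp hq hl (fun ω => -Real.log (law q G (G ω))),
    sum_gl_fst hp hl (fun ω => -Real.log (law p f (f ω)))]
  rfl

end Glue

end Pool.Agent.MPac5134.SD
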