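import Pool.Agent.Lib.MP_ac5134_an.SD.LQ

/-!
# The 4-cycle with one further copy of `V`, glued over a line through `L`

`V_b` and `V_a` are glued over `(x, y)`.  In every copy of `V` the functional `L` is on the lines
`fl ξ`, spanned by the points at the heights `τ + ξ X` and `τ + ξ / (ξ - 1) c`.
-/

open RFold Finset

namespace Pool.Agent.MPac5134.SD

variable {V Ω : Type} [AddCommGroup V] [Module ℚ V] [Fintype Ω] (S : Sys V Ω)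

namespace Sys

/-- The line `ξ` through `L` in a copy of `V`. -/
def fl (τ X c ξ : ℚ) (x : Ω × Ω) : V × V :=
  (S.P (τ + ξ * X) x.1, S.P (τ + ξ / (ξ - 1) * c) x.2)

/-- The functional `L` in a copy of `V`. -/
def Lv (τ X c : ℚ) (x : Ω × Ω) : V := S.P τ x.1 + X • S.B x.1 + c • S.B x.2

/-- `L` is on the line `ξ`. -/
theorem Lv_eq {τ X c ξ : ℚ} (h0 : ξ ≠ 0) (h1 : ξ ≠ 1) {x : Ω × Ω}
    (hx : S.P τ x.1 = S.P τ x.2) :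
    S.Lv τ X c x = (1 / ξ) • (S.fl τ X c ξ x).1 + ((ξ - 1) / ξ) • (S.fl τ X c ξ x).2 := by
  have h2 : ξ - 1 ≠ 0 := sub_ne_zero.mpr h1
  simp only [Lv, fl]
  rw [S.P_add τ, S.P_add τ, ← hx]
  match_scalars
  · field_simp
    ring
  · field_simp
  · field_simp

theorem L4_eq_Lv (τ X c : ℚ) (x : (Ω × Ω) × (Ω × Ω)) : S.L4 τ X c x = S.Lv τ X c x.1 := rfl

/-- Glueing over the line `ξ`. -/
noncomputable def wc (τ X Y c ξ : ℚ) : ((Ω × Ω) × (Ω × Ω)) × (Ω × Ω) → ℝ :=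
  gl (S.w4 τ X Y) (S.v τ) (fun x => S.fl τ X c ξ x.1) (S.fl τ X c ξ)

theorem law_wc (τ X Y c ξ : ℚ) (b : V × V) :
    law (S.w4 τ X Y) (fun x => S.fl τ X c ξ x.1) b = law (S.v τ) (S.fl τ X c ξ) b :=
  law_gl_fst (S.isPr_v τ) (fun _ => rfl) (S.fl τ X c ξ) b

theorem isPr_wc (τ X Y c ξ : ℚ) : IsPr (S.wc τ X Y c ξ) :=
  isPr_gl (S.isPr_w4 τ X Y) (S.isPr_v τ) (S.law_wc τ X Y c ξ)

/-- The facts on the support. -/
structure K3 (τ X Y c ξ : ℚ) (x : ((Ω × Ω) × (Ω × Ω)) × (Ω × Ω)) : Prop where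
  q4 : S.Q4 τ X Y x.1
  p31 : S.p x.2.1 ≠ 0
  p32 : S.p x.2.2 ≠ 0
  ec : S.P τ x.2.1 = S.P τ x.2.2
  eq : S.P (τ + ξ * X) x.1.1.1 = S.P (τ + ξ * X) x.2.1
  ez : S.P (τ + ξ / (ξ - 1) * c) x.1.1.2 = S.P (τ + ξ / (ξ - 1) * c) x.2.2

theorem wc_ne_zero {τ X Y c ξ : ℚ} {x : ((Ω × Ω) × (Ω × Ω)) × (Ω × Ω)}
    (h : S.wc τ X Y c ξ x ≠ 0) : S.K3 τ X Y c ξ x := by
  obtain ⟨h1, h2, h3⟩ := gl_ne_zero h
  obtain ⟨b1, b2, b3⟩ := S.v_ne_zero h2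
  simp only [fl, Prod.mk.injEq] at h3
  exact ⟨S.w4_ne_zero h1, b1, b2, b3, h3.1, h3.2⟩

theorem ent_wc_1 {α : Type*} (τ X Y c ξ : ℚ) (φ : (Ω × Ω) × (Ω × Ω) → α) :
    ent (S.wc τ X Y c ξ) (fun x => φ x.1) = ent (S.w4 τ X Y) φ :=
  ent_gl_fst (S.isPr_w4 τ X Y) (S.law_wc τ X Y c ξ) φ

theorem ent_wc_2 {α : Type*} (τ X Y c ξ : ℚ) (φ : Ω × Ω → α) :
    ent (S.wc τ X Y c ξ) (fun x => φ x.2) = ent (S.v τ) φ :=
  ent_gl_snd (S.isPr_w4 τ X Y) (S.isPr_v τ) (S.law_wc τ X Y c ξ) φ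

/-- the entropy of the configuration -/
noncomputable def hc (τ X Y c ξ : ℚ) : ℝ :=
  S.hq τ X Y + (2 * S.h - S.H τ) - S.G τ (ξ * X) (ξ / (ξ - 1) * c)

/-- the directions of a copy of `V` -/
def J2 (x : Ω × Ω) : V × V := (S.B x.1, S.B x.2)

theorem ent_J2 (τ : ℚ) : ent (S.v τ) S.J2 = 2 * S.h - S.H τ := S.ent_v τ

theorem det_fl (τ X c ξ : ℚ) : Det (S.v τ) S.J2 (S.fl τ X c ξ) := by
  intro x y hx hy e
  simp only [J2, Prod.mk.injEq] at e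
  obtain ⟨hx1, hx2, _⟩ := S.v_ne_zero hx
  obtain ⟨hy1, hy2, _⟩ := S.v_ne_zero hy
  simp only [fl, Prod.mk.injEq]
  exact ⟨S.P_eq _ hx1 hy1 e.1, S.P_eq _ hx2 hy2 e.2⟩

/-- all directions -/
def J3 (x : ((Ω × Ω) × (Ω × Ω)) × (Ω × Ω)) : ((V × V) × (V × V)) × (V × V) :=
  (S.J4 x.1, S.J2 x.2)

theorem ent_wc (τ X Y c ξ : ℚ) : ent (S.wc τ X Y c ξ) S.J3 = S.hc τ X Y c ξ := by
  have h1 := ent_gl (S.isPr_w4 τ X Y) (S.isPr_v τ) (S.law_wc τ X Y c ξ)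
    (F := S.J4) (G := S.J2) ?_ (S.det_fl τ X c ξ)
  · unfold wc J3
    rw [h1, S.ent_w4, S.ent_J2, S.ent_w4_1 τ X Y (S.fl τ X c ξ)]
    rfl
  · intro x y hx hy e
    have qx := S.w4_ne_zero hx
    have qy := S.w4_ne_zero hy
    simp only [J4, Prod.mk.injEq] at e
    obtain ⟨⟨e1, e2⟩, e3, e4⟩ := e
    simp only [fl, Prod.mk.injEq]
    exact ⟨S.P_eq _ qx.p11 qy.p11 e1, S.P_eq _ qx.p12 qy.p12 e2⟩

/-- `L` on the copy `V_c` -/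
theorem L4_eq_c {τ X Y c ξ : ℚ} (h0 : ξ ≠ 0) (h1 : ξ ≠ 1)
    {x : ((Ω × Ω) × (Ω × Ω)) × (Ω × Ω)} (hx : S.K3 τ X Y c ξ x) :
    S.L4 τ X c x.1 = S.Lv τ X c x.2 := by
  rw [S.L4_eq_Lv, S.Lv_eq h0 h1 hx.q4.ea, S.Lv_eq h0 h1 hx.ec]
  simp only [fl]
  rw [hx.eq, hx.ez]

/-- The entropy of the line through `L` and a point of `V_c`. -/
theorem ent_Lr_v {τ X c η : ℚ} (h0 : η ≠ 0) (h1 : η ≠ 1) :
    ent (S.v τ) (fun x => (S.Lv τ X c x, S.P (τ + η * X) x.1)) ≤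
      S.H (τ + η * X) + S.H (τ + η / (η - 1) * c) := by
  have h2 : ent (S.v τ) (fun x => (S.Lv τ X c x, S.P (τ + η * X) x.1)) ≤
      ent (S.v τ) (S.fl τ X c η) := by
    refine ent_mono (S.isPr_v τ) ?_
    intro x y hx hy e
    obtain ⟨_, _, hx3⟩ := S.v_ne_zero hx
    obtain ⟨_, _, hy3⟩ := S.v_ne_zero hy
    have e1 : S.P (τ + η * X) x.1 = S.P (τ + η * X) y.1 := congrArg Prod.fst e
    simp only [Prod.mk.injEq]
    rw [S.Lv_eq h0 h1 hx3, S.Lv_eq h0 h1 hy3, e]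
    exact ⟨rfl, e1⟩
  exact h2.trans (S.G_le' τ (η * X) (η / (η - 1) * c))

theorem ent_Lr_c {τ X Y c ξ η : ℚ} (hξ0 : ξ ≠ 0) (hξ1 : ξ ≠ 1) (h0 : η ≠ 0) (h1 : η ≠ 1) :
    ent (S.wc τ X Y c ξ) (fun x => (S.L4 τ X c x.1, S.P (τ + η * X) x.2.1)) ≤
      S.H (τ + η * X) + S.H (τ + η / (η - 1) * c) := by
  have h2 : ent (S.wc τ X Y c ξ) (fun x => (S.L4 τ X c x.1, S.P (τ + η * X) x.2.1)) ≤
      ent (S.wc τ X Y c ξ) (fun x => (S.Lv τ X c x.2, S.P (τ + η * X) x.2.1)) := by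
    refine ent_mono (S.isPr_wc _ _ _ _ _) ?_
    intro x y hx hy e
    simp only [Prod.mk.injEq] at e ⊢
    rw [S.L4_eq_c hξ0 hξ1 (S.wc_ne_zero hx), S.L4_eq_c hξ0 hξ1 (S.wc_ne_zero hy)]
    exact e
  rw [S.ent_wc_2 τ X Y c ξ (fun x => (S.Lv τ X c x, S.P (τ + η * X) x.1))] at h2
  exact h2.trans (S.ent_Lr_v h0 h1)

/-- The functional `N₂ = (L, q + b X W_xb + κ X W_qc)`. -/
def N3 (τ X c ξ κ b : ℚ) (x : ((Ω × Ω) × (Ω × Ω)) × (Ω × Ω)) : V × V :=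
  (S.L4 τ X c x.1, S.P (τ + ξ * X) x.1.1.1 + (b • (X • S.B x.1.2.1) + κ • (X • S.B x.2.1)))

/-- `W_xb` and `L` determine the 4-cycle. -/
theorem J4_of' {τ X Y c : ℚ} (hX : X ≠ 0) (hY : Y ≠ 0) (hc : c ≠ 0)
    {x y : (Ω × Ω) × (Ω × Ω)} (qx : S.Q4 τ X Y x) (qy : S.Q4 τ X Y y)
    (e1 : S.B x.2.1 = S.B y.2.1) (e2 : S.L4 τ X c x = S.L4 τ X c y) :
    S.B x.1.1 = S.B y.1.1 ∧ S.B x.1.2 = S.B y.1.2 ∧ S.B x.2.2 = S.B y.2.2 := by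
  -- the vertex `x`
  have ex : S.P (τ + X) x.1.1 = S.P (τ + X) y.1.1 := by
    rw [qx.ex, qy.ex]
    exact S.P_eq _ qx.p21 qy.p21 e1
  have f2 : S.B x.1.2 = S.B y.1.2 := by
    have h := e2
    simp only [L4] at h
    rw [← S.P_add, ← S.P_add, ex, add_right_inj] at h
    exact smul_right_injective V hc h
  have ea : S.P τ x.1.1 = S.P τ y.1.1 := by
    rw [qx.ea, qy.ea]
    exact S.P_eq _ qx.p12 qy.p12 f2
  have hne : τ ≠ τ + X := fun e => hX (by linarith)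
  have f1 : S.B x.1.1 = S.B y.1.1 := S.B_eq hne ea ex
  have h := S.J4_of hY qx qy f1 f2 e1
  simp only [J4, Prod.mk.injEq] at h
  exact ⟨f1, f2, h.2.2⟩

/-- `W_xb`, `L` and `W_qc` determine everything. -/
theorem J3_of {τ X Y c ξ : ℚ} (hX : X ≠ 0) (hY : Y ≠ 0) (hc : c ≠ 0) (h0 : ξ ≠ 0) (h1 : ξ ≠ 1)
    {x y : ((Ω × Ω) × (Ω × Ω)) × (Ω × Ω)} (hx : S.K3 τ X Y c ξ x) (hy : S.K3 τ X Y c ξ y)
    (e1 : S.B x.1.2.1 = S.B y.1.2.1) (e2 : S.L4 τ X c x.1 = S.L4 τ X c y.1)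
    (e3 : S.B x.1.1.1 = S.B y.1.1.1 → S.B x.2.1 = S.B y.2.1) : S.J3 x = S.J3 y := by
  obtain ⟨f1, f2, f4⟩ := S.J4_of' hX hY hc hx.q4 hy.q4 e1 e2
  have g1 := e3 f1
  have g2 : S.B x.2.2 = S.B y.2.2 := by
    have h := e2
    rw [S.L4_eq_c h0 h1 hx, S.L4_eq_c h0 h1 hy] at h
    simp only [Lv] at h
    rw [S.P_eq τ hx.p31 hy.p31 g1, g1, add_right_inj] at h
    exact smul_right_injective V hc h
  simp only [J3, J4, J2, Prod.mk.injEq]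
  exact ⟨⟨⟨f1, f2⟩, e1, f4⟩, g1, g2⟩

/-- `(W_xb, N₂)` determines everything. -/
theorem J3_of_BN {τ X Y c ξ κ b : ℚ} (hX : X ≠ 0) (hY : Y ≠ 0) (hc : c ≠ 0) (h0 : ξ ≠ 0)
    (h1 : ξ ≠ 1) (hκ : κ ≠ 0) (hb : b ≠ 0) {x y : ((Ω × Ω) × (Ω × Ω)) × (Ω × Ω)}
    (kx : S.K3 τ X Y c ξ x) (ky : S.K3 τ X Y c ξ y)
    (e : (b • (X • S.B x.1.2.1), S.N3 τ X c ξ κ b x) =
      (b • (X • S.B y.1.2.1), S.N3 τ X c ξ κ b y)) : S.J3 x = S.J3 y := by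
  simp only [Prod.mk.injEq, N3] at e
  obtain ⟨e1, e2, e3⟩ := e
  have f1 : S.B x.1.2.1 = S.B y.1.2.1 :=
    smul_right_injective V hX (smul_right_injective V hb e1)
  refine S.J3_of hX hY hc h0 h1 kx ky f1 e2 ?_
  intro g
  rw [S.P_eq (τ + ξ * X) kx.q4.p11 ky.q4.p11 g, f1, add_right_inj, add_right_inj] at e3
  exact smul_right_injective V hX (smul_right_injective V hκ e3)

theorem ent_BN3 {τ X Y c ξ κ b : ℚ} (hX : X ≠ 0) (hY : Y ≠ 0) (hc : c ≠ 0) (h0 : ξ ≠ 0)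
    (h1 : ξ ≠ 1) (hκ : κ ≠ 0) (hb : b ≠ 0) :
    ent (S.wc τ X Y c ξ) (fun x => (b • (X • S.B x.1.2.1), S.N3 τ X c ξ κ b x)) =
      S.hc τ X Y c ξ := by
  rw [← S.ent_wc]
  refine ent_congr (S.isPr_wc _ _ _ _ _) ?_ ?_
  · intro x y hx hy e
    exact S.J3_of_BN hX hY hc h0 h1 hκ hb (S.wc_ne_zero hx) (S.wc_ne_zero hy) e
  · intro x y hx hy e
    have kx := S.wc_ne_zero hx
    have ky := S.wc_ne_zero hy
    simp only [J3, J4, J2, Prod.mk.injEq] at e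
    obtain ⟨⟨⟨e1, e2⟩, e3, e4⟩, e5, e6⟩ := e
    simp only [Prod.mk.injEq, N3, L4]
    rw [S.P_eq τ kx.q4.p11 ky.q4.p11 e1, S.P_eq (τ + ξ * X) kx.q4.p11 ky.q4.p11 e1, e1, e2,
      e3, e5]
    exact ⟨rfl, rfl, rfl⟩

/-- `(W_xb, N₂)` determines `q`. -/
theorem det_q3 {τ X Y c ξ κ b : ℚ} (hX : X ≠ 0) (hY : Y ≠ 0) (hc : c ≠ 0) (h0 : ξ ≠ 0)
    (h1 : ξ ≠ 1) (hκ : κ ≠ 0) (hb : b ≠ 0) :
    Det (S.wc τ X Y c ξ) (fun x => (b • (X • S.B x.1.2.1), S.N3 τ X c ξ κ b x))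
      (fun x => S.P (τ + ξ * X) x.1.1.1) := by
  intro x y hx hy e
  have kx := S.wc_ne_zero hx
  have ky := S.wc_ne_zero hy
  have h7 := S.J3_of_BN hX hY hc h0 h1 hκ hb kx ky e
  simp only [J3, J4, Prod.mk.injEq] at h7
  exact S.P_eq _ kx.q4.p11 ky.q4.p11 h7.1.1.1

/-- The slices of the pencil at `N₂`. -/
theorem ent_slice3 {τ X Y c ξ κ b t : ℚ} (h0 : ξ ≠ 0) (h1 : ξ ≠ 1) (ht : 1 < t)
    (hη0 : ξ + κ * (t / (t - 1)) ≠ 0) (hη1 : ξ + κ * (t / (t - 1)) ≠ 1) :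
    ent (S.wc τ X Y c ξ) (fun x => (S.P (τ + ξ * X) x.1.1.1 + t • (b • (X • S.B x.1.2.1)),
      S.N3 τ X c ξ κ b x)) ≤
      ent (S.w4 τ X Y) (S.Nx τ X c ξ (t * b)) +
        (S.H (τ + (ξ + κ * (t / (t - 1))) * X) + S.H (τ + (ξ + κ * (t / (t - 1))) /
          (ξ + κ * (t / (t - 1)) - 1) * c)) - S.sig τ X c := by
  have hw := S.isPr_wc τ X Y c ξ
  have ht0 : t ≠ 0 := by linarith
  have ht1 : t - 1 ≠ 0 := by
    have : 0 < t - 1 := by linarith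
    exact this.ne'
  have hsub := ent_submod' hw (A := fun x => S.Nx τ X c ξ (t * b) x.1)
    (B := fun x => (S.L4 τ X c x.1, S.P (τ + (ξ + κ * (t / (t - 1))) * X) x.2.1))
    (J := fun x => (S.P (τ + ξ * X) x.1.1.1 + t • (b • (X • S.B x.1.2.1)),
      S.N3 τ X c ξ κ b x))
    (M := fun x => S.L4 τ X c x.1) ?_ ?_ ?_
  · rw [S.ent_wc_1 τ X Y c ξ (S.Nx τ X c ξ (t * b)), S.ent_wc_1 τ X Y c ξ (S.L4 τ X c),
      S.ent_L4] at hsub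
    have h3 := S.ent_Lr_c (τ := τ) (X := X) (Y := Y) (c := c) h0 h1 hη0 hη1
    linarith
  · intro x y hx hy e
    have kx := S.wc_ne_zero hx
    have ky := S.wc_ne_zero hy
    simp only [Nx, Prod.mk.injEq] at e
    obtain ⟨⟨e1, e2⟩, _, e4⟩ := e
    simp only [N3, Prod.mk.injEq]
    have b1 : ∀ z : ((Ω × Ω) × (Ω × Ω)) × (Ω × Ω),
        S.P (τ + ξ * X) z.1.1.1 + t • (b • (X • S.B z.1.2.1)) =
          S.P (τ + ξ * X) z.1.1.1 + (t * b) • (X • S.B z.1.2.1) := by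
      intro z
      rw [smul_smul]
    have b2 : ∀ z, S.K3 τ X Y c ξ z →
        S.P (τ + ξ * X) z.1.1.1 + (b • (X • S.B z.1.2.1) + κ • (X • S.B z.2.1)) =
          (1 / t) • (S.P (τ + ξ * X) z.1.1.1 + (t * b) • (X • S.B z.1.2.1)) +
          ((t - 1) / t) • S.P (τ + (ξ + κ * (t / (t - 1))) * X) z.2.1 := by
      intro z hz
      have e5 : τ + (ξ + κ * (t / (t - 1))) * X = τ + ξ * X + κ * (t / (t - 1)) * X := by ring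
      rw [e5, S.P_add (τ + ξ * X), ← hz.eq]
      match_scalars <;> field_simp
      ring
    refine ⟨?_, e1, ?_⟩
    · rw [b1, b1, e2]
    · rw [b2 x kx, b2 y ky, e2, e4]
  · intro x y hx hy e
    exact congrArg Prod.fst e
  · intro x y hx hy e
    exact congrArg Prod.fst e

end Sys

/-- The upper bound for `N₂`. -/
theorem n3_fam {α : ℝ} {F : Finset ℚ} (hI : Ineq 0 α F) (hF : ∀ t ∈ F, 1 < t)
    {ξ κ b : ℚ} (h0 : ξ ≠ 0) (h1 : ξ ≠ 1) (hκ : κ ≠ 0) (hb : b ≠ 0)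
    (hη0 : ∀ t ∈ F, ξ + κ * (t / (t - 1)) ≠ 0) (hη1 : ∀ t ∈ F, ξ + κ * (t / (t - 1)) ≠ 1)
    {I : Type} [Fintype I] {w : I → ℝ} (hw : ∀ i, 0 ≤ w i) (hw1 : ∑ i, w i = 1)
    (τ X Y c : I → ℚ) (hX : ∀ i, X i ≠ 0) (hY : ∀ i, Y i ≠ 0) (hc : ∀ i, c i ≠ 0)
    {s n1 : ℝ}
    (H1 : ∀ i, ∀ t ∈ F, S.H (τ i + (ξ + κ * (t / (t - 1))) * X i) ≤ s)
    (H2 : ∀ i, ∀ t ∈ F, S.H (τ i + (ξ + κ * (t / (t - 1))) / (ξ + κ * (t / (t - 1)) - 1) *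
      c i) ≤ s)
    (hn : ∀ t ∈ F, ∑ i, w i * ent (S.w4 (τ i) (X i) (Y i)) (S.Nx (τ i) (X i) (c i) ξ (t * b)) ≤
      n1) :
    (α - 1) * ∑ i, w i * ent (S.wc (τ i) (X i) (Y i) (c i) ξ) (S.N3 (τ i) (X i) (c i) ξ κ b) ≤
      α * (n1 + 2 * s - ∑ i, w i * S.sig (τ i) (X i) (c i)) -
        ∑ i, w i * S.hc (τ i) (X i) (Y i) (c i) ξ := by
  set fk := ∑ i, w i * S.hc (τ i) (X i) (Y i) (c i) ξ with hfk
  set sg := ∑ i, w i * S.sig (τ i) (X i) (c i) with hsg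
  have hsum : ∀ a : ℝ, ∑ i, w i * a = a := fun a => by rw [← sum_mul, hw1, one_mul]
  set n := ∑ i, w i * ent (S.wc (τ i) (X i) (Y i) (c i) ξ) (S.N3 (τ i) (X i) (c i) ξ κ b)
    with hn'
  have hpen := hI.cavg (I := I) (w := w) le_rfl hw
    (p := fun i => S.wc (τ i) (X i) (Y i) (c i) ξ) (fun i => S.isPr_wc _ _ _ _ _)
    (fun i x => S.P (τ i + ξ * X i) x.1.1.1) (fun i x => b • (X i • S.B x.1.2.1))
    (fun i => S.N3 (τ i) (X i) (c i) ξ κ b) (s := n1 + 2 * s - sg - n)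
    (fun i => S.det_q3 (hX i) (hY i) (hc i) h0 h1 hκ hb) ?_
  · rw [zero_mul, zero_add] at hpen
    have e1 : ∑ i, w i * cent (S.wc (τ i) (X i) (Y i) (c i) ξ)
        (fun x => b • (X i • S.B x.1.2.1)) (S.N3 (τ i) (X i) (c i) ξ κ b) = fk - n := by
      rw [hn', hfk, ← sum_sub_distrib]
      refine sum_congr rfl fun i _ => ?_
      unfold cent
      rw [S.ent_BN3 (hX i) (hY i) (hc i) h0 h1 hκ hb]
      ring
    rw [e1] at hpen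
    nlinarith
  · intro t ht
    have h4 : ∀ i, w i * cent (S.wc (τ i) (X i) (Y i) (c i) ξ)
        (fun x => S.P (τ i + ξ * X i) x.1.1.1 + t • (b • (X i • S.B x.1.2.1)))
        (S.N3 (τ i) (X i) (c i) ξ κ b) ≤
          w i * ent (S.w4 (τ i) (X i) (Y i)) (S.Nx (τ i) (X i) (c i) ξ (t * b)) +
          w i * (2 * s) - w i * S.sig (τ i) (X i) (c i) -
          w i * ent (S.wc (τ i) (X i) (Y i) (c i) ξ) (S.N3 (τ i) (X i) (c i) ξ κ b) := by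
      intro i
      rw [← mul_add, ← mul_sub, ← mul_sub]
      refine mul_le_mul_of_nonneg_left ?_ (hw i)
      have := S.ent_slice3 (τ := τ i) (X := X i) (Y := Y i) (c := c i) (b := b) h0 h1
        (hF t ht) (hη0 t ht) (hη1 t ht)
      unfold cent
      linarith [H1 i t ht, H2 i t ht]
    refine (sum_le_sum fun i _ => h4 i).trans ?_
    rw [sum_sub_distrib, sum_sub_distrib, sum_add_distrib, hsum, ← hn', ← hsg]
    linarith [hn t ht]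

end Pool.Agent.MPac5134.SD
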