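import Pool.Agent.Lib.MP_ac5134_an.SD.LK3
import Pool.Agent.Lib.MP_ac5134_an.SD.P3

/-!
# The configuration with two further copies of `V`

`V_b` and `V_a` are glued over `(x, y)`, `V_a` and `V_c` are glued over the line `ξ` through `L`,
`V_c` and `V_d` are glued over the line `ρ` through `L`.
-/

open RFold Finset

namespace Pool.Agent.MPac5134.SD

variable {V Ω : Type} [AddCommGroup V] [Module ℚ V] [Fintype Ω] (S : Sys V Ω)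

namespace Sys

/-- Glueing `V_d` over the line `ρ` of `V_c`. -/
noncomputable def wd (τ X Y c ξ ρ : ℚ) :
    (((Ω × Ω) × (Ω × Ω)) × (Ω × Ω)) × (Ω × Ω) → ℝ :=
  gl (S.wc τ X Y c ξ) (S.v τ) (fun x => S.fl τ X c ρ x.2) (S.fl τ X c ρ)

theorem law_wd (τ X Y c ξ ρ : ℚ) (b : V × V) :
    law (S.wc τ X Y c ξ) (fun x => S.fl τ X c ρ x.2) b = law (S.v τ) (S.fl τ X c ρ) b :=
  law_gl_snd (S.isPr_w4 τ X Y) (S.isPr_v τ) (S.law_wc τ X Y c ξ) (S.fl τ X c ρ) b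

theorem isPr_wd (τ X Y c ξ ρ : ℚ) : IsPr (S.wd τ X Y c ξ ρ) :=
  isPr_gl (S.isPr_wc τ X Y c ξ) (S.isPr_v τ) (S.law_wd τ X Y c ξ ρ)

/-- The facts on the support. -/
structure K4 (τ X Y c ξ ρ : ℚ) (x : (((Ω × Ω) × (Ω × Ω)) × (Ω × Ω)) × (Ω × Ω)) : Prop where
  k3 : S.K3 τ X Y c ξ x.1
  p41 : S.p x.2.1 ≠ 0
  p42 : S.p x.2.2 ≠ 0
  ed : S.P τ x.2.1 = S.P τ x.2.2
  er : S.P (τ + ρ * X) x.1.2.1 = S.P (τ + ρ * X) x.2.1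
  es : S.P (τ + ρ / (ρ - 1) * c) x.1.2.2 = S.P (τ + ρ / (ρ - 1) * c) x.2.2

theorem wd_ne_zero {τ X Y c ξ ρ : ℚ} {x : (((Ω × Ω) × (Ω × Ω)) × (Ω × Ω)) × (Ω × Ω)}
    (h : S.wd τ X Y c ξ ρ x ≠ 0) : S.K4 τ X Y c ξ ρ x := by
  obtain ⟨h1, h2, h3⟩ := gl_ne_zero h
  obtain ⟨b1, b2, b3⟩ := S.v_ne_zero h2
  simp only [fl, Prod.mk.injEq] at h3
  exact ⟨S.wc_ne_zero h1, b1, b2, b3, h3.1, h3.2⟩

theorem ent_wd_1 {α : Type*} (τ X Y c ξ ρ : ℚ) (φ : ((Ω × Ω) × (Ω × Ω)) × (Ω × Ω) → α) :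
    ent (S.wd τ X Y c ξ ρ) (fun x => φ x.1) = ent (S.wc τ X Y c ξ) φ :=
  ent_gl_fst (S.isPr_wc τ X Y c ξ) (S.law_wd τ X Y c ξ ρ) φ

theorem ent_wd_2 {α : Type*} (τ X Y c ξ ρ : ℚ) (φ : Ω × Ω → α) :
    ent (S.wd τ X Y c ξ ρ) (fun x => φ x.2) = ent (S.v τ) φ :=
  ent_gl_snd (S.isPr_wc τ X Y c ξ) (S.isPr_v τ) (S.law_wd τ X Y c ξ ρ) φ

/-- `V_c` and `V_d` form a 4-cycle. -/
theorem ent_wd_23 {α : Type*} (τ X Y c ξ ρ : ℚ) (φ : (Ω × Ω) × (Ω × Ω) → α) :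
    ent (S.wd τ X Y c ξ ρ) (fun x => φ (x.1.2, x.2)) =
      ent (S.w4 τ (ρ * X) (ρ / (ρ - 1) * c)) φ :=
  ent_gl_assoc (r := S.v τ) (g' := S.fl τ X c ρ) (k := S.fl τ X c ρ) (S.isPr_w4 τ X Y)
    (S.isPr_v τ) (S.law_wc τ X Y c ξ) φ

/-- the entropy of the configuration -/
noncomputable def hd (τ X Y c ξ ρ : ℚ) : ℝ :=
  S.hc τ X Y c ξ + (2 * S.h - S.H τ) - S.G τ (ρ * X) (ρ / (ρ - 1) * c)

/-- all directions -/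
def J5 (x : (((Ω × Ω) × (Ω × Ω)) × (Ω × Ω)) × (Ω × Ω)) :
    (((V × V) × (V × V)) × (V × V)) × (V × V) :=
  (S.J3 x.1, S.J2 x.2)

theorem ent_wd (τ X Y c ξ ρ : ℚ) : ent (S.wd τ X Y c ξ ρ) S.J5 = S.hd τ X Y c ξ ρ := by
  have h1 := ent_gl (S.isPr_wc τ X Y c ξ) (S.isPr_v τ) (S.law_wd τ X Y c ξ ρ)
    (F := S.J3) (G := S.J2) ?_ (S.det_fl τ X c ρ)
  · unfold wd J5
    rw [h1, S.ent_wc, S.ent_J2, S.ent_wc_2 τ X Y c ξ (S.fl τ X c ρ)]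
    rfl
  · intro x y hx hy e
    have kx := S.wc_ne_zero hx
    have ky := S.wc_ne_zero hy
    simp only [J3, J2, Prod.mk.injEq] at e
    simp only [fl, Prod.mk.injEq]
    exact ⟨S.P_eq _ kx.p31 ky.p31 e.2.1, S.P_eq _ kx.p32 ky.p32 e.2.2⟩

/-- `L` on the copy `V_d` -/
theorem L4_eq_d {τ X Y c ξ ρ : ℚ} (h0 : ξ ≠ 0) (h1 : ξ ≠ 1) (r0 : ρ ≠ 0) (r1 : ρ ≠ 1)
    {x : (((Ω × Ω) × (Ω × Ω)) × (Ω × Ω)) × (Ω × Ω)} (hx : S.K4 τ X Y c ξ ρ x) :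
    S.L4 τ X c x.1.1 = S.Lv τ X c x.2 := by
  rw [S.L4_eq_c h0 h1 hx.k3, S.Lv_eq r0 r1 hx.k3.ec, S.Lv_eq r0 r1 hx.ed]
  simp only [fl]
  rw [hx.er, hx.es]

theorem ent_Lr_d {τ X Y c ξ ρ η : ℚ} (hξ0 : ξ ≠ 0) (hξ1 : ξ ≠ 1) (r0 : ρ ≠ 0) (r1 : ρ ≠ 1)
    (h0 : η ≠ 0) (h1 : η ≠ 1) :
    ent (S.wd τ X Y c ξ ρ) (fun x => (S.L4 τ X c x.1.1, S.P (τ + η * X) x.2.1)) ≤
      S.H (τ + η * X) + S.H (τ + η / (η - 1) * c) := by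
  have h2 : ent (S.wd τ X Y c ξ ρ) (fun x => (S.L4 τ X c x.1.1, S.P (τ + η * X) x.2.1)) ≤
      ent (S.wd τ X Y c ξ ρ) (fun x => (S.Lv τ X c x.2, S.P (τ + η * X) x.2.1)) := by
    refine ent_mono (S.isPr_wd _ _ _ _ _ _) ?_
    intro x y hx hy e
    simp only [Prod.mk.injEq] at e ⊢
    rw [S.L4_eq_d hξ0 hξ1 r0 r1 (S.wd_ne_zero hx), S.L4_eq_d hξ0 hξ1 r0 r1 (S.wd_ne_zero hy)]
    exact e
  rw [S.ent_wd_2 τ X Y c ξ ρ (fun x => (S.Lv τ X c x, S.P (τ + η * X) x.1))] at h2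
  exact h2.trans (S.ent_Lr_v h0 h1)

/-- The functional `M = (L, y + X W_xb)`. -/
def M4 (τ X c η : ℚ) (x : (((Ω × Ω) × (Ω × Ω)) × (Ω × Ω)) × (Ω × Ω)) : V × V :=
  (S.L4 τ X c x.1.1, S.P (τ + η * X) x.2.1 + X • S.B x.1.1.2.1)

/-- `W_xb`, `L` and the direction of the first line of `V_d` determine everything. -/
theorem J5_of {τ X Y c ξ ρ : ℚ} (hX : X ≠ 0) (hY : Y ≠ 0) (hc : c ≠ 0) (h0 : ξ ≠ 0)
    (h1 : ξ ≠ 1) (r0 : ρ ≠ 0) (r1 : ρ ≠ 1) (hne : ξ ≠ ρ)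
    {x y : (((Ω × Ω) × (Ω × Ω)) × (Ω × Ω)) × (Ω × Ω)} (hx : S.K4 τ X Y c ξ ρ x)
    (hy : S.K4 τ X Y c ξ ρ y) (e1 : S.B x.1.1.2.1 = S.B y.1.1.2.1)
    (e2 : S.L4 τ X c x.1.1 = S.L4 τ X c y.1.1) (e3 : S.B x.2.1 = S.B y.2.1) :
    S.J5 x = S.J5 y := by
  obtain ⟨f1, f2, f4⟩ := S.J4_of' hX hY hc hx.k3.q4 hy.k3.q4 e1 e2
  -- the copy `V_d`
  have g2 : S.B x.2.2 = S.B y.2.2 := by
    have h := e2
    rw [S.L4_eq_d h0 h1 r0 r1 hx, S.L4_eq_d h0 h1 r0 r1 hy] at h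
    simp only [Lv] at h
    rw [S.P_eq τ hx.p41 hy.p41 e3, e3, add_right_inj] at h
    exact smul_right_injective V hc h
  -- the copy `V_c`
  have k1 : S.B x.1.2.1 = S.B y.1.2.1 := by
    have hne' : τ + ξ * X ≠ τ + ρ * X := by
      intro e
      apply hne
      have : ξ * X = ρ * X := by linarith
      exact mul_right_cancel₀ hX this
    refine S.B_eq hne' ?_ ?_
    · rw [← hx.k3.eq, ← hy.k3.eq]
      exact S.P_eq _ hx.k3.q4.p11 hy.k3.q4.p11 f1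
    · rw [hx.er, hy.er]
      exact S.P_eq _ hx.p41 hy.p41 e3
  have k2 : S.B x.1.2.2 = S.B y.1.2.2 := by
    have h := e2
    rw [S.L4_eq_c h0 h1 hx.k3, S.L4_eq_c h0 h1 hy.k3] at h
    simp only [Lv] at h
    rw [S.P_eq τ hx.k3.p31 hy.k3.p31 k1, k1, add_right_inj] at h
    exact smul_right_injective V hc h
  simp only [J5, J3, J4, J2, Prod.mk.injEq]
  exact ⟨⟨⟨⟨f1, f2⟩, e1, f4⟩, k1, k2⟩, e3, g2⟩

theorem J5_of_BM {τ X Y c ξ ρ η β : ℚ} (hX : X ≠ 0) (hY : Y ≠ 0) (hc : c ≠ 0) (h0 : ξ ≠ 0)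
    (h1 : ξ ≠ 1) (r0 : ρ ≠ 0) (r1 : ρ ≠ 1) (hne : ξ ≠ ρ) (hβ : β ≠ 0)
    {x y : (((Ω × Ω) × (Ω × Ω)) × (Ω × Ω)) × (Ω × Ω)} (hx : S.K4 τ X Y c ξ ρ x)
    (hy : S.K4 τ X Y c ξ ρ y)
    (e : (β • (X • S.B x.2.1), S.M4 τ X c η x) = (β • (X • S.B y.2.1), S.M4 τ X c η y)) :
    S.J5 x = S.J5 y := by
  simp only [Prod.mk.injEq, M4] at e
  obtain ⟨e1, e2, e3⟩ := e
  have f1 : S.B x.2.1 = S.B y.2.1 :=
    smul_right_injective V hX (smul_right_injective V hβ e1)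
  have f2 : S.B x.1.1.2.1 = S.B y.1.1.2.1 := by
    rw [S.P_eq (τ + η * X) hx.p41 hy.p41 f1, add_right_inj] at e3
    exact smul_right_injective V hX e3
  exact S.J5_of hX hY hc h0 h1 r0 r1 hne hx hy f2 e2 f1

theorem J5_det {τ X Y c ξ ρ : ℚ} {x y : (((Ω × Ω) × (Ω × Ω)) × (Ω × Ω)) × (Ω × Ω)}
    (hx : S.K4 τ X Y c ξ ρ x) (hy : S.K4 τ X Y c ξ ρ y) (e : S.J5 x = S.J5 y) :
    S.L4 τ X c x.1.1 = S.L4 τ X c y.1.1 ∧ S.B x.1.1.2.1 = S.B y.1.1.2.1 ∧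
      S.B x.2.1 = S.B y.2.1 := by
  simp only [J5, J3, J4, J2, Prod.mk.injEq] at e
  obtain ⟨⟨⟨⟨e1, e2⟩, e3, e4⟩, e5, e6⟩, e7, e8⟩ := e
  refine ⟨?_, e3, e7⟩
  simp only [L4]
  rw [S.P_eq τ hx.k3.q4.p11 hy.k3.q4.p11 e1, e1, e2]

theorem ent_BM4 {τ X Y c ξ ρ η β : ℚ} (hX : X ≠ 0) (hY : Y ≠ 0) (hc : c ≠ 0) (h0 : ξ ≠ 0)
    (h1 : ξ ≠ 1) (r0 : ρ ≠ 0) (r1 : ρ ≠ 1) (hne : ξ ≠ ρ) (hβ : β ≠ 0) :
    ent (S.wd τ X Y c ξ ρ) (fun x => (β • (X • S.B x.2.1), S.M4 τ X c η x)) =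
      S.hd τ X Y c ξ ρ := by
  rw [← S.ent_wd]
  refine ent_congr (S.isPr_wd _ _ _ _ _ _) ?_ ?_
  · intro x y hx hy e
    exact S.J5_of_BM hX hY hc h0 h1 r0 r1 hne hβ (S.wd_ne_zero hx) (S.wd_ne_zero hy) e
  · intro x y hx hy e
    have kx := S.wd_ne_zero hx
    have ky := S.wd_ne_zero hy
    obtain ⟨e1, e2, e3⟩ := S.J5_det kx ky e
    simp only [Prod.mk.injEq, M4]
    rw [e1, e2, e3, S.P_eq (τ + η * X) kx.p41 ky.p41 e3]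
    exact ⟨rfl, rfl, rfl⟩

/-- `(W_yd, M)` determines `r`. -/
theorem det_r4 {τ X Y c ξ ρ η β : ℚ} (hX : X ≠ 0) (hβ : β ≠ 0) :
    Det (S.wd τ X Y c ξ ρ) (fun x => (β • (X • S.B x.2.1), S.M4 τ X c η x))
      (fun x => S.P (τ + ρ * X) x.2.1) := by
  intro x y hx hy e
  have kx := S.wd_ne_zero hx
  have ky := S.wd_ne_zero hy
  simp only [Prod.mk.injEq] at e
  exact S.P_eq _ kx.p41 ky.p41 (smul_right_injective V hX (smul_right_injective V hβ e.1))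

/-- The slices of the pencil at `M`. -/
theorem ent_slice4 {τ X Y c ξ ρ β t : ℚ} (h0 : ξ ≠ 0) (h1 : ξ ≠ 1) (r0 : ρ ≠ 0) (r1 : ρ ≠ 1)
    (ht : 1 < t) (hη0 : ρ + t * β ≠ 0) (hη1 : ρ + t * β ≠ 1) :
    ent (S.wd τ X Y c ξ ρ) (fun x => (S.P (τ + ρ * X) x.2.1 + t • (β • (X • S.B x.2.1)),
      S.M4 τ X c (ρ + β) x)) ≤
      (S.H (τ + (ρ + t * β) * X) + S.H (τ + (ρ + t * β) / (ρ + t * β - 1) * c)) +
        ent (S.wc τ X Y c ξ) (S.N3 τ X c ξ (ρ - ξ) (t / (t - 1))) - S.sig τ X c := by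
  have hw := S.isPr_wd τ X Y c ξ ρ
  have ht0 : t ≠ 0 := by linarith
  have ht1 : t - 1 ≠ 0 := by
    have : 0 < t - 1 := by linarith
    exact this.ne'
  have b1 : ∀ z : (((Ω × Ω) × (Ω × Ω)) × (Ω × Ω)) × (Ω × Ω),
      S.P (τ + ρ * X) z.2.1 + t • (β • (X • S.B z.2.1)) =
        S.P (τ + (ρ + t * β) * X) z.2.1 := by
    intro z
    have e5 : τ + (ρ + t * β) * X = τ + ρ * X + t * β * X := by ring
    rw [e5, S.P_add (τ + ρ * X)]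
    module
  have b2 : ∀ z, S.K4 τ X Y c ξ ρ z →
      S.P (τ + (ρ + β) * X) z.2.1 + X • S.B z.1.1.2.1 =
        (1 / t) • S.P (τ + (ρ + t * β) * X) z.2.1 +
        ((t - 1) / t) • (S.P (τ + ξ * X) z.1.1.1.1 + ((t / (t - 1)) • (X • S.B z.1.1.2.1) +
          (ρ - ξ) • (X • S.B z.1.2.1))) := by
    intro z hz
    have e5 : τ + (ρ + t * β) * X = τ + ρ * X + t * β * X := by ring
    have e6 : τ + (ρ + β) * X = τ + ρ * X + β * X := by ring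
    have e7 : S.P (τ + ξ * X) z.1.1.1.1 = S.P (τ + ρ * X) z.2.1 +
        ((ξ - ρ) * X) • S.B z.1.2.1 := by
      rw [hz.k3.eq, ← hz.er, ← S.P_add]
      congr 1
      ring
    rw [e5, e6, S.P_add (τ + ρ * X), S.P_add (τ + ρ * X), e7]
    match_scalars <;> field_simp <;> ring
  have hsub := ent_submod' hw
    (A := fun x => (S.L4 τ X c x.1.1, S.P (τ + (ρ + t * β) * X) x.2.1))
    (B := fun x => S.N3 τ X c ξ (ρ - ξ) (t / (t - 1)) x.1)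
    (J := fun x => (S.P (τ + ρ * X) x.2.1 + t • (β • (X • S.B x.2.1)),
      S.M4 τ X c (ρ + β) x))
    (M := fun x => S.L4 τ X c x.1.1) ?_ ?_ ?_
  · rw [S.ent_wd_1 τ X Y c ξ ρ (S.N3 τ X c ξ (ρ - ξ) (t / (t - 1))),
      S.ent_wd_1 τ X Y c ξ ρ (fun x => S.L4 τ X c x.1),
      S.ent_wc_1 τ X Y c ξ (S.L4 τ X c), S.ent_L4] at hsub
    have h3 := S.ent_Lr_d (τ := τ) (X := X) (Y := Y) (c := c) h0 h1 r0 r1 hη0 hη1
    linarith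
  · intro x y hx hy e
    have kx := S.wd_ne_zero hx
    have ky := S.wd_ne_zero hy
    simp only [N3, Prod.mk.injEq] at e
    obtain ⟨⟨e1, e2⟩, _, e4⟩ := e
    simp only [M4, Prod.mk.injEq]
    refine ⟨?_, e1, ?_⟩
    · rw [b1, b1, e2]
    · rw [b2 x kx, b2 y ky, e2, e4]
  · intro x y hx hy e
    exact congrArg Prod.fst e
  · intro x y hx hy e
    exact congrArg Prod.fst e

/-- The plane spanned by the line `ξ` of `V_c` and the line `η` of `V_d`. -/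
theorem ent_plane4 {τ X Y c ξ ρ η : ℚ} (h0 : ξ ≠ 0) (h1 : ξ ≠ 1) (r0 : ρ ≠ 0) (r1 : ρ ≠ 1) :
    ent (S.wd τ X Y c ξ ρ) (fun x => (S.P (τ + ξ * X) x.1.2.1, S.L4 τ X c x.1.1,
      S.P (τ + η * X) x.2.1)) =
      S.pp τ (ρ * X) (ρ / (ρ - 1) * c) (ξ / ρ) (η / ρ) (ρ - 1) := by
  have hr1 : ρ - 1 ≠ 0 := sub_ne_zero.mpr r1
  have e1 : ∀ x, S.wd τ X Y c ξ ρ x ≠ 0 → (S.P (τ + ξ * X) x.1.2.1, S.L4 τ X c x.1.1,
      S.P (τ + η * X) x.2.1) =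
      S.p4 τ (ρ * X) (ρ / (ρ - 1) * c) (ξ / ρ) (η / ρ) (ρ - 1) (x.1.2, x.2) := by
    intro x hx
    have kx := S.wd_ne_zero hx
    have hρ : 1 + (ρ - 1) = ρ := by ring
    rw [S.L4_eq_c h0 h1 kx.k3]
    simp only [p4, D4, Lv, Prod.mk.injEq, hρ]
    refine ⟨?_, ?_, ?_⟩
    · congr 1
      field_simp
    · match_scalars <;> field_simp
    · congr 1
      field_simp
  unfold pp
  rw [← S.ent_wd_23 τ X Y c ξ ρ]
  refine ent_congr (S.isPr_wd _ _ _ _ _ _) ?_ ?_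
  · intro x y hx hy e
    beta_reduce at e ⊢
    rw [← e1 x hx, ← e1 y hy]
    exact e
  · intro x y hx hy e
    beta_reduce at e ⊢
    rw [e1 x hx, e1 y hy]
    exact e

/-- Lower bound for the entropy of `M`. -/
theorem ent_M4_ge {τ X Y c ξ ρ η : ℚ} (hX : X ≠ 0) (hY : Y ≠ 0) (hc : c ≠ 0) (h0 : ξ ≠ 0)
    (h1 : ξ ≠ 1) (r0 : ρ ≠ 0) (r1 : ρ ≠ 1) (hη0 : η ≠ 0) (hη1 : η ≠ 1) :
    S.hq τ X Y - S.G τ (ξ * X) (ξ / (ξ - 1) * c) +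
      S.pp τ (ρ * X) (ρ / (ρ - 1) * c) (ξ / ρ) (η / ρ) (ρ - 1) + S.sig τ X c -
      (S.H (τ + η * X) + S.H (τ + η / (η - 1) * c)) ≤
      ent (S.wd τ X Y c ξ ρ) (S.M4 τ X c η) := by
  have hw := S.isPr_wd τ X Y c ξ ρ
  -- the 4-cycle and `y`
  have s1 := ent_submod' hw (A := fun x => (S.J4 x.1.1, S.P (τ + η * X) x.2.1))
    (B := fun x => S.J4 (x.1.2, x.2)) (J := S.J5)
    (M := fun x => (S.P (τ + ξ * X) x.1.2.1, S.L4 τ X c x.1.1, S.P (τ + η * X) x.2.1)) ?_ ?_ ?_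
  · -- `M` and `(L, y)`
    have s2 := ent_submod' hw (A := S.M4 τ X c η)
      (B := fun x => (S.L4 τ X c x.1.1, S.P (τ + η * X) x.2.1))
      (J := fun x => (S.J4 x.1.1, S.P (τ + η * X) x.2.1))
      (M := fun x => S.L4 τ X c x.1.1) ?_ ?_ ?_
    · rw [S.ent_wd, S.ent_wd_23 τ X Y c ξ ρ S.J4, S.ent_w4, S.ent_plane4 h0 h1 r0 r1] at s1
      rw [S.ent_wd_1 τ X Y c ξ ρ (fun x => S.L4 τ X c x.1),
        S.ent_wc_1 τ X Y c ξ (S.L4 τ X c), S.ent_L4] at s2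
      have h3 := S.ent_Lr_d (τ := τ) (X := X) (Y := Y) (c := c) h0 h1 r0 r1 hη0 hη1
      unfold Sys.hd Sys.hc Sys.hq at s1
      unfold Sys.hq
      linarith
    · intro x y hx hy e
      have kx := S.wd_ne_zero hx
      have ky := S.wd_ne_zero hy
      simp only [M4, Prod.mk.injEq] at e ⊢
      obtain ⟨⟨e1, e2⟩, _, e4⟩ := e
      rw [e4, add_right_inj] at e2
      have f := smul_right_injective V hX e2
      obtain ⟨f1, f2, f4⟩ := S.J4_of' hX hY hc kx.k3.q4 ky.k3.q4 f e1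
      simp only [J4, Prod.mk.injEq]
      exact ⟨⟨⟨f1, f2⟩, f, f4⟩, e4⟩
    · intro x y hx hy e
      exact congrArg Prod.fst e
    · intro x y hx hy e
      exact congrArg Prod.fst e
  · intro x y hx hy e
    simp only [J4, Prod.mk.injEq] at e
    simp only [J5, J3, J4, J2, Prod.mk.injEq]
    tauto
  · intro x y hx hy e
    have kx := S.wd_ne_zero hx
    have ky := S.wd_ne_zero hy
    simp only [J4, Prod.mk.injEq] at e ⊢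
    obtain ⟨⟨⟨e1, e2⟩, e3, e4⟩, e5⟩ := e
    refine ⟨?_, ?_, e5⟩
    · rw [← kx.k3.eq, ← ky.k3.eq]
      exact S.P_eq _ kx.k3.q4.p11 ky.k3.q4.p11 e1
    · simp only [L4]
      rw [S.P_eq τ kx.k3.q4.p11 ky.k3.q4.p11 e1, e1, e2]
  · intro x y hx hy e
    have kx := S.wd_ne_zero hx
    have ky := S.wd_ne_zero hy
    simp only [J4, Prod.mk.injEq] at e ⊢
    obtain ⟨⟨e1, e2⟩, e3, e4⟩ := e
    refine ⟨S.P_eq _ kx.k3.p31 ky.k3.p31 e1, ?_, S.P_eq _ kx.p41 ky.p41 e3⟩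
    rw [S.L4_eq_c h0 h1 kx.k3, S.L4_eq_c h0 h1 ky.k3]
    simp only [Lv]
    rw [S.P_eq τ kx.k3.p31 ky.k3.p31 e1, e1, e2]

end Sys

/-- The inequality for `N₂` and `M`. -/
theorem m4_fam {α : ℝ} {F : Finset ℚ} (hα : 1 < α) (hI : Ineq 0 α F) (hF : ∀ t ∈ F, 1 < t)
    {ξ ρ β : ℚ} (h0 : ξ ≠ 0) (h1 : ξ ≠ 1) (r0 : ρ ≠ 0) (r1 : ρ ≠ 1) (hne : ξ ≠ ρ) (hβ : β ≠ 0)
    (g0 : ρ + β ≠ 0) (g1 : ρ + β ≠ 1)
    (hη0 : ∀ t ∈ F, ρ + t * β ≠ 0) (hη1 : ∀ t ∈ F, ρ + t * β ≠ 1)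
    {I : Type} [Fintype I] {w : I → ℝ} (hw : ∀ i, 0 ≤ w i) (hw1 : ∑ i, w i = 1)
    (τ X Y c : I → ℚ) (hX : ∀ i, X i ≠ 0) (hY : ∀ i, Y i ≠ 0) (hc : ∀ i, c i ≠ 0)
    {s n2 : ℝ}
    (H0 : ∀ i, S.H (τ i + ξ * X i) ≤ s) (H0' : ∀ i, S.H (τ i + ξ / (ξ - 1) * c i) ≤ s)
    (H1 : ∀ i, S.H (τ i + (ρ + β) * X i) ≤ s)
    (H2 : ∀ i, S.H (τ i + (ρ + β) / (ρ + β - 1) * c i) ≤ s)
    (H3 : ∀ i, ∀ t ∈ F, S.H (τ i + (ρ + t * β) * X i) ≤ s)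
    (H4 : ∀ i, ∀ t ∈ F, S.H (τ i + (ρ + t * β) / (ρ + t * β - 1) * c i) ≤ s)
    (hn : ∀ t ∈ F, ∑ i, w i * ent (S.wc (τ i) (X i) (Y i) (c i) ξ)
      (S.N3 (τ i) (X i) (c i) ξ (ρ - ξ) (t / (t - 1))) ≤ n2) :
    (∑ i, w i * S.hd (τ i) (X i) (Y i) (c i) ξ ρ) + (α - 1) *
      ((∑ i, w i * S.hq (τ i) (X i) (Y i)) + (∑ i, w i * S.pp (τ i) (ρ * X i)
        (ρ / (ρ - 1) * c i) (ξ / ρ) ((ρ + β) / ρ) (ρ - 1)) +
        (∑ i, w i * S.sig (τ i) (X i) (c i)) - 4 * s) ≤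
      α * (2 * s + n2 - ∑ i, w i * S.sig (τ i) (X i) (c i)) := by
  set fd := ∑ i, w i * S.hd (τ i) (X i) (Y i) (c i) ξ ρ with hfd
  set fq := ∑ i, w i * S.hq (τ i) (X i) (Y i) with hfq
  set P := ∑ i, w i * S.pp (τ i) (ρ * X i)
        (ρ / (ρ - 1) * c i) (ξ / ρ) ((ρ + β) / ρ) (ρ - 1) with hP
  set sg := ∑ i, w i * S.sig (τ i) (X i) (c i) with hsg
  have hα1 : 0 < α - 1 := by linarith
  have hsum : ∀ a : ℝ, ∑ i, w i * a = a := fun a => by rw [← sum_mul, hw1, one_mul]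
  set m := ∑ i, w i * ent (S.wd (τ i) (X i) (Y i) (c i) ξ ρ) (S.M4 (τ i) (X i) (c i) (ρ + β))
    with hm
  have hm2 : fq + P + sg - 4 * s ≤ m := by
    rw [hfq, hsg, hP, hm, ← hsum (4 * s), ← sum_add_distrib, ← sum_add_distrib,
      ← sum_sub_distrib]
    refine sum_le_sum fun i _ => ?_
    rw [← mul_add, ← mul_add, ← mul_sub]
    refine mul_le_mul_of_nonneg_left ?_ (hw i)
    have e1 := S.ent_M4_ge (τ := τ i) (ρ := ρ) (hX i) (hY i) (hc i) h0 h1 r0 r1 g0 g1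
    have e2 := S.G_le' (τ i) (ξ * X i) (ξ / (ξ - 1) * c i)
    linarith [H0 i, H0' i, H1 i, H2 i]
  have hpen := hI.cavg (I := I) (w := w) le_rfl hw
    (p := fun i => S.wd (τ i) (X i) (Y i) (c i) ξ ρ) (fun i => S.isPr_wd _ _ _ _ _ _)
    (fun i x => S.P (τ i + ρ * X i) x.2.1) (fun i x => β • (X i • S.B x.2.1))
    (fun i => S.M4 (τ i) (X i) (c i) (ρ + β)) (s := 2 * s + n2 - sg - m)
    (fun i => S.det_r4 (hX i) hβ) ?_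
  · rw [zero_mul, zero_add] at hpen
    have e1 : ∑ i, w i * cent (S.wd (τ i) (X i) (Y i) (c i) ξ ρ)
        (fun x => β • (X i • S.B x.2.1)) (S.M4 (τ i) (X i) (c i) (ρ + β)) = fd - m := by
      rw [hm, hfd, ← sum_sub_distrib]
      refine sum_congr rfl fun i _ => ?_
      unfold cent
      rw [S.ent_BM4 (hX i) (hY i) (hc i) h0 h1 r0 r1 hne hβ]
      ring
    rw [e1] at hpen
    have h5 := mul_le_mul_of_nonneg_left hm2 hα1.le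
    nlinarith
  · intro t ht
    have h4 : ∀ i, w i * cent (S.wd (τ i) (X i) (Y i) (c i) ξ ρ)
        (fun x => S.P (τ i + ρ * X i) x.2.1 + t • (β • (X i • S.B x.2.1)))
        (S.M4 (τ i) (X i) (c i) (ρ + β)) ≤
          w i * (2 * s) + w i * ent (S.wc (τ i) (X i) (Y i) (c i) ξ)
            (S.N3 (τ i) (X i) (c i) ξ (ρ - ξ) (t / (t - 1))) - w i * S.sig (τ i) (X i) (c i) -
          w i * ent (S.wd (τ i) (X i) (Y i) (c i) ξ ρ) (S.M4 (τ i) (X i) (c i) (ρ + β)) := by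
      intro i
      rw [← mul_add, ← mul_sub, ← mul_sub]
      refine mul_le_mul_of_nonneg_left ?_ (hw i)
      have := S.ent_slice4 (τ := τ i) (X := X i) (Y := Y i) (c := c i) h0 h1 r0 r1
        (hF t ht) (hη0 t ht) (hη1 t ht)
      unfold cent
      linarith [H3 i t ht, H4 i t ht]
    refine (sum_le_sum fun i _ => h4 i).trans ?_
    rw [sum_sub_distrib, sum_sub_distrib, sum_add_distrib, hsum, ← hm, ← hsg]
    linarith [hn t ht]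

end Pool.Agent.MPac5134.SD
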