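import Pool.Agent.Lib.MP_ac5134_an.SD.Q4Conf

/-!
# The 4-cycle with a general position of `q`, and the planes of the 4-cycle
-/

open RFold Finset

namespace Pool.Agent.MPac5134.SD

variable {V Ω : Type} [AddCommGroup V] [Module ℚ V] [Fintype Ω] (S : Sys V Ω)

namespace Sys

/-- The functional `D` on the glue line `(x, y)` of the 4-cycle. -/
def D4 (τ X Y e : ℚ) (x : (Ω × Ω) × (Ω × Ω)) : V :=
  S.P τ x.1.1 + (X / (1 + e)) • S.B x.1.1 + (e * Y / (1 + e)) • S.B x.1.2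

/-- The plane spanned by a point `u` of the line `xa`, the functional `D` and a point of the line
`xb`. -/
def p4 (τ X Y θ θ' e : ℚ) (x : (Ω × Ω) × (Ω × Ω)) : V × V × V :=
  (S.P (τ + θ * X) x.1.1, S.D4 τ X Y e x, S.P (τ + θ' * X) x.2.1)

/-- The entropy of the plane. -/
noncomputable def pp (τ X Y θ θ' e : ℚ) : ℝ := ent (S.w4 τ X Y) (S.p4 τ X Y θ θ' e)

theorem ent_D4 (τ X Y e : ℚ) :
    ent (S.w4 τ X Y) (S.D4 τ X Y e) = S.sig τ (X / (1 + e)) (e * Y / (1 + e)) :=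
  S.ent_w4_1 τ X Y (fun x => S.P τ x.1 + (X / (1 + e)) • S.B x.1 +
    (e * Y / (1 + e)) • S.B x.2)

/-- `D` in terms of the vertices `x` and `y`. -/
theorem D4_eq {τ X Y e : ℚ} (he : 0 < e) {x : (Ω × Ω) × (Ω × Ω)} (hx : S.Q4 τ X Y x) :
    S.D4 τ X Y e x = (1 / (1 + e)) • S.P (τ + X) x.1.1 + (e / (1 + e)) • S.P (τ + Y) x.1.2 := by
  have h1 : 1 + e ≠ 0 := by positivity
  rw [D4, S.P_add, S.P_add, ← hx.ea]
  match_scalars <;> field_simp

theorem D4_eq' {τ X Y e : ℚ} (he : 0 < e) {x : (Ω × Ω) × (Ω × Ω)} (hx : S.Q4 τ X Y x) :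
    S.D4 τ X Y e x = S.P τ x.2.1 + (X / (1 + e)) • S.B x.2.1 +
      (e * Y / (1 + e)) • S.B x.2.2 := by
  have h1 : 1 + e ≠ 0 := by positivity
  rw [S.D4_eq he hx, hx.ex, hx.ey, S.P_add, S.P_add, ← hx.eb]
  match_scalars <;> field_simp

theorem alg_line (a b₁ b₂ : V) {θ e X Y : ℚ} (hθ : 1 < θ) (he : 0 < e) :
    a + (X / (1 + e)) • b₁ + (e * Y / (1 + e)) • b₂ =
      (1 / (θ * (1 + e))) • (a + (θ * X) • b₁) +
      ((θ * (1 + e) - 1) / (θ * (1 + e))) •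
        (a + (e * θ / (θ * (1 + e) - 1) * Y) • b₂) := by
  have h1 : 1 + e ≠ 0 := by positivity
  have h2 : θ ≠ 0 := by linarith
  have h3 : 0 < θ * (1 + e) - 1 := by nlinarith
  have h4 : θ * (1 + e) - 1 ≠ 0 := h3.ne'
  have h5 : (1 + e) * θ - 1 ≠ 0 := by
    rw [mul_comm]
    exact h4
  match_scalars
  · field_simp
    ring
  · field_simp
  · field_simp

/-- The upper bound for the entropy of a plane. -/
theorem pp_le {τ X Y θ θ' e : ℚ} (hθ : 1 < θ) (hθ' : 1 < θ') (he : 0 < e) :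
    S.pp τ X Y θ θ' e ≤ S.H (τ + θ * X) + S.H (τ + e * θ / (θ * (1 + e) - 1) * Y) +
      S.H (τ + θ' * X) + S.H (τ + e * θ' / (θ' * (1 + e) - 1) * Y) -
      S.sig τ (X / (1 + e)) (e * Y / (1 + e)) := by
  have hw := S.isPr_w4 τ X Y
  let ga : Ω × Ω → V × V := fun x =>
    (S.P (τ + θ * X) x.1, S.P (τ + e * θ / (θ * (1 + e) - 1) * Y) x.2)
  let gb : Ω × Ω → V × V := fun x =>
    (S.P (τ + θ' * X) x.1, S.P (τ + e * θ' / (θ' * (1 + e) - 1) * Y) x.2)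
  have hDa : ∀ z, S.Q4 τ X Y z → S.D4 τ X Y e z = (1 / (θ * (1 + e))) • (ga z.1).1 +
      ((θ * (1 + e) - 1) / (θ * (1 + e))) • (ga z.1).2 := by
    intro z hz
    simp only [ga, D4]
    rw [S.P_add τ, S.P_add τ, ← hz.ea]
    exact alg_line _ _ _ hθ he
  have hDb : ∀ z, S.Q4 τ X Y z → S.D4 τ X Y e z = (1 / (θ' * (1 + e))) • (gb z.2).1 +
      ((θ' * (1 + e) - 1) / (θ' * (1 + e))) • (gb z.2).2 := by
    intro z hz
    rw [S.D4_eq' he hz]
    simp only [gb]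
    rw [S.P_add τ, S.P_add τ, ← hz.eb]
    exact alg_line _ _ _ hθ' he
  have hsub := ent_submod' hw (A := fun x => ga x.1) (B := fun x => gb x.2)
    (J := S.p4 τ X Y θ θ' e) (M := S.D4 τ X Y e) ?_ ?_ ?_
  · rw [S.ent_D4] at hsub
    have h2 : ent (S.w4 τ X Y) (fun x => ga x.1) ≤
        S.H (τ + θ * X) + S.H (τ + e * θ / (θ * (1 + e) - 1) * Y) := by
      rw [S.ent_w4_1 τ X Y ga]
      exact S.G_le' τ (θ * X) (e * θ / (θ * (1 + e) - 1) * Y)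
    have h3 : ent (S.w4 τ X Y) (fun x => gb x.2) ≤
        S.H (τ + θ' * X) + S.H (τ + e * θ' / (θ' * (1 + e) - 1) * Y) := by
      rw [S.ent_w4_2 τ X Y gb]
      exact S.G_le' τ (θ' * X) (e * θ' / (θ' * (1 + e) - 1) * Y)
    unfold pp
    linarith
  · intro x y hx hy e0
    have qx := S.w4_ne_zero hx
    have qy := S.w4_ne_zero hy
    have e1 : ga x.1 = ga y.1 := congrArg Prod.fst e0
    have e2 : gb x.2 = gb y.2 := congrArg Prod.snd e0
    have e3 : S.P (τ + θ * X) x.1.1 = S.P (τ + θ * X) y.1.1 := congrArg Prod.fst e1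
    have e4 : S.P (τ + θ' * X) x.2.1 = S.P (τ + θ' * X) y.2.1 := congrArg Prod.fst e2
    simp only [p4, Prod.mk.injEq]
    refine ⟨e3, ?_, e4⟩
    rw [hDa x qx, hDa y qy, e1]
  · intro x y hx hy e0
    have e1 : ga x.1 = ga y.1 := e0
    rw [hDa x (S.w4_ne_zero hx), hDa y (S.w4_ne_zero hy), e1]
  · intro x y hx hy e0
    have e1 : gb x.2 = gb y.2 := e0
    rw [hDb x (S.w4_ne_zero hx), hDb y (S.w4_ne_zero hy), e1]

theorem pp_nonneg (τ X Y θ θ' e : ℚ) : 0 ≤ S.pp τ X Y θ θ' e :=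
  ent_nonneg (S.isPr_w4 τ X Y) _

theorem pp_le_h (τ X Y θ θ' e : ℚ) : S.pp τ X Y θ θ' e ≤ 4 * S.h := by
  have h1 : S.pp τ X Y θ θ' e ≤ ent (S.w4 τ X Y) S.J4 := by
    refine ent_mono (S.isPr_w4 τ X Y) ?_
    intro x y hx hy e0
    have qx := S.w4_ne_zero hx
    have qy := S.w4_ne_zero hy
    simp only [J4, Prod.mk.injEq] at e0
    obtain ⟨⟨e1, e2⟩, e3, e4⟩ := e0
    simp only [p4, D4, Prod.mk.injEq]
    rw [S.P_eq (τ + θ * X) qx.p11 qy.p11 e1, S.P_eq τ qx.p11 qy.p11 e1,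
      S.P_eq (τ + θ' * X) qx.p21 qy.p21 e3, e1, e2]
    exact ⟨rfl, rfl, rfl⟩
  rw [S.ent_w4] at h1
  have h2 : 0 ≤ S.H τ := ent_nonneg S.hp _
  have h3 := S.G_nonneg τ X Y
  unfold hq at h1
  linarith

/-- The functional `N = (L, q + u X W_xb)`, `q` at the height `τ + ξ X`. -/
def Nx (τ X c ξ u : ℚ) (x : (Ω × Ω) × (Ω × Ω)) : V × V :=
  (S.L4 τ X c x, S.P (τ + ξ * X) x.1.1 + u • (X • S.B x.2.1))

/-- `(W_xa, N)` determines the 4-cycle. -/
theorem ent_BNx {τ X Y c ξ u : ℚ} (hX : X ≠ 0) (hY : Y ≠ 0) (hc : c ≠ 0) (hu : u ≠ 0) :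
    ent (S.w4 τ X Y) (fun x => (X • S.B x.1.1, S.Nx τ X c ξ u x)) = S.hq τ X Y := by
  rw [← S.ent_w4]
  refine ent_congr (S.isPr_w4 _ _ _) ?_ ?_
  · intro x y hx hy e
    have qx := S.w4_ne_zero hx
    have qy := S.w4_ne_zero hy
    simp only [Prod.mk.injEq, Nx, L4] at e
    obtain ⟨e1, e2, e3⟩ := e
    have f1 : S.B x.1.1 = S.B y.1.1 := smul_right_injective V hX e1
    have fa : S.P τ x.1.1 = S.P τ y.1.1 := S.P_eq _ qx.p11 qy.p11 f1
    have f2 : S.B x.1.2 = S.B y.1.2 := by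
      rw [fa, f1, add_right_inj] at e2
      exact smul_right_injective V hc e2
    have f3 : S.B x.2.1 = S.B y.2.1 := by
      rw [S.P_eq (τ + ξ * X) qx.p11 qy.p11 f1, add_right_inj] at e3
      exact smul_right_injective V hX (smul_right_injective V hu e3)
    exact S.J4_of hY qx qy f1 f2 f3
  · intro x y hx hy e
    have qx := S.w4_ne_zero hx
    have qy := S.w4_ne_zero hy
    simp only [J4, Prod.mk.injEq] at e
    obtain ⟨⟨e1, e2⟩, e3, e4⟩ := e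
    simp only [Prod.mk.injEq, Nx, L4]
    rw [e3, S.P_eq τ qx.p11 qy.p11 e1, S.P_eq (τ + ξ * X) qx.p11 qy.p11 e1, e1, e2]
    exact ⟨rfl, rfl, rfl⟩

/-- position of the point of the plane on the line `xb` -/
def rx (θ ξ u : ℚ) : ℚ := 1 + u * (θ - 1) / (θ - ξ)

theorem rx_gt {θ ξ u : ℚ} (hθ : 1 < θ) (hξ : ξ < θ) (hu : 0 < u) : 1 < rx θ ξ u := by
  have h1 : 0 < θ - 1 := by linarith
  have h2 : 0 < θ - ξ := by linarith
  have : 0 < u * (θ - 1) / (θ - ξ) := by positivity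
  unfold rx
  linarith

/-- The planes through `N`. -/
theorem ent_planeN {τ X Y k ξ u θ : ℚ} (hθ : 1 < θ) (hξ : ξ < θ) (hk : θ / (θ - 1) < k) :
    ent (S.w4 τ X Y) (fun x => (S.P τ x.1.1 + θ • (X • S.B x.1.1), S.Nx τ X (Y / k) ξ u x)) ≤
      S.pp τ X Y θ (rx θ ξ u) (ee k θ) := by
  have h1' : 0 < θ - 1 := by linarith
  have hθ1 : θ - 1 ≠ 0 := h1'.ne'
  have hθξ : θ - ξ ≠ 0 := by
    have : 0 < θ - ξ := by linarith
    exact this.ne'
  have hk0 : 0 < k := lt_trans (by positivity) hk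
  have h2 : θ < (θ - 1) * k := by
    rw [div_lt_iff₀ h1'] at hk
    linarith
  have h3 : (θ - 1) * k - θ ≠ 0 := by
    have : 0 < (θ - 1) * k - θ := by linarith
    exact this.ne'
  have he := ee_pos hθ hk
  have hek : ee k θ * ((θ - 1) * k - θ) = θ - 1 := by
    unfold ee
    field_simp
  set e := ee k θ with hedef
  have h4 : 1 + e ≠ 0 := by positivity
  have h5 : e ≠ 0 := he.ne'
  have hk1 : k ≠ 0 := hk0.ne'
  refine ent_mono (S.isPr_w4 τ X Y) ?_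
  intro x y hx hy e0
  have qx := S.w4_ne_zero hx
  have qy := S.w4_ne_zero hy
  simp only [p4, Prod.mk.injEq] at e0
  obtain ⟨e1, e2, e3⟩ := e0
  have r1 : ∀ z : (Ω × Ω) × (Ω × Ω), S.P τ z.1.1 + θ • (X • S.B z.1.1) =
      S.P (τ + θ * X) z.1.1 := by
    intro z
    rw [S.P_add, smul_smul]
  have r2 : ∀ z : (Ω × Ω) × (Ω × Ω), S.L4 τ X (Y / k) z =
      (1 - (1 + e) / (e * k)) • S.P (τ + θ * X) z.1.1 +
        ((1 + e) / (e * k)) • S.D4 τ X Y e z := by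
    intro z
    rw [L4, D4, S.P_add]
    match_scalars
    · field_simp
      ring
    · field_simp
      linear_combination (-X) * hek
    · field_simp
  have r3 : ∀ z, S.Q4 τ X Y z → S.P (τ + ξ * X) z.1.1 + u • (X • S.B z.2.1) =
      ((ξ - 1) / (θ - 1)) • S.P (τ + θ * X) z.1.1 +
        ((θ - ξ) / (θ - 1)) • S.P (τ + rx θ ξ u * X) z.2.1 := by
    intro z hz
    have hb : S.P (τ + rx θ ξ u * X) z.2.1 = S.P (τ + X) z.1.1 +
        ((rx θ ξ u - 1) * X) • S.B z.2.1 := by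
      rw [hz.ex, ← S.P_add]
      congr 1
      ring
    rw [hb, S.P_add τ, S.P_add τ (θ * X), S.P_add τ X]
    have hr : rx θ ξ u - 1 = u * (θ - 1) / (θ - ξ) := by unfold rx; ring
    rw [hr]
    match_scalars
    · field_simp
      ring
    · field_simp
      ring
    · field_simp
  simp only [Nx, Prod.mk.injEq]
  rw [r1, r1, r2, r2, r3 x qx, r3 y qy, e1, e2, e3]
  exact ⟨rfl, rfl, rfl⟩

end Sys

/-- The upper bound for `N` in terms of the planes. -/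
theorem nx_fam {α : ℝ} {F : Finset ℚ} (hα : 1 < α) (hI : Ineq 0 α F)
    {ξ k : ℚ} (hF : ∀ θ ∈ F, 1 < θ) (hξ : ∀ θ ∈ F, ξ < θ) (hk0 : 0 < k)
    (hk : ∀ θ ∈ F, θ / (θ - 1) < k)
    {I : Type} [Fintype I] {w : I → ℝ} (hw : ∀ i, 0 ≤ w i)
    (τ X Y : I → ℚ) (hX : ∀ i, X i ≠ 0) (hY : ∀ i, Y i ≠ 0) {P : ℝ} {u : ℚ} (hu0 : 0 < u)
    (hP : ∀ θ ∈ F, ∑ i, w i * S.pp (τ i) (X i) (Y i) θ (Sys.rx θ ξ u) (ee k θ) ≤ P) :
    ∑ i, w i * ent (S.w4 (τ i) (X i) (Y i)) (S.Nx (τ i) (X i) (Y i / k) ξ u) ≤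
      (α * P - ∑ i, w i * S.hq (τ i) (X i) (Y i)) / (α - 1) := by
  set fq := ∑ i, w i * S.hq (τ i) (X i) (Y i) with hfq
  have hα1 : 0 < α - 1 := by linarith
  have hc : ∀ i, Y i / k ≠ 0 := fun i => div_ne_zero (hY i) hk0.ne'
  set n := ∑ i, w i * ent (S.w4 (τ i) (X i) (Y i)) (S.Nx (τ i) (X i) (Y i / k) ξ u) with hn
  have hpen := hI.cavg (I := I) (w := w) le_rfl hw
    (p := fun i => S.w4 (τ i) (X i) (Y i)) (fun i => S.isPr_w4 _ _ _)
    (fun i x => S.P (τ i) x.1.1) (fun i x => X i • S.B x.1.1)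
    (fun i => S.Nx (τ i) (X i) (Y i / k) ξ u) (s := P - n) ?_ ?_
  · rw [zero_mul, zero_add] at hpen
    have e1 : ∑ i, w i * cent (S.w4 (τ i) (X i) (Y i)) (fun x => X i • S.B x.1.1)
        (S.Nx (τ i) (X i) (Y i / k) ξ u) = fq - n := by
      rw [hn, hfq, ← sum_sub_distrib]
      refine sum_congr rfl fun i _ => ?_
      unfold cent
      rw [S.ent_BNx (hX i) (hY i) (hc i) hu0.ne']
      ring
    rw [e1] at hpen
    rw [le_div_iff₀ hα1]
    nlinarith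
  · intro i x y hx hy e
    have qx := S.w4_ne_zero hx
    have qy := S.w4_ne_zero hy
    simp only [Prod.mk.injEq] at e
    exact S.P_eq _ qx.p11 qy.p11 (smul_right_injective V (hX i) e.1)
  · intro θ hθ
    have h4 : ∀ i, w i * cent (S.w4 (τ i) (X i) (Y i))
        (fun x => S.P (τ i) x.1.1 + θ • (X i • S.B x.1.1))
        (S.Nx (τ i) (X i) (Y i / k) ξ u) ≤
          w i * S.pp (τ i) (X i) (Y i) θ (Sys.rx θ ξ u) (ee k θ) -
          w i * ent (S.w4 (τ i) (X i) (Y i)) (S.Nx (τ i) (X i) (Y i / k) ξ u) := by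
      intro i
      rw [← mul_sub]
      refine mul_le_mul_of_nonneg_left ?_ (hw i)
      have := S.ent_planeN (τ := τ i) (X := X i) (Y := Y i) (u := u) (hF θ hθ) (hξ θ hθ)
        (hk θ hθ)
      unfold cent
      linarith
    refine (sum_le_sum fun i _ => h4 i).trans ?_
    rw [sum_sub_distrib, ← hn]
    linarith [hP θ hθ]

end Pool.Agent.MPac5134.SD
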