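import Pool.Agent.Lib.MP_ac5134_an.SD.Sys

/-!
# Change of the slopes
-/

open RFold Finset

namespace Pool.Agent.MPac5134.SD

/-- change of the slopes by an affine map -/
theorem Ineq.affine {c : ℝ} {F : Finset ℚ} (h : Ineq 0 c F) {u v : ℚ} (hu : u ≠ 0) :
    Ineq 0 c (F.image fun t => u * t + v) := by
  classical
  intro V _ _ Ω _ p A B s hp hdet hs
  have hBA : Det p (fun ω => u • B ω) (fun ω => A ω + v • B ω) := by
    intro ω ω' hω hω' e
    have e1 : B ω = B ω' := smul_right_injective V hu e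
    simp only
    rw [hdet ω ω' hω hω' e1, e1]
  have h1 := h V Ω p (fun ω => A ω + v • B ω) (fun ω => u • B ω) s hp hBA ?_
  · have h2 : ent p B ≤ ent p (fun ω => u • B ω) := by
      refine ent_mono hp ?_
      intro ω ω' _ _ e
      exact smul_right_injective V hu e
    linarith
  · intro t ht
    have h3 := hs (u * t + v) (mem_image_of_mem _ ht)
    refine le_trans (le_of_eq ?_) h3
    congr 1
    funext ω
    module

/-- wlog all slopes are larger than one -/
theorem Ineq.exists_gt {c : ℝ} {F : Finset ℚ} (h : Ineq 0 c F) :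
    ∃ F' : Finset ℚ, (∀ t ∈ F', 1 < t) ∧ Ineq 0 c F' := by
  classical
  obtain ⟨m, hm⟩ : ∃ m : ℚ, ∀ t ∈ F, m ≤ t := by
    rcases F.eq_empty_or_nonempty with rfl | hne
    · exact ⟨0, fun t ht => absurd ht (notMem_empty t)⟩
    · exact ⟨F.min' hne, fun t ht => F.min'_le t ht⟩
  refine ⟨F.image fun t => 1 * t + (2 - m), ?_, h.affine one_ne_zero⟩
  intro t ht
  obtain ⟨r, hr, rfl⟩ := mem_image.mp ht
  have := hm r hr
  linarith

/-- translates of the slopes -/
theorem Ineq.image_add {c : ℝ} {F : Finset ℚ} (h : Ineq 0 c F) (v : ℚ) :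
    Ineq 0 c (F.image fun t => 1 * t + v) := h.affine one_ne_zero

end Pool.Agent.MPac5134.SD
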