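import Pool.Agent.Lib.MP_ac5134_an.SD.LQ
import Pool.Agent.Lib.MP_ac5134_an.SD.Slopes

/-!
# The shapes

A shape `(θ, θ', e)` describes a plane of the 4-cycle.  For every shape `s` a chain of inequalities
uses the planes of the shapes `nxt s`; the shapes of the levels `lev j` form a finite tree.
-/

open Finset

namespace Pool.Agent.MPac5134.SD

/-- shapes -/
abbrev Shape : Type := ℚ × ℚ × ℚ

namespace Shape

/-- position of `q` -/
def xi (s : Shape) : ℚ := s.1 * (1 + s.2.2)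

/-- position of `r` -/
def rho (s : Shape) : ℚ := 1 + s.2.2

/-- `y` is at the position `rho + bet` -/
def bet (s : Shape) : ℚ := (s.2.1 - 1) * (1 + s.2.2)

/-- the admissible shapes -/
structure Ok (s : Shape) : Prop where
  h1 : 1 < s.1
  h2 : 1 < s.2.1
  h3 : 0 < s.2.2

theorem Ok.xi_gt {s : Shape} (h : s.Ok) : s.rho < s.xi := by
  have h1 := h.h1
  have h3 := h.h3
  unfold xi rho
  nlinarith

theorem Ok.rho_gt {s : Shape} (h : s.Ok) : 1 < s.rho := by
  have h3 := h.h3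
  unfold rho
  linarith

theorem Ok.bet_pos {s : Shape} (h : s.Ok) : 0 < s.bet := by
  have h2 := h.h2
  have h3 := h.h3
  unfold bet
  have : 0 < s.2.1 - 1 := by linarith
  positivity

variable (F : Finset ℚ)

/-- slopes for the pencil at `N` -/
def FN (s : Shape) : Finset ℚ := F.image fun t => 1 * t + s.xi

/-- slopes for the pencil at `N₂` -/
def FK (s : Shape) : Finset ℚ := F.image fun t => 1 * t + (s.xi - s.rho) / (s.rho - 1)

/-- the parameter of `N` -/
def uu (t t' : ℚ) : ℚ := t * (t' / (t' - 1))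

/-- the shapes of the planes used for `s` -/
def nxt (s : Shape) : Finset Shape :=
  ((s.FN F) ×ˢ (s.FK F) ×ˢ F).image fun p =>
    (p.1, Sys.rx p.1 s.xi (uu p.2.1 p.2.2), ee 2 p.1)

/-- the levels of the tree -/
def lev : ℕ → Finset Shape
  | 0 => {(2, 2, 1)}
  | j + 1 => (lev j).biUnion (nxt F)

variable {F}

theorem FN_gt (hF : ∀ t ∈ F, 1 < t) {s : Shape} (hs : s.Ok) {θ : ℚ} (h : θ ∈ s.FN F) :
    s.xi < θ ∧ 2 < θ := by
  obtain ⟨t, ht, rfl⟩ := mem_image.mp h
  have h1 := hF t ht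
  have h2 := hs.xi_gt
  have h3 := hs.rho_gt
  constructor <;> linarith

theorem FK_gt (hF : ∀ t ∈ F, 1 < t) {s : Shape} (hs : s.Ok) {t : ℚ} (h : t ∈ s.FK F) :
    1 < t ∧ (s.xi - s.rho) / (s.rho - 1) < t - 1 := by
  obtain ⟨r, hr, rfl⟩ := mem_image.mp h
  have h1 := hF r hr
  have h2 := hs.xi_gt
  have h3 := hs.rho_gt
  have h4 : 0 < (s.xi - s.rho) / (s.rho - 1) := div_pos (by linarith) (by linarith)
  constructor <;> linarith

/-- the position of the auxiliary points on `V_c` -/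
theorem pos_c (hF : ∀ t ∈ F, 1 < t) {s : Shape} (hs : s.Ok) {t : ℚ} (h : t ∈ s.FK F) :
    1 < s.xi + (s.rho - s.xi) * (t / (t - 1)) := by
  obtain ⟨h1, h2⟩ := FK_gt hF hs h
  have h3 := hs.rho_gt
  have h4 : 0 < t - 1 := by linarith
  have h5 : 0 < s.rho - 1 := by linarith
  rw [div_lt_iff₀ h5] at h2
  have h6 : s.xi + (s.rho - s.xi) * (t / (t - 1)) = s.rho - (s.xi - s.rho) / (t - 1) := by
    have h7 : t - 1 ≠ 0 := h4.ne'
    field_simp
    ring
  rw [h6]
  have h8 : (s.xi - s.rho) / (t - 1) < s.rho - 1 := by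
    rw [div_lt_iff₀ h4]
    linarith
  linarith

theorem uu_pos {t t' : ℚ} (h : 1 < t) (h' : 1 < t') : 0 < uu t t' := by
  have : 0 < t' - 1 := by linarith
  unfold uu
  positivity

theorem two_gt {θ : ℚ} (h : 2 < θ) : θ / (θ - 1) < 2 := by
  rw [div_lt_iff₀ (by linarith)]
  linarith

theorem nxt_ok (hF : ∀ t ∈ F, 1 < t) {s s' : Shape} (hs : s.Ok) (h : s' ∈ s.nxt F) : s'.Ok := by
  obtain ⟨⟨θ, t, t'⟩, hp, rfl⟩ := mem_image.mp h
  obtain ⟨hθ, hp⟩ := mem_product.mp hp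
  obtain ⟨ht, ht'⟩ := mem_product.mp hp
  simp only at hθ ht ht'
  obtain ⟨h1, h2⟩ := FN_gt hF hs hθ
  have h3 := (FK_gt hF hs ht).1
  have h4 := hF t' ht'
  exact ⟨by simp only; linarith, Sys.rx_gt (by linarith) h1 (uu_pos h3 h4),
    ee_pos (by linarith) (two_gt h2)⟩

theorem lev_ok (hF : ∀ t ∈ F, 1 < t) : ∀ {j : ℕ} {s : Shape}, s ∈ lev F j → s.Ok
  | 0, s, h => by
    rw [lev, mem_singleton] at h
    rw [h]
    exact ⟨by norm_num, by norm_num, by norm_num⟩
  | j + 1, s, h => by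
    rw [lev, mem_biUnion] at h
    obtain ⟨s0, h0, h⟩ := h
    exact nxt_ok hF (lev_ok hF h0) h

theorem mem_lev_succ {j : ℕ} {s s' : Shape} (hs : s ∈ lev F j) (h : s' ∈ s.nxt F) :
    s' ∈ lev F (j + 1) := by
  rw [lev, mem_biUnion]
  exact ⟨s, hs, h⟩

/-- The ladder: some shape of the first `n` levels is almost as large as its successors. -/
theorem ladder {P : Shape → ℝ} (n : ℕ) {C ε : ℝ} (hC : C ≤ n * ε) (hP0 : ∀ s, 0 ≤ P s)
    (hP : ∀ s, s ∈ lev F n → P s ≤ C) (hn : 0 < n) :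
    ∃ j < n, ∃ s ∈ lev F j, ∀ s' ∈ s.nxt F, P s' ≤ P s + ε := by
  by_contra hcon
  push Not at hcon
  have key : ∀ j : ℕ, j ≤ n → ∃ s ∈ lev F j, j * ε ≤ P s ∧ (0 < j → j * ε < P s) := by
    intro j
    induction j with
    | zero =>
      intro _
      refine ⟨(2, 2, 1), by simp [lev], ?_, fun h => absurd h (lt_irrefl _)⟩
      simpa using hP0 _
    | succ j ih =>
      intro hj
      obtain ⟨s, hs, h1, -⟩ := ih (by omega)
      obtain ⟨s', hs', h2⟩ := hcon j (by omega) s hs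
      have h3 : ((j + 1 : ℕ) : ℝ) * ε < P s' := by
        push_cast
        linarith
      exact ⟨s', mem_lev_succ hs hs', h3.le, fun _ => h3⟩
  obtain ⟨s, hs, _, h2⟩ := key n le_rfl
  have := h2 hn
  have := hP s hs
  linarith

end Shape

end Pool.Agent.MPac5134.SD
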