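import Pool.Agent.Lib.MP_ac5134_an.SD.Step
import Pool.Agent.Lib.MP_ac5134_an.SD.Fix

/-!
# The sums-differences theorem with exponent `1.66959`
-/

open RFold Finset

namespace Pool.Agent.MPac5134.SD

theorem main_ineq : ∃ F : Finset ℚ, Ineq 0 (166959 / 100000) F :=
  exists_F_of_step fun _ h1 h2 _ hI _ hε => step h1 h2 hI hε

end Pool.Agent.MPac5134.SD
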