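import Pool.Agent.Lib.MP_ac5134_an.SD.TubC

/-!
# SD-Mink: Kakeya sets

PROOF.  Let `N = d / δ` (`N ≥ 1`).  Index set: the `z : Fin d → ℤ` with `∑ (z k / N)^2 ≤ 1` (finite: a subset of a `Fintype.piFinset`
of intervals); it contains all `z` with `|z k| ≤ ⌊N/√d⌋`, so it has at least `(2⌊N/√d⌋+1)^d ≥ (N/√d)^d` elements.
Foot `z / N`, `cell N = z` (one cap per cell, `K = 1`).  The frame: `Orthonormal.exists_orthonormalBasis_extension_of_card_eq`
with the unit vector `v = |normalVec ω|⁻¹ • normalVec ω` at the index `Fin.last d` (`exists_cap`).  The set `E` contains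
`x + t v`, `t ∈ [0,1]`; centre `c = N² (x + v/2)`.  If `y ∈ tube N θ c` then `N⁻² y` is at distance `≤ √d/(2N) < δ` of the point
`x + (1/2 + ⟪v, y - c⟫ N⁻²) v` of `E` (expand `y - c` in the frame).  So `⋃ T_i ⊆ N² • thickening δ E`,
`|⋃ T_i| ≤ N^(2d+2) |thickening δ E|` (`Measure.addHaar_smul`), and `all_tubes` with `K = 1` gives
`(d^(-d/2) N^d)^(1/α) N^(d+2) ≤ C N^(2d+2) |thickening δ E|`, i.e. `|thickening δ E| ≥ c N^(-d(1-1/α))`, `N = d/δ`.
-/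

open MeasureTheory Pool.Agent.MPac5134.Lip
open scoped Pointwise

namespace Pool.Agent.MPac5134.SD

variable {d : ℕ}

/-- there is a cap over every point of the unit ball -/
theorem exists_cap (ω : Fin d → ℝ) (hω : ∑ i, ω i ^ 2 ≤ 1) : ∃ θ : Cap d, θ.foot = ω := by
  have hn : 0 < ‖normalVec ω‖ := by
    have h1 := norm_normalVec_sq ω
    have h2 : 0 ≤ ∑ i, ω i ^ 2 := Finset.sum_nonneg fun i _ => sq_nonneg _
    have h3 := norm_nonneg (normalVec ω)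
    rcases h3.lt_or_eq with h4 | h4
    · exact h4
    · rw [← h4] at h1
      nlinarith
  have hv : Orthonormal ℝ (({Fin.last d} : Set (Fin (d + 1))).domRestrict
      fun _ : Fin (d + 1) => ‖normalVec ω‖⁻¹ • normalVec ω) := by
    refine ⟨fun i => ?_, fun i j hij => absurd (Subsingleton.elim i j) hij⟩
    show ‖‖normalVec ω‖⁻¹ • normalVec ω‖ = 1
    rw [norm_smul, norm_inv, norm_norm, inv_mul_cancel₀ hn.ne']
  obtain ⟨b, hb⟩ := hv.exists_orthonormalBasis_extension_of_card_eq (by simp)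
  exact ⟨⟨ω, hω, b, ‖normalVec ω‖⁻¹, hb (Fin.last d) rfl⟩, rfl⟩

open scoped InnerProductSpace in
private theorem Mink_norm (b : OrthonormalBasis (Fin (d + 1)) ℝ (Sp d)) (y : Sp d) {N : ℝ}
    (hy : ∀ i : Fin d, |⟪b i.castSucc, y⟫_ℝ| ≤ N / 2) :
    ‖y - ⟪b (Fin.last d), y⟫_ℝ • b (Fin.last d)‖ ^ 2 ≤ d * (N / 2) ^ 2 := by
  rw [← b.sum_sq_norm_inner_right, Fin.sum_univ_castSucc]
  have h1 : ⟪b (Fin.last d), y - ⟪b (Fin.last d), y⟫_ℝ • b (Fin.last d)⟫_ℝ = 0 := by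
    rw [inner_sub_right, inner_smul_right, real_inner_self_eq_norm_sq, b.orthonormal.1]
    ring
  have h2 : ∀ i : Fin d, ⟪b i.castSucc, y - ⟪b (Fin.last d), y⟫_ℝ • b (Fin.last d)⟫_ℝ =
      ⟪b i.castSucc, y⟫_ℝ := by
    intro i
    rw [inner_sub_right, inner_smul_right, b.orthonormal.2 (Fin.castSucc_lt_last i).ne]
    ring
  rw [h1]
  simp only [h2]
  have h3 : ∑ i : Fin d, ‖⟪b i.castSucc, y⟫_ℝ‖ ^ 2 ≤ ∑ _i : Fin d, (N / 2) ^ 2 := by
    apply Finset.sum_le_sum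
    intro i _
    rw [Real.norm_eq_abs]
    exact pow_le_pow_left₀ (abs_nonneg _) (hy i) 2
  rw [Finset.sum_const, Finset.card_univ, Fintype.card_fin, nsmul_eq_mul] at h3
  simpa using h3

open scoped InnerProductSpace in
private theorem Mink_sub (hd : 1 ≤ d) {N δ : ℝ} (hN : N = d / δ) (hδ : 0 < δ) (θ : Cap d)
    (x : Sp d) {E : Set (Sp d)}
    (hx : ∀ t : ℝ, 0 ≤ t → t ≤ 1 → x + t • θ.frame (Fin.last d) ∈ E) :
    tube N θ (N ^ 2 • (x + (1 / 2 : ℝ) • θ.frame (Fin.last d))) ⊆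
      (N ^ 2) • Metric.thickening δ E := by
  have hd' : (1 : ℝ) ≤ d := by exact_mod_cast hd
  have hN0 : 0 < N := by rw [hN]; positivity
  have hN2 : (N ^ 2) ≠ 0 := by positivity
  intro y hy
  obtain ⟨hy1, hy2⟩ := hy
  obtain ⟨c, hc⟩ : ∃ c, c = N ^ 2 • (x + (1 / 2 : ℝ) • θ.frame (Fin.last d)) := ⟨_, rfl⟩
  obtain ⟨s, hs⟩ : ∃ s, s = ⟪θ.frame (Fin.last d), y - c⟫_ℝ := ⟨_, rfl⟩
  rw [← hc] at hy1 hy2
  rw [← hs] at hy2
  rw [Set.mem_smul_set_iff_inv_smul_mem₀ hN2, Metric.mem_thickening_iff]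
  refine ⟨x + (1 / 2 + s / N ^ 2) • θ.frame (Fin.last d), hx _ ?_ ?_, ?_⟩
  · have h1 := neg_le_of_abs_le hy2
    have h2 : -(1 / 2) ≤ s / N ^ 2 := by
      rw [le_div_iff₀ (by positivity)]
      linarith
    linarith
  · have h1 := le_of_abs_le hy2
    have h2 : s / N ^ 2 ≤ 1 / 2 := by
      rw [div_le_iff₀ (by positivity)]
      linarith
    linarith
  · have h1 := Mink_norm θ.frame (y - c) hy1
    rw [← hs] at h1
    have h2 : (N ^ 2)⁻¹ • y - (x + (1 / 2 + s / N ^ 2) • θ.frame (Fin.last d)) =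
        (N ^ 2)⁻¹ • ((y - c) - s • θ.frame (Fin.last d)) := by
      rw [hc, smul_sub, smul_sub, smul_smul, inv_mul_cancel₀ hN2, one_smul, smul_smul,
        show (N ^ 2)⁻¹ * s = s / N ^ 2 by ring, add_smul]
      abel
    rw [dist_eq_norm, h2, norm_smul, norm_inv, Real.norm_of_nonneg (by positivity : 0 ≤ N ^ 2)]
    have h3 : ‖y - c - s • θ.frame (Fin.last d)‖ ≤ d * (N / 2) := by
      have h4 : (d : ℝ) * (N / 2) ^ 2 ≤ (d * (N / 2)) ^ 2 := by
        rw [mul_pow]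
        have : (d : ℝ) ≤ d ^ 2 := by nlinarith
        exact mul_le_mul_of_nonneg_right this (by positivity)
      exact le_of_sq_le_sq (h1.trans h4) (by positivity)
    calc (N ^ 2)⁻¹ * ‖y - c - s • θ.frame (Fin.last d)‖ ≤ (N ^ 2)⁻¹ * (d * (N / 2)) :=
          mul_le_mul_of_nonneg_left h3 (by positivity)
      _ = d / N / 2 := by field_simp
      _ = δ / 2 := by rw [hN]; field_simp
      _ < δ := by linarith

private theorem Mink_cell {N : ℝ} (hN : 0 < N) (θ : Cap d) (z : Fin d → ℕ)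
    (h : θ.foot = fun k => (z k : ℝ) / N) (k : Fin d) : cell N θ k = z k := by
  unfold cell
  rw [h]
  show ⌊N * ((z k : ℝ) / N)⌋ = (z k : ℤ)
  rw [mul_div_cancel₀ _ hN.ne', Int.floor_natCast]

private theorem Mink_num (hd : 1 ≤ d) {C δ α : ℝ} (hC : 0 < C) (hα : 1 ≤ α) (hδ : 0 < δ)
    {n : ℕ} (hn : ((1 / δ) ^ d : ℝ) ≤ n) :
    (C * d ^ d)⁻¹ * δ ^ (d * (1 - 1 / α)) * (C * ((d / δ) ^ 2) ^ (d + 1)) ≤
      (n : ℝ) ^ (1 / α) * (d / δ) ^ (d + 2) := by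
  have hd' : (1 : ℝ) ≤ d := by exact_mod_cast hd
  have hd0 : (0 : ℝ) < d := by linarith
  have hα0 : 0 < α := by linarith
  obtain ⟨Z, hZ⟩ : ∃ Z : ℝ, Z = δ ^ (d * (1 / α)) := ⟨_, rfl⟩
  have hZ0 : 0 < Z := by rw [hZ]; positivity
  have h1 : δ ^ (d * (1 - 1 / α)) = δ ^ d / Z := by
    rw [show (d : ℝ) * (1 - 1 / α) = d - d * (1 / α) by ring, Real.rpow_sub hδ,
      Real.rpow_natCast, hZ]
  have h2 : Z⁻¹ ≤ (n : ℝ) ^ (1 / α) := by
    calc Z⁻¹ = ((1 / δ) ^ d : ℝ) ^ (1 / α) := by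
          rw [hZ, ← Real.rpow_natCast (1 / δ) d, ← Real.rpow_mul (by positivity), one_div δ,
            Real.inv_rpow hδ.le]
      _ ≤ _ := Real.rpow_le_rpow (by positivity) hn (by positivity)
  calc (C * d ^ d)⁻¹ * δ ^ (d * (1 - 1 / α)) * (C * ((d / δ) ^ 2) ^ (d + 1))
      = Z⁻¹ * (d / δ) ^ (d + 2) := by
        rw [h1, show ((d : ℝ) / δ) ^ 2 = (d / δ) ^ 2 from rfl, ← pow_mul,
          show 2 * (d + 1) = d + (d + 2) by ring, pow_add _ d (d + 2), div_pow (d : ℝ) δ d]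
        field_simp
    _ ≤ _ := mul_le_mul_of_nonneg_right h2 (by positivity)

theorem mink (hd : 1 ≤ d) {α : ℝ} (hα : 1 ≤ α) {F : Finset ℚ} (hI : Ineq 0 α F) :
    ∃ c : ℝ, 0 < c ∧ ∀ E : Set (EuclideanSpace ℝ (Fin (d + 1))),
      (∀ v : EuclideanSpace ℝ (Fin (d + 1)), ‖v‖ = 1 →
        ∃ x, ∀ t : ℝ, 0 ≤ t → t ≤ 1 → x + t • v ∈ E) →
      ∀ δ : ℝ, 0 < δ → δ ≤ 1 →
        ENNReal.ofReal (c * δ ^ (d * (1 - 1 / α))) ≤ volume (Metric.thickening δ E) := by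
  obtain ⟨C, hC, hall⟩ := all_tubes hd hα hI 1
  have hd' : (1 : ℝ) ≤ d := by exact_mod_cast hd
  refine ⟨(C * d ^ d)⁻¹, by positivity, ?_⟩
  intro E hE δ hδ hδ1
  obtain ⟨N, hN⟩ : ∃ N : ℝ, N = d / δ := ⟨_, rfl⟩
  have hN0 : 0 < N := by rw [hN]; positivity
  have hN1 : 1 ≤ N := by
    rw [hN, one_le_div hδ]
    linarith
  obtain ⟨m, hm⟩ : ∃ m : ℕ, m = ⌊1 / δ⌋₊ := ⟨_, rfl⟩
  have hm1 : (m : ℝ) ≤ 1 / δ := by
    rw [hm]
    exact Nat.floor_le (by positivity)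
  have hm2 : 1 / δ ≤ (m : ℝ) + 1 := by
    rw [hm]
    exact (Nat.lt_floor_add_one _).le
  have hfoot : ∀ i : Fin d → Fin (m + 1), ∑ k, (((i k : ℕ) : ℝ) / N) ^ 2 ≤ 1 := by
    intro i
    have h1 : ∀ k ∈ Finset.univ, (((i k : ℕ) : ℝ) / N) ^ 2 ≤ 1 / d := by
      intro k _
      have h2 : ((i k : ℕ) : ℝ) ≤ m := by
        have := (i k).is_lt
        exact_mod_cast Nat.lt_succ_iff.1 this
      have h3 : ((i k : ℕ) : ℝ) / N ≤ 1 / d := by
        rw [div_le_iff₀ hN0, hN]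
        calc ((i k : ℕ) : ℝ) ≤ 1 / δ := h2.trans hm1
          _ = 1 / d * (d / δ) := by field_simp
      have h4 : 0 ≤ ((i k : ℕ) : ℝ) / N := by positivity
      have h5 : (1 : ℝ) / d ≤ 1 := by
        rw [div_le_one (by linarith)]
        exact hd'
      nlinarith
    refine (Finset.sum_le_sum h1).trans ?_
    rw [Finset.sum_const, Finset.card_univ, Fintype.card_fin, nsmul_eq_mul]
    have : (d : ℝ) * (1 / d) = 1 := by field_simp
    linarith
  choose θ hθ using fun i : Fin d → Fin (m + 1) => exists_cap _ (hfoot i)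
  choose x hx using fun i : Fin d → Fin (m + 1) =>
    hE ((θ i).frame (Fin.last d)) ((θ i).frame.orthonormal.1 _)
  have hcell : ∀ z : Fin d → ℤ, ∀ s : Finset (Fin d → Fin (m + 1)),
      (∀ i ∈ s, cell N (θ i) = z) → s.card ≤ 1 := by
    intro z s hs
    rw [Finset.card_le_one]
    intro i hi j hj
    funext k
    have h1 := Mink_cell hN0 (θ i) (fun k => (i k : ℕ)) (hθ i) k
    have h2 := Mink_cell hN0 (θ j) (fun k => (j k : ℕ)) (hθ j) k
    have h3 : cell N (θ i) k = cell N (θ j) k := by rw [hs i hi, hs j hj]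
    rw [h1, h2] at h3
    exact Fin.ext (by exact_mod_cast h3)
  have h1 := hall N hN1 (Fin d → Fin (m + 1)) θ
    (fun i => N ^ 2 • (x i + (1 / 2 : ℝ) • (θ i).frame (Fin.last d))) hcell
  have hsub : (⋃ i, tube N (θ i) (N ^ 2 • (x i + (1 / 2 : ℝ) • (θ i).frame (Fin.last d)))) ⊆
      (N ^ 2) • Metric.thickening δ E :=
    Set.iUnion_subset fun i => Mink_sub hd hN hδ (θ i) (x i) (hx i)
  have hvol : volume (⋃ i, tube N (θ i) (N ^ 2 • (x i + (1 / 2 : ℝ) • (θ i).frame (Fin.last d))))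
      ≤ ENNReal.ofReal ((N ^ 2) ^ (d + 1)) * volume (Metric.thickening δ E) := by
    refine (measure_mono hsub).trans (le_of_eq ?_)
    rw [Measure.addHaar_smul, finrank_euclideanSpace, Fintype.card_fin,
      abs_of_nonneg (by positivity)]
  have hcard : ((1 / δ) ^ d : ℝ) ≤ (Fintype.card (Fin d → Fin (m + 1)) : ℝ) := by
    rw [Fintype.card_fun, Fintype.card_fin, Fintype.card_fin]
    push_cast
    exact pow_le_pow_left₀ (by positivity) hm2 d
  have hnum := Mink_num hd hC hα hδ hcard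
  rw [← hN] at hnum
  have hA : 0 < C * (N ^ 2) ^ (d + 1) := by positivity
  have h2 : ENNReal.ofReal ((C * d ^ d)⁻¹ * δ ^ (d * (1 - 1 / α))) *
      ENNReal.ofReal (C * (N ^ 2) ^ (d + 1)) ≤
      volume (Metric.thickening δ E) * ENNReal.ofReal (C * (N ^ 2) ^ (d + 1)) := by
    rw [← ENNReal.ofReal_mul (by positivity)]
    refine (ENNReal.ofReal_le_ofReal hnum).trans (h1.trans ?_)
    refine (mul_le_mul_right hvol _).trans (le_of_eq ?_)
    rw [ENNReal.ofReal_mul hC.le]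
    ring
  rwa [ENNReal.mul_le_mul_iff_left (by simpa using hA) ENNReal.ofReal_ne_top] at h2

end Pool.Agent.MPac5134.SD
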