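import Pool.Agent.Lib.MP_ac5134_an.SD.P3

/-!
# The Katz-Tao inequality for families of paths
-/

open RFold Finset

namespace Pool.Agent.MPac5134.SD

variable {V Ω : Type} [AddCommGroup V] [Module ℚ V] [Fintype Ω] (S : Sys V Ω)

namespace Sys

/-- The functional `M = y + c B₂`, `y = P (t₀ + U)` on the first line. -/
def M (t₀ U c : ℚ) (x : (Ω × Ω) × Ω) : V := S.P t₀ x.1.1 + U • S.B x.1.1 + c • S.B x.2

/-- `(U B₁, M)` determines the whole path. -/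
theorem ent_BM {t₁ D U c : ℚ} (hD : D ≠ 0) (hU : U ≠ 0) (hc : c ≠ 0) :
    ent (S.w3 (t₁ - D) t₁) (fun x => (U • S.B x.1.1, S.M (t₁ - D) U c x)) =
      3 * S.h - S.H (t₁ - D) - S.H t₁ := by
  rw [← S.ent_w3]
  have hne : t₁ - D ≠ t₁ := fun e => hD (by linarith)
  refine ent_congr (S.isPr_w3 _ _) ?_ ?_
  · intro x y hx hy e
    obtain ⟨hx1, hx2, hx3, hx4, hx5⟩ := S.w3_ne_zero hx
    obtain ⟨hy1, hy2, hy3, hy4, hy5⟩ := S.w3_ne_zero hy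
    simp only [Prod.mk.injEq, M] at e ⊢
    have e1 : S.B x.1.1 = S.B y.1.1 := smul_right_injective V hU e.1
    have e2 : S.P (t₁ - D) x.1.1 = S.P (t₁ - D) y.1.1 := S.P_eq _ hx1 hy1 e1
    have e3 : S.B x.2 = S.B y.2 := by
      have h := e.2
      rw [e2, e1, add_right_inj] at h
      exact smul_right_injective V hc h
    have e4 : S.P t₁ x.2 = S.P t₁ y.2 := S.P_eq _ hx3 hy3 e3
    refine ⟨⟨e1, ?_⟩, e3⟩
    refine S.B_eq hne (t := t₁ - D) (u := t₁) ?_ ?_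
    · rw [← hx4, ← hy4, e2]
    · rw [hx5, hy5, e4]
  · intro x y hx hy e
    obtain ⟨hx1, hx2, hx3, hx4, hx5⟩ := S.w3_ne_zero hx
    obtain ⟨hy1, hy2, hy3, hy4, hy5⟩ := S.w3_ne_zero hy
    simp only [Prod.mk.injEq, M] at e ⊢
    obtain ⟨⟨e1, e2⟩, e3⟩ := e
    refine ⟨by rw [e1], ?_⟩
    rw [S.P_eq (t₁ - D) hx1 hy1 e1, e1, e3]

/-- Lower bound for the entropy of `M`. -/
theorem ent_M_ge {t₁ D U c : ℚ} (hD : D ≠ 0) (hc : c ≠ 0) :
    S.h - S.H t₁ + S.G (t₁ - D) U D - S.H (t₁ - D + U) ≤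
      ent (S.w3 (t₁ - D) t₁) (S.M (t₁ - D) U c) := by
  set t₀ := t₁ - D with ht₀
  have ht : t₀ + D = t₁ := by rw [ht₀]; ring
  have hw := S.isPr_w3 t₀ t₁
  -- `(y, B₂)`
  have h1 : ent (S.w3 t₀ t₁) (fun x => (S.P (t₀ + U) x.1.1, S.B x.2)) ≤
      ent (S.w3 t₀ t₁) (S.M t₀ U c) + S.H (t₀ + U) := by
    have a1 : ent (S.w3 t₀ t₁) (fun x => (S.P (t₀ + U) x.1.1, S.B x.2)) ≤
        ent (S.w3 t₀ t₁) (fun x => (S.M t₀ U c x, S.P (t₀ + U) x.1.1)) := by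
      refine ent_mono hw ?_
      intro x y hx hy e
      simp only [Prod.mk.injEq] at e ⊢
      refine ⟨e.2, ?_⟩
      have b : ∀ z : (Ω × Ω) × Ω, c • S.B z.2 = S.M t₀ U c z - S.P (t₀ + U) z.1.1 := by
        intro z
        rw [M, S.P_add]
        abel
      have b2 : c • S.B x.2 = c • S.B y.2 := by rw [b, b, e.1, e.2]
      exact smul_right_injective V hc b2
    have a2 := ent_pair_le hw (S.M t₀ U c) (fun x => S.P (t₀ + U) x.1.1)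
    rw [S.ent_w3_1 t₀ t₁ (S.P (t₀ + U))] at a2
    exact a1.trans a2
  have h2 := ent_submod' hw (A := fun x => (S.B x.1.1, S.B x.1.2))
    (B := fun x => (S.P (t₀ + U) x.1.1, S.B x.2))
    (J := fun x => ((S.B x.1.1, S.B x.1.2), S.B x.2))
    (M := fun x => (S.P (t₀ + U) x.1.1, S.P (t₀ + D) x.1.2)) ?_ ?_ ?_
  · rw [S.ent_w3, S.ent_w3_12 t₀ t₁ (fun x => (S.B x.1, S.B x.2)), S.ent_v,
      S.ent_w3_12 t₀ t₁ (fun x => (S.P (t₀ + U) x.1, S.P (t₀ + D) x.2))] at h2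
    have h3 : ent (S.v t₀) (fun x => (S.P (t₀ + U) x.1, S.P (t₀ + D) x.2)) = S.G t₀ U D := rfl
    rw [h3] at h2
    linarith
  · intro x y _ _ e
    simp only [Prod.mk.injEq] at e ⊢
    tauto
  · intro x y hx hy e
    obtain ⟨hx1, hx2, hx3, hx4, hx5⟩ := S.w3_ne_zero hx
    obtain ⟨hy1, hy2, hy3, hy4, hy5⟩ := S.w3_ne_zero hy
    simp only [Prod.mk.injEq] at e ⊢
    exact ⟨S.P_eq _ hx1 hy1 e.1, S.P_eq _ hx2 hy2 e.2⟩
  · intro x y hx hy e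
    obtain ⟨hx1, hx2, hx3, hx4, hx5⟩ := S.w3_ne_zero hx
    obtain ⟨hy1, hy2, hy3, hy4, hy5⟩ := S.w3_ne_zero hy
    simp only [Prod.mk.injEq] at e ⊢
    refine ⟨e.1, ?_⟩
    rw [ht, hx5, hy5, S.P_eq t₁ hx3 hy3 e.2]

/-- The slices of the pencil at `M`. -/
theorem ent_slice_M {t₁ D U c θ : ℚ} (hθ : 1 < θ) :
    ent (S.w3 (t₁ - D) t₁) (fun x => (S.P (t₁ - D) x.1.1 + θ • (U • S.B x.1.1),
      S.M (t₁ - D) U c x)) ≤
      S.H (t₁ - D + θ * U) + S.sig t₁ (-D) (c * (θ / (θ - 1))) := by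
  set t₀ := t₁ - D with ht₀
  have ht : t₀ + D = t₁ := by rw [ht₀]; ring
  have hw := S.isPr_w3 t₀ t₁
  have h1 : ent (S.w3 t₀ t₁) (fun x => (S.P t₀ x.1.1 + θ • (U • S.B x.1.1), S.M t₀ U c x)) ≤
      ent (S.w3 t₀ t₁) (fun x => (S.P (t₀ + θ * U) x.1.1,
        S.P t₁ x.1.2 + (-D) • S.B x.1.2 + (c * (θ / (θ - 1))) • S.B x.2)) := by
    refine ent_mono hw ?_
    intro x y hx hy e
    obtain ⟨hx1, hx2, hx3, hx4, hx5⟩ := S.w3_ne_zero hx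
    obtain ⟨hy1, hy2, hy3, hy4, hy5⟩ := S.w3_ne_zero hy
    simp only [Prod.mk.injEq] at e ⊢
    have b1 : ∀ z : (Ω × Ω) × Ω, S.P t₀ z.1.1 + θ • (U • S.B z.1.1) =
        S.P (t₀ + θ * U) z.1.1 := by
      intro z
      rw [S.P_add, smul_smul]
    have b2 : ∀ z : (Ω × Ω) × Ω, S.P t₀ z.1.1 = S.P t₀ z.1.2 → S.M t₀ U c z =
        (1 / θ) • S.P (t₀ + θ * U) z.1.1 + ((θ - 1) / θ) • (S.P t₁ z.1.2 +
          (-D) • S.B z.1.2 + (c * (θ / (θ - 1))) • S.B z.2) := by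
      intro z hz
      have hA : S.P t₁ z.1.2 + (-D) • S.B z.1.2 = S.P t₀ z.1.1 := by
        rw [hz, ← ht, S.P_add]
        module
      rw [hA, M, S.P_add]
      have hθ0 : θ ≠ 0 := by linarith
      have hθ1 : θ - 1 ≠ 0 := by linarith
      simp only [smul_add, smul_smul]
      have c1 : 1 / θ * (θ * U) = U := by field_simp
      have c2 : (θ - 1) / θ * (c * (θ / (θ - 1))) = c := by field_simp
      have c3 : (1 / θ : ℚ) + (θ - 1) / θ = 1 := by field_simp; ring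
      rw [c1, c2]
      have : S.P t₀ z.1.1 = (1 / θ : ℚ) • S.P t₀ z.1.1 + ((θ - 1) / θ) • S.P t₀ z.1.1 := by
        rw [← add_smul, c3, one_smul]
      nth_rewrite 1 [this]
      abel
    refine ⟨?_, ?_⟩
    · rw [b1, b1, e.1]
    · rw [b2 x hx4, b2 y hy4, e.1, e.2]
  have h2 := ent_pair_le hw (fun x => S.P (t₀ + θ * U) x.1.1)
    (fun x => S.P t₁ x.1.2 + (-D) • S.B x.1.2 + (c * (θ / (θ - 1))) • S.B x.2)
  rw [S.ent_w3_1 t₀ t₁ (S.P (t₀ + θ * U)),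
    S.ent_w3_23 t₀ t₁ (fun x => S.P t₁ x.1 + (-D) • S.B x.1 + (c * (θ / (θ - 1))) • S.B x.2)]
    at h2
  exact h1.trans h2

end Sys

/-- The Katz-Tao inequality for a weighted family of paths. -/
theorem p3_fam {α : ℝ} {F : Finset ℚ} (hα : 1 ≤ α) (hI : Ineq 0 α F) (hF : ∀ θ ∈ F, 1 < θ)
    {I : Type} [Fintype I] {w : I → ℝ} (hw : ∀ i, 0 ≤ w i) (hw1 : ∑ i, w i = 1)
    (t₁ D U c : I → ℚ) (hD : ∀ i, D i ≠ 0) (hU : ∀ i, U i ≠ 0) (hc : ∀ i, c i ≠ 0) {s σm : ℝ}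
    (H0 : ∀ i, S.H (t₁ i - D i) ≤ s) (H1 : ∀ i, S.H (t₁ i) ≤ s)
    (H2 : ∀ i, S.H (t₁ i - D i + U i) ≤ s) (H3 : ∀ i, ∀ θ ∈ F, S.H (t₁ i - D i + θ * U i) ≤ s)
    (hσ : ∀ θ ∈ F, ∑ i, w i * S.sig (t₁ i) (-D i) (c i * (θ / (θ - 1))) ≤ σm) :
    3 * S.h - 2 * s + (α - 1) * (S.h - 2 * s + ∑ i, w i * S.G (t₁ i - D i) (U i) (D i)) ≤
      α * (s + σm) := by
  set m := ∑ i, w i * ent (S.w3 (t₁ i - D i) (t₁ i)) (S.M (t₁ i - D i) (U i) (c i)) with hm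
  have hsum : ∀ a : ℝ, ∑ i, w i * a = a := fun a => by rw [← sum_mul, hw1, one_mul]
  have hpen := hI.cavg (I := I) (w := w) le_rfl hw
    (p := fun i => S.w3 (t₁ i - D i) (t₁ i)) (fun i => S.isPr_w3 _ _)
    (fun i x => S.P (t₁ i - D i) x.1.1) (fun i x => U i • S.B x.1.1)
    (fun i => S.M (t₁ i - D i) (U i) (c i)) (s := s + σm - m) ?_ ?_
  · rw [zero_mul, zero_add] at hpen
    have e1 : ∑ i, w i * cent (S.w3 (t₁ i - D i) (t₁ i)) (fun x => U i • S.B x.1.1)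
        (S.M (t₁ i - D i) (U i) (c i)) =
        ∑ i, w i * (3 * S.h - S.H (t₁ i - D i) - S.H (t₁ i)) - m := by
      rw [hm, ← sum_sub_distrib]
      refine sum_congr rfl fun i _ => ?_
      unfold cent
      rw [S.ent_BM (hD i) (hU i) (hc i)]
      ring
    rw [e1] at hpen
    have h1 : 3 * S.h - 2 * s ≤ ∑ i, w i * (3 * S.h - S.H (t₁ i - D i) - S.H (t₁ i)) := by
      rw [← hsum (3 * S.h - 2 * s)]
      refine sum_le_sum fun i _ => mul_le_mul_of_nonneg_left ?_ (hw i)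
      linarith [H0 i, H1 i]
    have h2 : S.h - 2 * s + ∑ i, w i * S.G (t₁ i - D i) (U i) (D i) ≤ m := by
      rw [hm, ← hsum (S.h - 2 * s), ← sum_add_distrib]
      refine sum_le_sum fun i _ => ?_
      rw [← mul_add]
      refine mul_le_mul_of_nonneg_left ?_ (hw i)
      have := S.ent_M_ge (t₁ := t₁ i) (U := U i) (hD i) (hc i)
      linarith [H1 i, H2 i]
    have h3 := mul_le_mul_of_nonneg_left h2 (by linarith : (0 : ℝ) ≤ α - 1)
    nlinarith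
  · intro i x y hx hy e
    obtain ⟨hx1, hx2, hx3, hx4, hx5⟩ := S.w3_ne_zero hx
    obtain ⟨hy1, hy2, hy3, hy4, hy5⟩ := S.w3_ne_zero hy
    simp only [Prod.mk.injEq] at e
    exact S.P_eq _ hx1 hy1 (smul_right_injective V (hU i) e.1)
  · intro θ hθ
    have h4 : ∀ i, w i * cent (S.w3 (t₁ i - D i) (t₁ i))
        (fun x => S.P (t₁ i - D i) x.1.1 + θ • (U i • S.B x.1.1))
        (S.M (t₁ i - D i) (U i) (c i)) ≤ w i * s + w i * S.sig (t₁ i) (-D i)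
          (c i * (θ / (θ - 1))) -
          w i * ent (S.w3 (t₁ i - D i) (t₁ i)) (S.M (t₁ i - D i) (U i) (c i)) := by
      intro i
      rw [← mul_add, ← mul_sub]
      refine mul_le_mul_of_nonneg_left ?_ (hw i)
      have := S.ent_slice_M (t₁ := t₁ i) (D := D i) (U := U i) (c := c i) (hF θ hθ)
      unfold cent
      linarith [H3 i θ hθ]
    refine (sum_le_sum fun i _ => h4 i).trans ?_
    rw [sum_sub_distrib, sum_add_distrib, hsum, ← hm]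
    linarith [hσ θ hθ]

end Pool.Agent.MPac5134.SD
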