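import Pool.Agent.Lib.MP_ac5134_an.SD.Defs

/-!
# Entropy of independent products and the averaged form of `Ineq`
-/

open RFold Finset

namespace Pool.Agent.MPac5134.SD

section Pi

variable {J Ω : Type*} [Fintype J] [DecidableEq J] [Fintype Ω] {β : Type*}

/-- The product weight. -/
def piw (p : J → Ω → ℝ) (ω : J → Ω) : ℝ := ∏ j, p j (ω j)

theorem sum_pi (φ : J → Ω → ℝ) : ∑ ω : J → Ω, ∏ j, φ j (ω j) = ∏ j, ∑ x, φ j x := by
  rw [Finset.prod_univ_sum]
  simp [Fintype.piFinset_univ]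

theorem isPr_piw {p : J → Ω → ℝ} (hp : ∀ j, IsPr (p j)) : IsPr (piw p) := by
  refine ⟨fun ω => prod_nonneg fun j _ => (hp j).nonneg _, ?_⟩
  exact (sum_pi p).trans (prod_eq_one fun j _ => (hp j).sum_eq)

omit [DecidableEq J] [Fintype Ω] in
theorem piw_ne_zero {p : J → Ω → ℝ} {ω : J → Ω} (h : piw p ω ≠ 0) (j : J) : p j (ω j) ≠ 0 := by
  intro h0
  exact h (prod_eq_zero (mem_univ j) h0)

theorem sum_piw_mul {p : J → Ω → ℝ} (hp : ∀ j, IsPr (p j)) (j : J) (g : Ω → ℝ) :
    ∑ ω : J → Ω, piw p ω * g (ω j) = ∑ x, p j x * g x := by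
  have h : ∀ ω : J → Ω, piw p ω * g (ω j) =
      ∏ i, (fun i x => p i x * (if i = j then g x else 1)) i (ω i) := by
    intro ω
    unfold piw
    simp only
    rw [prod_mul_distrib]
    congr 1
    rw [prod_ite_eq' (s := univ) (a := j) (b := fun i => g (ω i)), if_pos (mem_univ j)]
  calc ∑ ω : J → Ω, piw p ω * g (ω j)
      = ∑ ω : J → Ω, ∏ i, (fun i x => p i x * (if i = j then g x else 1)) i (ω i) :=
        sum_congr rfl fun ω _ => h ω
    _ = ∏ i, ∑ x, (fun i x => p i x * (if i = j then g x else 1)) i x :=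
        sum_pi (fun i x => p i x * (if i = j then g x else 1))
    _ = ∑ x, p j x * g x := by
        rw [← Finset.mul_prod_erase univ _ (mem_univ j), prod_eq_one, mul_one]
        · simp
        · intro i hi
          have : i ≠ j := (mem_erase.mp hi).1
          simp [this, (hp i).sum_eq]

open Classical in
theorem law_piw (p : J → Ω → ℝ) (f : J → Ω → β) (b : J → β) :
    law (piw p) (fun ω j => f j (ω j)) b = ∏ j, law (p j) (f j) (b j) := by
  have h : ∀ ω : J → Ω, (if (fun j => f j (ω j)) = b then piw p ω else 0) =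
      ∏ j, (fun j x => if f j x = b j then p j x else 0) j (ω j) := by
    intro ω
    by_cases h0 : (fun j => f j (ω j)) = b
    · rw [if_pos h0]
      unfold piw
      refine prod_congr rfl fun j _ => ?_
      have h1 : f j (ω j) = b j := congrFun h0 j
      simp [h1]
    · rw [if_neg h0]
      obtain ⟨j, hj⟩ : ∃ j, f j (ω j) ≠ b j := by
        by_contra hc
        push Not at hc
        exact h0 (funext hc)
      symm
      refine prod_eq_zero (mem_univ j) ?_
      simp [hj]
  have h2 := (sum_congr rfl fun ω _ => h ω).trans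
    (sum_pi fun j x => if f j x = b j then p j x else 0)
  unfold law pr
  convert h2

/-- The entropy of a product is the sum of the entropies. -/
theorem ent_piw {p : J → Ω → ℝ} (hp : ∀ j, IsPr (p j)) (f : J → Ω → β) :
    ent (piw p) (fun ω j => f j (ω j)) = ∑ j, ent (p j) (f j) := by
  have h : ∀ ω : J → Ω, piw p ω * (-Real.log (law (piw p) (fun ω j => f j (ω j))
      (fun j => f j (ω j)))) = ∑ j, piw p ω * (-Real.log (law (p j) (f j) (f j (ω j)))) := by
    intro ω
    by_cases h0 : piw p ω = 0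
    · simp [h0]
    · rw [law_piw, Real.log_prod, ← mul_sum]
      · rw [sum_neg_distrib]
      · intro j _
        exact (law_pos (hp j) (f j) (piw_ne_zero h0 j)).ne'
  have e : ent (piw p) (fun ω j => f j (ω j)) =
      ∑ ω, piw p ω * (-Real.log (law (piw p) (fun ω j => f j (ω j)) (fun j => f j (ω j)))) := rfl
  rw [e, sum_congr rfl fun ω _ => h ω, sum_comm]
  refine sum_congr rfl fun j _ => ?_
  rw [sum_piw_mul hp j (fun x => -Real.log (law (p j) (f j) (f j x)))]
  rfl

end Pi

/-- Averaged form of `Ineq` (product trick). -/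
theorem Ineq.favg {x c : ℝ} {F : Finset ℚ} (hx : 0 ≤ x) (h : Ineq x c F)
    {V : Type} [AddCommGroup V] [Module ℚ V] {Ω I : Type} [Fintype Ω] [Fintype I]
    {w : I → ℝ} (hw : ∀ i, 0 ≤ w i) {p : I → Ω → ℝ} (hp : ∀ i, IsPr (p i))
    (A B : I → Ω → V) (hdet : ∀ i, Det (p i) (B i) (A i)) {s : ℝ}
    (hs : ∀ t ∈ F, ∑ i, w i * ent (p i) (fun ω => A i ω + t • B i ω) ≤ s) :
    ∑ i, w i * ent (p i) (B i) ≤ x * ∑ i, w i * ent (p i) (A i) + c * s := by
  classical
  -- the finite inequality for multiplicities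
  have key : ∀ m : ℕ, (m : ℝ) * (∑ i, w i * ent (p i) (B i) - (x * ∑ i, w i * ent (p i) (A i) +
      c * s)) ≤ ∑ i, ent (p i) (B i) := by
    intro m
    let J := (i : I) × Fin ⌊(m : ℝ) * w i⌋₊
    let P : J → Ω → ℝ := fun j => p j.1
    have hP : ∀ j, IsPr (P j) := fun j => hp j.1
    have hsum : ∀ f : I → ℝ, ∑ j : J, f j.1 = ∑ i, (⌊(m : ℝ) * w i⌋₊ : ℝ) * f i := by
      intro f
      rw [Fintype.sum_sigma]
      refine sum_congr rfl fun i _ => ?_
      simp
    have hfl : ∀ i, (⌊(m : ℝ) * w i⌋₊ : ℝ) ≤ m * w i := fun i =>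
      Nat.floor_le (mul_nonneg (Nat.cast_nonneg m) (hw i))
    have hfl' : ∀ i, (m : ℝ) * w i - 1 ≤ (⌊(m : ℝ) * w i⌋₊ : ℝ) := fun i => by
      have := Nat.lt_floor_add_one ((m : ℝ) * w i)
      linarith
    have hent : ∀ f : I → Ω → V, ent (piw P) (fun ω j => f j.1 (ω j)) =
        ∑ i, (⌊(m : ℝ) * w i⌋₊ : ℝ) * ent (p i) (f i) := by
      intro f
      have := ent_piw (J := J) (Ω := Ω) (p := P) hP (fun j => f j.1)
      rw [this]
      exact hsum fun i => ent (p i) (f i)
    have h1 := h (J → V) (J → Ω) (piw P) (fun ω j => A j.1 (ω j)) (fun ω j => B j.1 (ω j))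
      (m * s) (isPr_piw hP) ?_ ?_
    · rw [hent, hent] at h1
      have h2 : ∑ i, ((m : ℝ) * w i - 1) * ent (p i) (B i) ≤
          ∑ i, (⌊(m : ℝ) * w i⌋₊ : ℝ) * ent (p i) (B i) :=
        sum_le_sum fun i _ => mul_le_mul_of_nonneg_right (hfl' i) (ent_nonneg (hp i) _)
      have h3 : ∑ i, (⌊(m : ℝ) * w i⌋₊ : ℝ) * ent (p i) (A i) ≤
          ∑ i, ((m : ℝ) * w i) * ent (p i) (A i) :=
        sum_le_sum fun i _ => mul_le_mul_of_nonneg_right (hfl i) (ent_nonneg (hp i) _)
      have h4 : ∑ i, ((m : ℝ) * w i - 1) * ent (p i) (B i) =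
          m * (∑ i, w i * ent (p i) (B i)) - ∑ i, ent (p i) (B i) := by
        rw [mul_sum, ← sum_sub_distrib]
        exact sum_congr rfl fun i _ => by ring
      have h5 : ∑ i, ((m : ℝ) * w i) * ent (p i) (A i) = m * ∑ i, w i * ent (p i) (A i) := by
        rw [mul_sum]
        exact sum_congr rfl fun i _ => by ring
      have h6 := mul_le_mul_of_nonneg_left h3 hx
      rw [h5] at h6
      rw [h4] at h2
      nlinarith [h1, h2, h6]
    · intro ω ω' hω hω' e
      funext j
      exact hdet j.1 _ _ (piw_ne_zero hω j) (piw_ne_zero hω' j) (congrFun e j)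
    · intro t ht
      have h7 := hent (fun i ω => A i ω + t • B i ω)
      have h8 : (fun (ω : J → Ω) => (fun j => A j.1 (ω j)) + t • (fun j => B j.1 (ω j))) =
          (fun ω j => (fun i ω => A i ω + t • B i ω) j.1 (ω j)) := by
        funext ω j
        rfl
      rw [h8, h7]
      have h9 : ∑ i, (⌊(m : ℝ) * w i⌋₊ : ℝ) * ent (p i) (fun ω => A i ω + t • B i ω) ≤
          ∑ i, ((m : ℝ) * w i) * ent (p i) (fun ω => A i ω + t • B i ω) :=
        sum_le_sum fun i _ => mul_le_mul_of_nonneg_right (hfl i) (ent_nonneg (hp i) _)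
      have h10 : ∑ i, ((m : ℝ) * w i) * ent (p i) (fun ω => A i ω + t • B i ω) =
          m * ∑ i, w i * ent (p i) (fun ω => A i ω + t • B i ω) := by
        rw [mul_sum]
        exact sum_congr rfl fun i _ => by ring
      rw [h10] at h9
      exact h9.trans (mul_le_mul_of_nonneg_left (hs t ht) (Nat.cast_nonneg m))
  by_contra hcon
  push Not at hcon
  set δ := ∑ i, w i * ent (p i) (B i) - (x * ∑ i, w i * ent (p i) (A i) + c * s) with hδ
  have hδ0 : 0 < δ := by rw [hδ]; linarith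
  obtain ⟨m, hm⟩ := exists_nat_gt ((∑ i, ent (p i) (B i)) / δ)
  have h1 := key m
  rw [div_lt_iff₀ hδ0] at hm
  linarith

end Pool.Agent.MPac5134.SD
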