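import Pool.Agent.Lib.MP_ac5134_an.SD.Sys

/-!
# An auxiliary function
-/

namespace Pool.Agent.MPac5134.SD

/-- position of the point of the diagonal -/
def ee (k θ : ℚ) : ℚ := (θ - 1) / ((θ - 1) * k - θ)

theorem ee_pos {k θ : ℚ} (hθ : 1 < θ) (hk : θ / (θ - 1) < k) : 0 < ee k θ := by
  have h1 : 0 < θ - 1 := by linarith
  have h2 : θ < (θ - 1) * k := by
    rw [div_lt_iff₀ h1] at hk
    linarith
  exact div_pos h1 (by linarith)

end Pool.Agent.MPac5134.SD
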