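import Pool.Agent.Lib.MP_ac5134_an.SD.Q4

/-!
# Entropies in the 4-cycle
-/

open RFold Finset

namespace Pool.Agent.MPac5134.SD

variable {V Ω : Type} [AddCommGroup V] [Module ℚ V] [Fintype Ω] (S : Sys V Ω)

namespace Sys

/-- Two copies of `V` (vertices `a`, `b` at height `τ`) glued over the end points at the heights
`τ + X`, `τ + Y`. -/
noncomputable def w4 (τ X Y : ℚ) : (Ω × Ω) × (Ω × Ω) → ℝ :=
  gl (S.v τ) (S.v τ) (fun x => (S.P (τ + X) x.1, S.P (τ + Y) x.2))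
    (fun x => (S.P (τ + X) x.1, S.P (τ + Y) x.2))

theorem isPr_w4 (τ X Y : ℚ) : IsPr (S.w4 τ X Y) :=
  isPr_gl (S.isPr_v τ) (S.isPr_v τ) fun _ => rfl

/-- The facts on the support. -/
structure Q4 (τ X Y : ℚ) (x : (Ω × Ω) × (Ω × Ω)) : Prop where
  p11 : S.p x.1.1 ≠ 0
  p12 : S.p x.1.2 ≠ 0
  p21 : S.p x.2.1 ≠ 0
  p22 : S.p x.2.2 ≠ 0
  ea : S.P τ x.1.1 = S.P τ x.1.2
  eb : S.P τ x.2.1 = S.P τ x.2.2
  ex : S.P (τ + X) x.1.1 = S.P (τ + X) x.2.1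
  ey : S.P (τ + Y) x.1.2 = S.P (τ + Y) x.2.2

theorem w4_ne_zero {τ X Y : ℚ} {x : (Ω × Ω) × (Ω × Ω)} (h : S.w4 τ X Y x ≠ 0) :
    S.Q4 τ X Y x := by
  obtain ⟨h1, h2, h3⟩ := gl_ne_zero h
  obtain ⟨a1, a2, a3⟩ := S.v_ne_zero h1
  obtain ⟨b1, b2, b3⟩ := S.v_ne_zero h2
  simp only [Prod.mk.injEq] at h3
  exact ⟨a1, a2, b1, b2, a3, b3, h3.1, h3.2⟩

theorem ent_w4_1 {α : Type*} (τ X Y : ℚ) (φ : Ω × Ω → α) :
    ent (S.w4 τ X Y) (fun x => φ x.1) = ent (S.v τ) φ :=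
  ent_gl_fst (S.isPr_v τ) (fun _ => rfl) φ

theorem ent_w4_2 {α : Type*} (τ X Y : ℚ) (φ : Ω × Ω → α) :
    ent (S.w4 τ X Y) (fun x => φ x.2) = ent (S.v τ) φ :=
  ent_gl_snd (S.isPr_v τ) (S.isPr_v τ) (fun _ => rfl) φ

/-- the entropy of the cycle -/
noncomputable def hq (τ X Y : ℚ) : ℝ := 2 * (2 * S.h - S.H τ) - S.G τ X Y

/-- all four directions -/
def J4 (x : (Ω × Ω) × (Ω × Ω)) : (V × V) × (V × V) :=
  ((S.B x.1.1, S.B x.1.2), (S.B x.2.1, S.B x.2.2))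

theorem ent_w4 (τ X Y : ℚ) : ent (S.w4 τ X Y) S.J4 = S.hq τ X Y := by
  have hdet : Det (S.v τ) (fun x => (S.B x.1, S.B x.2))
      (fun x => (S.P (τ + X) x.1, S.P (τ + Y) x.2)) := by
    intro x y hx hy e
    simp only [Prod.mk.injEq] at e ⊢
    obtain ⟨hx1, hx2, _⟩ := S.v_ne_zero hx
    obtain ⟨hy1, hy2, _⟩ := S.v_ne_zero hy
    exact ⟨S.P_eq _ hx1 hy1 e.1, S.P_eq _ hx2 hy2 e.2⟩
  have h1 := ent_gl (S.isPr_v τ) (S.isPr_v τ) (fun _ => rfl) hdet hdet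
  unfold w4 J4
  rw [h1, S.ent_v]
  unfold hq G
  ring

/-- The functional `L = x + c W_{ya}`. -/
def L4 (τ X c : ℚ) (x : (Ω × Ω) × (Ω × Ω)) : V :=
  S.P τ x.1.1 + X • S.B x.1.1 + c • S.B x.1.2

theorem ent_L4 (τ X Y c : ℚ) : ent (S.w4 τ X Y) (S.L4 τ X c) = S.sig τ X c :=
  S.ent_w4_1 τ X Y (fun x => S.P τ x.1 + X • S.B x.1 + c • S.B x.2)

/-- everything is known once the lines `xa`, `ya`, `xb` are known -/
theorem J4_of {τ X Y : ℚ} (hY : Y ≠ 0) {x y : (Ω × Ω) × (Ω × Ω)} (hx : S.Q4 τ X Y x)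
    (hy : S.Q4 τ X Y y) (e1 : S.B x.1.1 = S.B y.1.1) (e2 : S.B x.1.2 = S.B y.1.2)
    (e3 : S.B x.2.1 = S.B y.2.1) : S.J4 x = S.J4 y := by
  have hne : τ ≠ τ + Y := fun e => hY (by linarith)
  have e4 : S.B x.2.2 = S.B y.2.2 := by
    refine S.B_eq hne ?_ ?_
    · rw [← hx.eb, ← hy.eb]
      exact S.P_eq τ hx.p21 hy.p21 e3
    · rw [← hx.ey, ← hy.ey]
      exact S.P_eq _ hx.p12 hy.p12 e2
  simp only [J4, Prod.mk.injEq]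
  exact ⟨⟨e1, e2⟩, e3, e4⟩

end Sys

end Pool.Agent.MPac5134.SD
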