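import Pool.Agent.Lib.MP_ac5134_an.SD.Defs

/-!
# SD-Sets: the inequality for finite sets

PROOF.  Uniform weight on `ι` (`uni`, `isPr_uni`); `ent_uni_inj` gives `ent (uni ι) b = log |ι|`, `ent_le_log_card`
bounds the slices by `log M` (`M ≥ 1` if `ι` is nonempty and `F` is nonempty; `F` is nonempty, because otherwise
`Ineq 0 α ∅` with `s = -1`, `Ω = Unit` fails for `α > 0`).  Then exponentiate.
-/

open RFold Finset

namespace Pool.Agent.MPac5134.SD

theorem Ineq.nonempty {α : ℝ} (hα : 0 < α) {F : Finset ℚ} (h : Ineq 0 α F) : F.Nonempty := by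
  by_contra hF
  rw [Finset.not_nonempty_iff_eq_empty] at hF
  subst hF
  have hp : IsPr (uni Unit) := isPr_uni
  have h1 := h ℚ Unit (uni Unit) (fun _ => 0) (fun _ => 0) (-1) hp (fun _ _ _ _ _ => rfl)
    (fun t ht => absurd ht (Finset.notMem_empty t))
  have h2 : 0 ≤ ent (uni Unit) (fun _ : Unit => (0 : ℚ)) := ent_nonneg hp _
  linarith

open Classical in
theorem card_le {α : ℝ} (hα : 0 < α) {F : Finset ℚ} (h : Ineq 0 α F) {V : Type} [AddCommGroup V]
    [Module ℚ V] {ι : Type} [Fintype ι] (a b : ι → V) (hb : Function.Injective b) {M : ℝ}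
    (hM0 : 0 ≤ M)
    (hM : ∀ t ∈ F, (((Finset.univ : Finset ι).image fun i => a i + t • b i).card : ℝ) ≤ M) :
    (Fintype.card ι : ℝ) ≤ M ^ α := by
  rcases isEmpty_or_nonempty ι with hι | hι
  · rw [Fintype.card_eq_zero]
    push_cast
    exact Real.rpow_nonneg hM0 α
  · have hp : IsPr (uni ι) := isPr_uni
    have himg : ∀ t ∈ F,
        (1 : ℝ) ≤ (((Finset.univ : Finset ι).image fun i => a i + t • b i).card : ℝ) := by
      intro t _
      have h1 : 0 < ((Finset.univ : Finset ι).image fun i => a i + t • b i).card :=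
        card_pos.mpr ((univ_nonempty (α := ι)).image _)
      exact_mod_cast h1
    obtain ⟨t0, ht0⟩ := h.nonempty hα
    have hM1 : 1 ≤ M := (himg t0 ht0).trans (hM t0 ht0)
    have hMpos : 0 < M := by linarith
    have h1 := h V ι (uni ι) a b (Real.log M) hp
      (fun i j _ _ hij => by rw [hb hij]) (fun t ht => by
        refine (ent_le_log_card hp _ ((Finset.univ : Finset ι).image fun i => a i + t • b i)
          (fun i _ => mem_image_of_mem _ (mem_univ i))).trans ?_
        exact Real.log_le_log (by linarith [himg t ht]) (hM t ht))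
    rw [ent_uni_inj hb] at h1
    have hc : (0 : ℝ) < Fintype.card ι := by exact_mod_cast Fintype.card_pos
    rw [← Real.exp_log hc, Real.rpow_def_of_pos hMpos]
    refine Real.exp_le_exp.mpr ?_
    linarith

end Pool.Agent.MPac5134.SD
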