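import Pool.Agent.Lib.MP_ac5134_an.SD.Trip
import Pool.Agent.Lib.MP_ac5134_an.SD.Alg
import Pool.Agent.Lib.MP_ac5134_an.SD.P3Fam
import Pool.Agent.Lib.MP_ac5134_an.SD.LTree
import Pool.Agent.Lib.MP_ac5134_an.SD.LK4

/-!
# The improvement step
-/

open RFold Finset

namespace Pool.Agent.MPac5134.SD

section

variable (F1 : Finset ℚ) (E : ℕ)

namespace Shape

/-- positions of points on the first lines -/
def AX (s : Shape) : Finset ℚ :=
  {s.1, s.2.1, s.xi, s.rho, s.rho + s.bet} ∪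
    (s.FK F1).image (fun t => s.xi + (s.rho - s.xi) * (t / (t - 1))) ∪
    F1.image (fun t => s.rho + t * s.bet)

/-- positions of points on the second lines -/
def AY (s : Shape) : Finset ℚ :=
  {s.2.2 * s.1 / (s.1 * (1 + s.2.2) - 1), s.2.2 * s.2.1 / (s.2.1 * (1 + s.2.2) - 1)} ∪
    (s.AX F1).image (fun a => a / (a - 1) / 2)

theorem mem_AX1 (s : Shape) : s.1 ∈ s.AX F1 :=
  mem_union_left _ (mem_union_left _ (mem_insert_self _ _))

theorem mem_AX2 (s : Shape) : s.2.1 ∈ s.AX F1 :=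
  mem_union_left _ (mem_union_left _ (mem_insert_of_mem (mem_insert_self _ _)))

theorem mem_AX3 (s : Shape) : s.xi ∈ s.AX F1 :=
  mem_union_left _ (mem_union_left _ (mem_insert_of_mem (mem_insert_of_mem
    (mem_insert_self _ _))))

theorem mem_AX4 (s : Shape) : s.rho ∈ s.AX F1 :=
  mem_union_left _ (mem_union_left _ (mem_insert_of_mem (mem_insert_of_mem
    (mem_insert_of_mem (mem_insert_self _ _)))))

theorem mem_AX5 (s : Shape) : s.rho + s.bet ∈ s.AX F1 :=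
  mem_union_left _ (mem_union_left _ (mem_insert_of_mem (mem_insert_of_mem
    (mem_insert_of_mem (mem_insert_of_mem (mem_singleton_self _))))))

theorem mem_AX6 (s : Shape) {t : ℚ} (ht : t ∈ s.FK F1) :
    s.xi + (s.rho - s.xi) * (t / (t - 1)) ∈ s.AX F1 :=
  mem_union_left _ (mem_union_right _
    (mem_image_of_mem (fun t => s.xi + (s.rho - s.xi) * (t / (t - 1))) ht))

theorem mem_AX7 (s : Shape) {t : ℚ} (ht : t ∈ F1) : s.rho + t * s.bet ∈ s.AX F1 :=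
  mem_union_right _ (mem_image_of_mem (fun t => s.rho + t * s.bet) ht)

theorem mem_AY1 (s : Shape) : s.2.2 * s.1 / (s.1 * (1 + s.2.2) - 1) ∈ s.AY F1 :=
  mem_union_left _ (mem_insert_self _ _)

theorem mem_AY2 (s : Shape) : s.2.2 * s.2.1 / (s.2.1 * (1 + s.2.2) - 1) ∈ s.AY F1 :=
  mem_union_left _ (mem_insert_of_mem (mem_singleton_self _))

theorem mem_AY3 (s : Shape) {a : ℚ} (ha : a ∈ s.AX F1) : a / (a - 1) / 2 ∈ s.AY F1 :=
  mem_union_right _ (mem_image_of_mem (fun a => a / (a - 1) / 2) ha)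

/-- factors of the scales -/
def RR (s : Shape) : Finset ℚ := {s.2.2, 1 + s.2.2, (1 + s.2.2) / (2 * s.2.2)}

theorem mem_RR1 (s : Shape) : s.2.2 ∈ s.RR := mem_insert_self _ _

theorem mem_RR2 (s : Shape) : 1 + s.2.2 ∈ s.RR := mem_insert_of_mem (mem_insert_self _ _)

theorem mem_RR3 (s : Shape) : (1 + s.2.2) / (2 * s.2.2) ∈ s.RR :=
  mem_insert_of_mem (mem_insert_of_mem (mem_singleton_self _))

end Shape

/-- all shapes -/
def shp : Finset Shape := (range (E + 1)).biUnion (Shape.lev F1)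

/-- all positions on the first lines -/
def AA : Finset ℚ := {0, 1} ∪ (shp F1 E).biUnion (Shape.AX F1)

/-- all positions on the second lines -/
def BB : Finset ℚ := {0, -1, 1} ∪ F1.image (fun t => -t) ∪ (shp F1 E).biUnion (Shape.AY F1)

/-- all factors of the scales -/
def RA : Finset ℚ := {2} ∪ F1.image (fun θ => θ / (θ - 1)) ∪ (shp F1 E).biUnion Shape.RR

/-- all heights -/
noncomputable def hts : Finset ℚ :=
  {0, 1} ∪ ((univ : Finset (KK (RA F1 E) E)) ×ˢ (AA F1 E) ×ˢ (BB F1 E)).image fun p =>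
    tt (RA F1 E) E p.1.1 + p.2.1 * -mm (RA F1 E) E p.1.2.1 + p.2.2 * mm (RA F1 E) E p.1.2.2

variable {F1 E}

theorem mem_hts {κ : KK (RA F1 E) E} {a b : ℚ} (ha : a ∈ AA F1 E) (hb : b ∈ BB F1 E) :
    tt (RA F1 E) E κ.1 + a * -mm (RA F1 E) E κ.2.1 + b * mm (RA F1 E) E κ.2.2 ∈ hts F1 E :=
  mem_union_right _ (mem_image.mpr ⟨(κ, a, b),
    mem_product.mpr ⟨mem_univ _, mem_product.mpr ⟨ha, hb⟩⟩, rfl⟩)

theorem mem_shp {j : ℕ} (hj : j ≤ E) {s : Shape} (hs : s ∈ Shape.lev F1 j) : s ∈ shp F1 E :=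
  mem_biUnion.mpr ⟨j, mem_range.mpr (by omega), hs⟩

theorem mem_AA {s : Shape} (hs : s ∈ shp F1 E) {a : ℚ} (ha : a ∈ s.AX F1) : a ∈ AA F1 E :=
  mem_union_right _ (mem_biUnion.mpr ⟨s, hs, ha⟩)

theorem mem_BB {s : Shape} (hs : s ∈ shp F1 E) {a : ℚ} (ha : a ∈ s.AY F1) : a ∈ BB F1 E :=
  mem_union_right _ (mem_biUnion.mpr ⟨s, hs, ha⟩)

theorem mem_RA {s : Shape} (hs : s ∈ shp F1 E) {a : ℚ} (ha : a ∈ s.RR) : a ∈ RA F1 E :=
  mem_union_right _ (mem_biUnion.mpr ⟨s, hs, ha⟩)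

theorem shp_ok (hF : ∀ t ∈ F1, 1 < t) {s : Shape} (hs : s ∈ shp F1 E) : s.Ok := by
  obtain ⟨j, _, h⟩ := mem_biUnion.mp hs
  exact Shape.lev_ok hF h

theorem RA_pos (hF : ∀ t ∈ F1, 1 < t) : ∀ r ∈ RA F1 E, 0 < r := by
  intro r hr
  rcases mem_union.mp hr with hr | hr
  · rcases mem_union.mp hr with hr | hr
    · rw [mem_singleton.mp hr]
      norm_num
    · obtain ⟨θ, hθ, rfl⟩ := mem_image.mp hr
      have := hF θ hθ
      exact div_pos (by linarith) (by linarith)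
  · obtain ⟨s, hs, h⟩ := mem_biUnion.mp hr
    have h3 := (shp_ok hF hs).h3
    simp only [Shape.RR, mem_insert, mem_singleton] at h
    rcases h with rfl | rfl | rfl <;> positivity

end

theorem step {α : ℝ} (h1 : 1 < α) (h2 : α ≤ 2) {F : Finset ℚ} (hI : Ineq 0 α F) {ε : ℝ}
    (hε : 0 < ε) : ∃ F' : Finset ℚ, Ineq 0 (Psi α + ε) F' := by
  classical
  obtain ⟨F1, hF1, hI1⟩ := hI.exists_gt
  -- the size `E`
  obtain ⟨E, hE0, hE⟩ : ∃ E : ℕ, 0 < E ∧ cst α * 8 / E ≤ ε := by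
    obtain ⟨E, hE⟩ := exists_nat_gt (cst α * 8 / ε)
    refine ⟨E + 1, Nat.succ_pos _, ?_⟩
    rw [div_lt_iff₀ hε] at hE
    rw [div_le_iff₀ (by positivity)]
    push_cast
    nlinarith
  have hEr : (0 : ℝ) < E := by exact_mod_cast hE0
  set R : Finset ℚ := RA F1 E with hR
  have hRpos : ∀ r ∈ R, 0 < r := RA_pos hF1
  have hR2 : (2 : ℚ) ∈ R := by simp [hR, RA]
  have hRθ : ∀ θ ∈ F1, θ / (θ - 1) ∈ R := fun θ hθ =>
    mem_union_left _ (mem_union_right _ (mem_image_of_mem _ hθ))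
  refine ⟨hts F1 E, ?_⟩
  intro V _ _ Ω _ p A B s hp hdet hs
  let S : Sys V Ω := ⟨p, A, B, hp, hdet⟩
  have hH : ∀ t ∈ hts F1 E, S.H t ≤ s := hs
  have hH' : ∀ (κ : KK R E) (a b : ℚ), a ∈ AA F1 E → b ∈ BB F1 E →
      S.H (tt R E κ.1 + a * -mm R E κ.2.1 + b * mm R E κ.2.2) ≤ s := fun κ a b ha hb =>
    hH _ (mem_hts ha hb)
  have hb0 : (0 : ℚ) ∈ BB F1 E := by simp [BB]
  have ha0 : (0 : ℚ) ∈ AA F1 E := by simp [AA]
  have ha1 : (1 : ℚ) ∈ AA F1 E := by simp [AA]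
  have hX : ∀ (κ : KK R E) {a : ℚ}, a ∈ AA F1 E →
      S.H (tt R E κ.1 + a * -mm R E κ.2.1) ≤ s := fun κ a ha => by
    have := hH' κ a 0 ha hb0
    rwa [zero_mul, add_zero] at this
  have hY : ∀ (κ : KK R E) {b : ℚ}, b ∈ BB F1 E →
      S.H (tt R E κ.1 + b * mm R E κ.2.2) ≤ s := fun κ b hb => by
    have := hH' κ 0 b ha0 hb
    rwa [zero_mul, add_zero] at this
  have hY2 : ∀ (κ : KK R E) {σ : Shape} {a : ℚ}, σ ∈ shp F1 E → a ∈ σ.AX F1 →
      S.H (tt R E κ.1 + a / (a - 1) * (mm R E κ.2.2 / 2)) ≤ s := fun κ σ a hσ ha => by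
    have := hY κ (mem_BB hσ (Shape.mem_AY3 F1 σ ha))
    have e : a / (a - 1) / 2 * mm R E κ.2.2 = a / (a - 1) * (mm R E κ.2.2 / 2) := by ring
    rwa [e] at this
  have hs0 : 0 ≤ s := (ent_nonneg hp _).trans (hH 0 (by simp [hts]))
  have hh : S.h ≤ 2 * s := by
    have e1 := S.h_le 0 1 (by norm_num)
    have e2 := hH 0 (by simp [hts])
    have e3 := hH 1 (by simp [hts])
    linarith
  have hτ : ∀ κ : KK R E, S.H (tt R E κ.1) ≤ s := fun κ => by
    have := hX κ ha0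
    rwa [zero_mul, add_zero] at this
  -- bounds
  have hsig : ∀ t x y : ℚ, |S.sig t x y| ≤ 4 * s := by
    intro t x y
    rw [abs_of_nonneg (S.sig_nonneg t x y)]
    linarith [S.sig_le t x y]
  have hG : ∀ t x y : ℚ, |S.G t x y| ≤ 4 * s := by
    intro t x y
    rw [abs_of_nonneg (S.G_nonneg t x y)]
    linarith [S.G_le t x y]
  have hpp : ∀ t x y θ θ' e : ℚ, |S.pp t x y θ θ' e| ≤ 8 * s := by
    intro t x y θ θ' e
    rw [abs_of_nonneg (S.pp_nonneg t x y θ θ' e)]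
    linarith [S.pp_le_h t x y θ θ' e]
  set δ : ℝ := 2 * (4 * s) / E with hδ
  have hδ0 : 0 ≤ δ := by positivity
  have hδ2 : 2 * (8 * s) / E = 2 * δ := by rw [hδ]; ring
  set σs : ℝ := T R E (fun t x y => S.sig t (-x) y) with hσs
  set Gs : ℝ := T R E (fun t x y => S.G t (-x) y) with hGs
  set w : KK R E → ℝ := fun _ => (Fintype.card (KK R E) : ℝ)⁻¹ with hw
  have hw0 : ∀ κ, 0 ≤ w κ := fun κ => inv_nonneg.mpr (Nat.cast_nonneg _)
  have hw1 : ∑ κ, w κ = 1 := sum_w hE0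
  have hwc : ∀ a : ℝ, ∑ κ, w κ * a = a := fun a => by rw [← sum_mul, hw1, one_mul]
  have hT : ∀ f : ℚ → ℚ → ℚ → ℝ, ∑ κ : KK R E, w κ * f (tt R E κ.1) (mm R E κ.2.1)
      (mm R E κ.2.2) = T R E f := fun f => rfl
  have hm : ∀ e : Im R E, mm R E e ≠ 0 := fun e => (mm_pos hRpos e).ne'
  have hmn : ∀ e : Im R E, -mm R E e ≠ 0 := fun e => neg_ne_zero.mpr (hm e)
  -- (P3)
  have hP3 := p3_fam S h1.le hI1 hF1 (I := KK R E) (w := w) hw0 hw1
    (fun κ => tt R E κ.1) (fun κ => mm R E κ.2.1) (fun κ => -mm R E κ.2.2)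
    (fun κ => mm R E κ.2.2) (fun κ => hm _) (fun κ => hmn _) (fun κ => hm _)
    (s := s) (σm := σs + δ)
    (fun κ => by
      have := hX κ ha1
      rwa [one_mul, ← sub_eq_add_neg] at this)
    (fun κ => hτ κ)
    (fun κ => by
      have := hH' κ 1 (-1) ha1 (by simp [BB])
      have e : tt R E κ.1 + 1 * -mm R E κ.2.1 + -1 * mm R E κ.2.2 =
          tt R E κ.1 - mm R E κ.2.1 + -mm R E κ.2.2 := by ring
      rwa [e] at this)
    (fun κ θ hθ => by
      have := hH' κ 1 (-θ) ha1 (by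
        refine mem_union_left _ (mem_union_right _ ?_)
        exact mem_image_of_mem (fun t : ℚ => -t) hθ)
      have e : tt R E κ.1 + 1 * -mm R E κ.2.1 + -θ * mm R E κ.2.2 =
          tt R E κ.1 - mm R E κ.2.1 + θ * -mm R E κ.2.2 := by ring
      rwa [e] at this)
    (fun θ hθ => by
      have e1 := hT (fun t x y => S.sig t (-x) (y * (θ / (θ - 1))))
      rw [e1]
      have e2 := T_y hE0 (R := R) (f := fun t x y => S.sig t (-x) y)
        (fun t x y => hsig t (-x) y) (hRθ θ hθ)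
      simp only [mul_comm (θ / (θ - 1))] at e2
      have e3 := (abs_le.mp e2).2
      linarith)
  have hGT : Gs - δ ≤ ∑ κ : KK R E, w κ * S.G (tt R E κ.1 - mm R E κ.2.1) (-mm R E κ.2.2)
      (mm R E κ.2.1) := by
    have e1 := hT (fun t x y => S.G (t - x) (-y) x)
    rw [e1]
    have e2 := T_t hE0 (R := R) (f := fun t x y => S.G t (-y) x) (fun t x y => hG t (-y) x)
    rw [T_swap (fun t x y => S.G t (-x) y)] at e2
    have e3 := (abs_le.mp e2).1
    linarith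
  have hA : 3 * S.h - 2 * s + (α - 1) * (S.h - 2 * s + (Gs - δ)) ≤ α * (s + (σs + δ)) := by
    have e4 := mul_le_mul_of_nonneg_left hGT (by linarith : (0 : ℝ) ≤ α - 1)
    nlinarith
  -- the planes
  let Pl : Shape → ℝ := fun σ => T R E (fun t x y => S.pp t (-x) y σ.1 σ.2.1 σ.2.2)
  have hPl0 : ∀ σ, 0 ≤ Pl σ := fun σ =>
    sum_nonneg fun κ _ => mul_nonneg (hw0 κ) (S.pp_nonneg _ _ _ _ _ _)
  have hPl8 : ∀ σ, Pl σ ≤ 8 * s := fun σ => by
    have e1 : Pl σ ≤ ∑ κ : KK R E, w κ * (8 * s) :=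
      sum_le_sum fun κ _ => mul_le_mul_of_nonneg_left (le_of_abs_le (hpp _ _ _ _ _ _)) (hw0 κ)
    rwa [hwc] at e1
  obtain ⟨j, hj, σ, hσj, hσ⟩ := Shape.ladder (F := F1) (P := Pl) E (C := 8 * s) (ε := δ)
    (by rw [hδ]; field_simp; linarith) hPl0 (fun σ _ => hPl8 σ) hE0
  have hσm : σ ∈ shp F1 E := mem_shp hj.le hσj
  have hσo : σ.Ok := shp_ok hF1 hσm
  have hR1 : 1 + σ.2.2 ∈ R := mem_RA hσm σ.mem_RR2
  -- upper bound for the planes
  have hPlu : Pl σ ≤ 4 * s - σs + 3 * δ := by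
    have he1 : (1 + σ.2.2) ≠ 0 := by
      have := hσo.h3
      positivity
    have e1 := hT (fun t x y => S.sig t (-x / (1 + σ.2.2)) (σ.2.2 * y / (1 + σ.2.2)))
    have e2 := T_y hE0 (R := R) (f := fun t x y => S.sig t (-x) y)
      (fun t x y => hsig t (-x) y) (mem_RA hσm σ.mem_RR1)
    have e3 := T_y' hE0 (R := R) (f := fun t x y => S.sig t (-x) (σ.2.2 * y))
      (fun t x y => hsig t (-x) _) hR1 he1
    have e4 := T_x' hE0 (R := R) (f := fun t x y => S.sig t (-x) (σ.2.2 * (y / (1 + σ.2.2))))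
      (fun t x y => hsig t (-x) _) hR1 he1
    have e5 : T R E (fun t x y => S.sig t (-x / (1 + σ.2.2)) (σ.2.2 * y / (1 + σ.2.2))) =
        T R E (fun t x y => S.sig t (-(x / (1 + σ.2.2))) (σ.2.2 * (y / (1 + σ.2.2)))) := by
      congr 1
      funext t x y
      rw [neg_div, mul_div_assoc]
    have f2 := (abs_le.mp e2).1
    have f3 := (abs_le.mp e3).1
    have f4 := (abs_le.mp e4).1
    have e6 : Pl σ ≤ ∑ κ : KK R E, (w κ * (4 * s) - w κ * S.sig (tt R E κ.1)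
        (-mm R E κ.2.1 / (1 + σ.2.2)) (σ.2.2 * mm R E κ.2.2 / (1 + σ.2.2))) := by
      refine sum_le_sum fun κ _ => ?_
      rw [← mul_sub]
      refine mul_le_mul_of_nonneg_left ?_ (hw0 κ)
      have e7 := S.pp_le (τ := tt R E κ.1) (X := -mm R E κ.2.1) (Y := mm R E κ.2.2)
        hσo.h1 hσo.h2 hσo.h3
      have e8 := hX κ (mem_AA hσm (σ.mem_AX1 F1))
      have e9 := hX κ (mem_AA hσm (σ.mem_AX2 F1))
      have e10 := hY κ (mem_BB hσm (σ.mem_AY1 F1))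
      have e11 := hY κ (mem_BB hσm (σ.mem_AY2 F1))
      linarith
    rw [sum_sub_distrib, hwc, e1, e5] at e6
    linarith
  have hxi0 : 1 < σ.rho := hσo.rho_gt
  have hxi1 : σ.rho < σ.xi := hσo.xi_gt
  have hbet := hσo.bet_pos
  have hAX : ∀ a ∈ σ.AX F1, a ∈ AA F1 E := fun a ha => mem_AA hσm ha
  have mxi := σ.mem_AX3 F1
  have mrho := σ.mem_AX4 F1
  have mrb := σ.mem_AX5 F1
  have mFK : ∀ t ∈ σ.FK F1, σ.xi + (σ.rho - σ.xi) * (t / (t - 1)) ∈ σ.AX F1 := fun t ht =>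
    σ.mem_AX6 F1 ht
  have mF1 : ∀ t ∈ F1, σ.rho + t * σ.bet ∈ σ.AX F1 := fun t ht => σ.mem_AX7 F1 ht
  -- `N`
  set fq : ℝ := ∑ κ : KK R E, w κ * S.hq (tt R E κ.1) (-mm R E κ.2.1) (mm R E κ.2.2) with hfq
  set n1 : ℝ := (α * (Pl σ + δ) - fq) / (α - 1) with hn1
  have hN : ∀ t ∈ σ.FK F1, ∀ t' ∈ F1, ∑ κ : KK R E, w κ * ent (S.w4 (tt R E κ.1)
      (-mm R E κ.2.1) (mm R E κ.2.2)) (S.Nx (tt R E κ.1) (-mm R E κ.2.1) (mm R E κ.2.2 / 2)
        σ.xi (t * (t' / (t' - 1)))) ≤ n1 := by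
    intro t ht t' ht'
    have hu := Shape.uu_pos (Shape.FK_gt hF1 hσo ht).1 (hF1 t' ht')
    refine nx_fam S h1 (hI1.image_add σ.xi) (ξ := σ.xi) (k := 2) ?_ ?_ (by norm_num) ?_
      (I := KK R E) (w := w) hw0 (fun κ => tt R E κ.1) (fun κ => -mm R E κ.2.1)
      (fun κ => mm R E κ.2.2) (fun κ => hmn _) (fun κ => hm _) (P := Pl σ + δ)
      (u := Shape.uu t t') hu ?_
    · intro θ hθ
      linarith [(Shape.FN_gt hF1 hσo hθ).2]
    · intro θ hθ
      exact (Shape.FN_gt hF1 hσo hθ).1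
    · intro θ hθ
      exact Shape.two_gt (Shape.FN_gt hF1 hσo hθ).2
    · intro θ hθ
      exact hσ (θ, Sys.rx θ σ.xi (Shape.uu t t'), ee 2 θ)
        (mem_image.mpr ⟨(θ, t, t'), mem_product.mpr ⟨hθ, mem_product.mpr ⟨ht, ht'⟩⟩, rfl⟩)
  -- `N₂`
  set fk : ℝ := ∑ κ : KK R E, w κ * S.hc (tt R E κ.1) (-mm R E κ.2.1) (mm R E κ.2.2)
    (mm R E κ.2.2 / 2) σ.xi with hfk
  set sg : ℝ := ∑ κ : KK R E, w κ * S.sig (tt R E κ.1) (-mm R E κ.2.1) (mm R E κ.2.2 / 2)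
    with hsg
  set n2 : ℝ := (α * (n1 + 2 * s - sg) - fk) / (α - 1) with hn2
  have hα1 : 0 < α - 1 := by linarith
  have hm2 : ∀ κ : KK R E, mm R E κ.2.2 / 2 ≠ 0 := fun κ =>
    div_ne_zero (hm _) (by norm_num)
  have hN2 : ∀ t' ∈ F1, ∑ κ : KK R E, w κ * ent (S.wc (tt R E κ.1) (-mm R E κ.2.1)
      (mm R E κ.2.2) (mm R E κ.2.2 / 2) σ.xi) (S.N3 (tt R E κ.1) (-mm R E κ.2.1)
        (mm R E κ.2.2 / 2) σ.xi (σ.rho - σ.xi) (t' / (t' - 1))) ≤ n2 := by
    intro t' ht'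
    have ht1 := hF1 t' ht'
    have e1 := n3_fam S (hI1.image_add ((σ.xi - σ.rho) / (σ.rho - 1)))
      (fun t ht => (Shape.FK_gt hF1 hσo ht).1) (ξ := σ.xi) (κ := σ.rho - σ.xi)
      (b := t' / (t' - 1)) (by linarith) (by linarith) (by linarith)
      (div_ne_zero (by linarith) (by linarith))
      (fun t ht => by linarith [Shape.pos_c hF1 hσo ht])
      (fun t ht => by linarith [Shape.pos_c hF1 hσo ht])
      (I := KK R E) (w := w) hw0 hw1 (fun κ => tt R E κ.1) (fun κ => -mm R E κ.2.1)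
      (fun κ => mm R E κ.2.2) (fun κ => mm R E κ.2.2 / 2) (fun κ => hmn _) (fun κ => hm _)
      (fun κ => hm2 κ) (s := s) (n1 := n1)
      (fun κ t ht => hX κ (hAX _ (mFK t ht))) (fun κ t ht => hY2 κ hσm (mFK t ht))
      (fun t ht => hN t ht t' ht')
    rw [hn2, le_div_iff₀ hα1, mul_comm]
    exact e1
  -- `M`
  have hM := m4_fam S h1 hI1 hF1 (ξ := σ.xi) (ρ := σ.rho) (β := σ.bet)
    (by linarith) (by linarith) (by linarith) (by linarith) (by linarith) (by linarith)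
    (by linarith) (by linarith)
    (fun t ht => by
      have := hF1 t ht
      nlinarith)
    (fun t ht => by
      have := hF1 t ht
      nlinarith)
    (I := KK R E) (w := w) hw0 hw1 (fun κ => tt R E κ.1) (fun κ => -mm R E κ.2.1)
    (fun κ => mm R E κ.2.2) (fun κ => mm R E κ.2.2 / 2) (fun κ => hmn _) (fun κ => hm _)
    (fun κ => hm2 κ) (s := s) (n2 := n2)
    (fun κ => hX κ (hAX _ mxi)) (fun κ => hY2 κ hσm mxi)
    (fun κ => hX κ (hAX _ mrb)) (fun κ => hY2 κ hσm mrb)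
    (fun κ t ht => hX κ (hAX _ (mF1 t ht))) (fun κ t ht => hY2 κ hσm (mF1 t ht))
    (fun t ht => hN2 t ht)
  set fd : ℝ := ∑ κ : KK R E, w κ * S.hd (tt R E κ.1) (-mm R E κ.2.1) (mm R E κ.2.2)
    (mm R E κ.2.2 / 2) σ.xi σ.rho with hfd
  set P' : ℝ := ∑ κ : KK R E, w κ * S.pp (tt R E κ.1) (σ.rho * -mm R E κ.2.1)
    (σ.rho / (σ.rho - 1) * (mm R E κ.2.2 / 2)) (σ.xi / σ.rho) ((σ.rho + σ.bet) / σ.rho)
    (σ.rho - 1) with hP'
  -- the lower bounds
  have hsg2 : σs - δ ≤ sg := by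
    have e1 := hT (fun t x y => S.sig t (-x) (y / 2))
    rw [hsg, e1]
    have e2 := T_y' hE0 (R := R) (f := fun t x y => S.sig t (-x) y)
      (fun t x y => hsig t (-x) y) hR2 (by norm_num)
    have e3 := (abs_le.mp e2).1
    linarith
  have hP2 : Pl σ - 4 * δ ≤ P' := by
    have he := hσo.h3
    have he1 : (1 + σ.2.2) ≠ 0 := by positivity
    have he2 : σ.2.2 ≠ 0 := he.ne'
    have e1 : P' = T R E (fun t x y => S.pp t (-((1 + σ.2.2) * x))
        ((1 + σ.2.2) / (2 * σ.2.2) * y) σ.1 σ.2.1 σ.2.2) := by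
      rw [hP', ← hT]
      refine sum_congr rfl fun κ _ => ?_
      congr 1
      have c1 : σ.rho * -mm R E κ.2.1 = -((1 + σ.2.2) * mm R E κ.2.1) := by
        unfold Shape.rho
        ring
      have c2 : σ.rho / (σ.rho - 1) * (mm R E κ.2.2 / 2) =
          (1 + σ.2.2) / (2 * σ.2.2) * mm R E κ.2.2 := by
        unfold Shape.rho
        have : 1 + σ.2.2 - 1 = σ.2.2 := by ring
        rw [this]
        field_simp
      have c3 : σ.xi / σ.rho = σ.1 := by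
        unfold Shape.rho Shape.xi
        field_simp
      have c4 : (σ.rho + σ.bet) / σ.rho = σ.2.1 := by
        unfold Shape.rho Shape.bet
        field_simp
        ring
      have c5 : σ.rho - 1 = σ.2.2 := by
        unfold Shape.rho
        ring
      rw [c1, c2, c3, c4, c5]
    rw [e1]
    have e2 := T_y hE0 (R := R) (f := fun t x y => S.pp t (-x) y σ.1 σ.2.1 σ.2.2)
      (fun t x y => hpp t (-x) y _ _ _)
      (mem_RA hσm σ.mem_RR3)
    have e3 := T_x hE0 (R := R) (f := fun t x y => S.pp t (-x)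
      ((1 + σ.2.2) / (2 * σ.2.2) * y) σ.1 σ.2.1 σ.2.2) (fun t x y => hpp t (-x) _ _ _ _) hR1
    rw [hδ2] at e2 e3
    have f2 := (abs_le.mp e2).1
    have f3 := (abs_le.mp e3).1
    have e4 : Pl σ = T R E (fun t x y => S.pp t (-x) y σ.1 σ.2.1 σ.2.2) := rfl
    linarith
  have hGs2 : Gs ≤ 2 * s := by
    have e1 : Gs ≤ ∑ κ : KK R E, w κ * (2 * s) := by
      rw [hGs, ← hT]
      refine sum_le_sum fun κ _ => mul_le_mul_of_nonneg_left ?_ (hw0 κ)
      have e2 := S.G_le' (tt R E κ.1) (-mm R E κ.2.1) (mm R E κ.2.2)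
      have e3 := hX κ ha1
      rw [one_mul] at e3
      have e4 := hY κ (show (1 : ℚ) ∈ BB F1 E by simp [BB])
      rw [one_mul] at e4
      linarith
    rwa [hwc] at e1
  have hfq2 : 4 * S.h - 2 * s - Gs ≤ fq := by
    have e1 : 4 * S.h - 2 * s - Gs = ∑ κ : KK R E, (w κ * (4 * S.h - 2 * s) -
        w κ * S.G (tt R E κ.1) (-mm R E κ.2.1) (mm R E κ.2.2)) := by
      rw [sum_sub_distrib, hwc, hGs, ← hT]
    rw [e1, hfq]
    refine sum_le_sum fun κ _ => ?_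
    rw [← mul_sub]
    refine mul_le_mul_of_nonneg_left ?_ (hw0 κ)
    have e3 := hτ κ
    unfold Sys.hq
    linarith
  have hfk2 : fq + 2 * S.h - 3 * s ≤ fk := by
    have e1 : fq + 2 * S.h - 3 * s = ∑ κ : KK R E, (w κ * S.hq (tt R E κ.1) (-mm R E κ.2.1)
        (mm R E κ.2.2) + w κ * (2 * S.h - 3 * s)) := by
      rw [sum_add_distrib, hwc, hfq]
      ring
    rw [e1, hfk]
    refine sum_le_sum fun κ _ => ?_
    rw [← mul_add]
    refine mul_le_mul_of_nonneg_left ?_ (hw0 κ)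
    have e3 := hτ κ
    have e4 := S.G_le' (tt R E κ.1) (σ.xi * -mm R E κ.2.1)
      (σ.xi / (σ.xi - 1) * (mm R E κ.2.2 / 2))
    have e5 := hX κ (hAX _ mxi)
    have e6 := hY2 κ hσm mxi
    unfold Sys.hc
    linarith
  have hfd2 : fk + 2 * S.h - 3 * s ≤ fd := by
    have e1 : fk + 2 * S.h - 3 * s = ∑ κ : KK R E, (w κ * S.hc (tt R E κ.1) (-mm R E κ.2.1)
        (mm R E κ.2.2) (mm R E κ.2.2 / 2) σ.xi + w κ * (2 * S.h - 3 * s)) := by
      rw [sum_add_distrib, hwc, hfk]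
      ring
    rw [e1, hfd]
    refine sum_le_sum fun κ _ => ?_
    rw [← mul_add]
    refine mul_le_mul_of_nonneg_left ?_ (hw0 κ)
    have e3 := hτ κ
    have e4 := S.G_le' (tt R E κ.1) (σ.rho * -mm R E κ.2.1)
      (σ.rho / (σ.rho - 1) * (mm R E κ.2.2 / 2))
    have e5 := hX κ (hAX _ mrho)
    have e6 := hY2 κ hσm mrho
    unfold Sys.hd
    linarith
  have hB : (α - 1) * n2 ≤ α * ((α * (Pl σ + δ) - fq) / (α - 1) + 2 * s - sg) - fk := by
    rw [hn2, hn1, mul_div_cancel₀ _ hα1.ne']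
  have hfin := final_alg h1 h2 hGs2 hfq2 hfk2 hfd2 hsg2 hPlu hP2 hA hB hM
  have e1 : S.h = ent p B := rfl
  rw [← e1, zero_mul, zero_add]
  refine hfin.trans ?_
  have e2 : cst α * δ = cst α * 8 / E * s := by
    rw [hδ]
    ring
  rw [e2, add_mul]
  have e3 := mul_le_mul_of_nonneg_right hE hs0
  linarith

end Pool.Agent.MPac5134.SD
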