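import Pool.Agent.Lib.MP_ac5134_an.SD.Main
import Pool.Agent.Lib.MP_ac5134_an.SD.Sets

/-!
# The sums-differences theorem for finite sets, exponent `1.66959`
-/

namespace Pool.Agent.MPac5134.SD

/-- There is a finite set `F` of rational slopes such that every finite set `G` of pairs `(a, b)` in
a rational vector space, with `(a, b) ↦ b` injective on `G` and at most `M` values of `a + t b` for
every `t ∈ F`, has at most `M ^ 1.66959` elements. -/
theorem sums_differences :
    ∃ F : Finset ℚ, ∀ (V : Type) [AddCommGroup V] [Module ℚ V] (G : Set (V × V)) (M : ℝ),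
      G.Finite → Set.InjOn Prod.snd G →
      (∀ t ∈ F, (((fun g : V × V => g.1 + t • g.2) '' G).ncard : ℝ) ≤ M) →
      (G.ncard : ℝ) ≤ M ^ (1.66959 : ℝ) := by
  obtain ⟨F, hF⟩ := main_ineq
  have hα : (166959 / 100000 : ℝ) = 1.66959 := by norm_num
  rw [hα] at hF
  refine ⟨F, ?_⟩
  classical
  intro V _ _ G M hfin hinj hM
  have : Fintype G := hfin.fintype
  have hM0 : 0 ≤ M := by
    obtain ⟨t, ht⟩ := hF.nonempty (by norm_num)
    exact (Nat.cast_nonneg _).trans (hM t ht)
  have h := card_le (by norm_num) hF (V := V) (ι := G) (fun g => g.1.1) (fun g => g.1.2)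
    (fun g g' e => Subtype.ext (hinj g.2 g'.2 e)) hM0 (fun t ht => by
      refine le_trans (le_of_eq ?_) (hM t ht)
      rw [Nat.cast_inj, ← Set.ncard_coe_finset]
      congr 1
      ext y
      simp only [Finset.coe_image, Finset.coe_univ, Set.image_univ, Set.mem_range, Set.mem_image,
        Subtype.exists]
      constructor
      · rintro ⟨g, hg, rfl⟩
        exact ⟨g, hg, rfl⟩
      · rintro ⟨g, hg, rfl⟩
        exact ⟨g, hg, rfl⟩)
  rwa [← Nat.card_eq_fintype_card, Nat.card_coe_set_eq] at h

end Pool.Agent.MPac5134.SD
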