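import Pool.Agent.Lib.MP_ac5134_an.SD.Glue

/-!
# Systems and the configuration `V` (two lines through a common point)
-/

open RFold Finset

namespace Pool.Agent.MPac5134.SD

/-- A finite random line `t ↦ A + t B` in a rational vector space; the direction `B` determines
the line. -/
structure Sys (V Ω : Type) [AddCommGroup V] [Module ℚ V] [Fintype Ω] where
  p : Ω → ℝ
  A : Ω → V
  B : Ω → V
  hp : IsPr p
  det : Det p B A

variable {V Ω : Type} [AddCommGroup V] [Module ℚ V] [Fintype Ω] (S : Sys V Ω)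

namespace Sys

/-- The point at height `t`. -/
def P (t : ℚ) (ω : Ω) : V := S.A ω + t • S.B ω

/-- The entropy of the slice at height `t`. -/
noncomputable def H (t : ℚ) : ℝ := ent S.p (S.P t)

/-- The entropy of the direction. -/
noncomputable def h : ℝ := ent S.p S.B

/-- Two lines, conditionally independent given their common point at height `τ`. -/
noncomputable def v (τ : ℚ) : Ω × Ω → ℝ := gl S.p S.p (S.P τ) (S.P τ)

/-- The entropy of the functional `P τ + b B₁ + c B₂` of two lines meeting at height `τ`. -/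
noncomputable def sig (τ b c : ℚ) : ℝ :=
  ent (S.v τ) (fun x => S.P τ x.1 + b • S.B x.1 + c • S.B x.2)

/-- The entropy of a pair of points (heights `τ + T`, `τ + T'`) on two lines meeting at height
`τ`. -/
noncomputable def G (τ T T' : ℚ) : ℝ :=
  ent (S.v τ) (fun x => (S.P (τ + T) x.1, S.P (τ + T') x.2))

theorem P_def (t : ℚ) (ω : Ω) : S.P t ω = S.A ω + t • S.B ω := rfl

theorem P_add (t u : ℚ) (ω : Ω) : S.P (t + u) ω = S.P t ω + u • S.B ω := by
  simp only [P_def, add_smul]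
  abel

/-- two different points determine the direction -/
theorem B_eq {t u : ℚ} (h : t ≠ u) {ω ω' : Ω} (h1 : S.P t ω = S.P t ω')
    (h2 : S.P u ω = S.P u ω') : S.B ω = S.B ω' := by
  have h3 : (t - u) • S.B ω = (t - u) • S.B ω' := by
    have e1 : (t - u) • S.B ω = S.P t ω - S.P u ω := by
      simp only [P_def]; module
    have e2 : (t - u) • S.B ω' = S.P t ω' - S.P u ω' := by
      simp only [P_def]; module
    rw [e1, e2, h1, h2]
  exact smul_right_injective V (sub_ne_zero.mpr h) h3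

/-- the direction determines every point -/
theorem P_eq (t : ℚ) {ω ω' : Ω} (hω : S.p ω ≠ 0) (hω' : S.p ω' ≠ 0) (h : S.B ω = S.B ω') :
    S.P t ω = S.P t ω' := by
  simp only [P_def]
  rw [S.det ω ω' hω hω' h, h]

theorem det_P (t : ℚ) : Det S.p S.B (S.P t) := fun _ _ a b e => S.P_eq t a b e

theorem h_nonneg : 0 ≤ S.h := ent_nonneg S.hp _

theorem H_le_h (t : ℚ) : S.H t ≤ S.h := ent_mono S.hp (S.det_P t)

/-- two slices bound the direction -/
theorem h_le (t u : ℚ) (htu : t ≠ u) : S.h ≤ S.H t + S.H u := by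
  have h1 : ent S.p S.B ≤ ent S.p (fun ω => (S.P t ω, S.P u ω)) := by
    refine ent_mono S.hp ?_
    intro ω ω' _ _ e
    exact S.B_eq htu (congrArg Prod.fst e) (congrArg Prod.snd e)
  exact h1.trans (ent_pair_le S.hp _ _)

theorem isPr_v (τ : ℚ) : IsPr (S.v τ) := isPr_gl S.hp S.hp fun _ => rfl

theorem v_ne_zero {τ : ℚ} {x : Ω × Ω} (h : S.v τ x ≠ 0) :
    S.p x.1 ≠ 0 ∧ S.p x.2 ≠ 0 ∧ S.P τ x.1 = S.P τ x.2 := gl_ne_zero h

theorem ent_v_fst {α : Type*} (τ : ℚ) (φ : Ω → α) :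
    ent (S.v τ) (fun x => φ x.1) = ent S.p φ := ent_gl_fst S.hp (fun _ => rfl) φ

theorem ent_v_snd {α : Type*} (τ : ℚ) (φ : Ω → α) :
    ent (S.v τ) (fun x => φ x.2) = ent S.p φ := ent_gl_snd S.hp S.hp (fun _ => rfl) φ

/-- The entropy of the configuration `V`. -/
theorem ent_v (τ : ℚ) : ent (S.v τ) (fun x => (S.B x.1, S.B x.2)) = 2 * S.h - S.H τ := by
  have := ent_gl S.hp S.hp (fun _ => rfl) (S.det_P τ) (S.det_P τ)
  unfold v
  rw [this]
  unfold h H
  ring

theorem sig_nonneg (τ b c : ℚ) : 0 ≤ S.sig τ b c := ent_nonneg (S.isPr_v τ) _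

theorem G_nonneg (τ b c : ℚ) : 0 ≤ S.G τ b c := ent_nonneg (S.isPr_v τ) _

theorem sig_le (τ b c : ℚ) : S.sig τ b c ≤ 2 * S.h := by
  have h1 : S.sig τ b c ≤ ent (S.v τ) (fun x => (S.B x.1, S.B x.2)) := by
    refine ent_mono (S.isPr_v τ) ?_
    intro x y hx hy e
    simp only [Prod.mk.injEq] at e
    obtain ⟨hx1, hx2, _⟩ := S.v_ne_zero hx
    obtain ⟨hy1, hy2, _⟩ := S.v_ne_zero hy
    simp only
    rw [S.P_eq τ hx1 hy1 e.1, e.1, e.2]
  have h2 : 0 ≤ S.H τ := ent_nonneg S.hp _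
  rw [S.ent_v] at h1
  linarith

theorem G_le' (τ T T' : ℚ) : S.G τ T T' ≤ S.H (τ + T) + S.H (τ + T') := by
  have h1 := ent_pair_le (S.isPr_v τ) (fun x => S.P (τ + T) x.1) (fun x => S.P (τ + T') x.2)
  rw [S.ent_v_fst τ (S.P (τ + T)), S.ent_v_snd τ (S.P (τ + T'))] at h1
  exact h1

theorem G_le (τ T T' : ℚ) : S.G τ T T' ≤ 2 * S.h := by
  have h1 := S.G_le' τ T T'
  have h2 := S.H_le_h (τ + T)
  have h3 := S.H_le_h (τ + T')
  linarith

end Sys

end Pool.Agent.MPac5134.SD
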