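import Pool.Agent.Lib.MP_ac5134_an.SD.Avg

/-!
# Triple averages

`R` a finite set of positive rationals, `E ≥ 1`.  `mm e = ∏ r^(e r)`, `tt n = ∑ n_e mm e`;
`T f` is the average of `f (tt n) (mm e) (mm e')`.
-/

open Finset

namespace Pool.Agent.MPac5134.SD

section

variable (R : Finset ℚ) (E : ℕ)

abbrev Im : Type := {r // r ∈ R} → Fin E

abbrev Ia : Type := Im R E → Fin E

/-- the multiplicative multiset -/
def mm (e : Im R E) : ℚ := ∏ r : {r // r ∈ R}, (r : ℚ) ^ (e r : ℕ)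

/-- the additive multiset -/
def tt (n : Ia R E) : ℚ := ∑ e, (n e : ℕ) • mm R E e

abbrev KK : Type := Ia R E × Im R E × Im R E

/-- the triple average -/
noncomputable def T (f : ℚ → ℚ → ℚ → ℝ) : ℝ :=
  ∑ k : KK R E, (Fintype.card (KK R E) : ℝ)⁻¹ * f (tt R E k.1) (mm R E k.2.1) (mm R E k.2.2)

variable {R E}

theorem mm_pos (hR : ∀ r ∈ R, 0 < r) (e : Im R E) : 0 < mm R E e :=
  prod_pos fun r _ => pow_pos (hR r r.2) _

theorem card_KK_pos (hE : 0 < E) : 0 < Fintype.card (KK R E) := by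
  have : Nonempty (Fin E) := ⟨⟨0, hE⟩⟩
  have : Nonempty (KK R E) := ⟨(fun _ => ⟨0, hE⟩, fun _ => ⟨0, hE⟩, fun _ => ⟨0, hE⟩)⟩
  exact Fintype.card_pos

theorem sum_w (hE : 0 < E) : ∑ _k : KK R E, (Fintype.card (KK R E) : ℝ)⁻¹ = 1 := by
  have h : (Fintype.card (KK R E) : ℝ) ≠ 0 := by exact_mod_cast (card_KK_pos hE).ne'
  rw [sum_const, card_univ, nsmul_eq_mul, mul_inv_cancel₀ h]

theorem T_swap (f : ℚ → ℚ → ℚ → ℝ) : T R E (fun t x y => f t y x) = T R E f := by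
  unfold T
  refine Fintype.sum_equiv (Equiv.prodCongr (Equiv.refl _) (Equiv.prodComm _ _)) _ _ ?_
  rintro ⟨n, e, e'⟩
  rfl

/-- a bound for the inner averages over the last coordinate bounds the triple averages -/
theorem T_inner (hE : 0 < E) {f g : ℚ → ℚ → ℚ → ℝ} {δ : ℝ}
    (h : ∀ (n : Ia R E) (e : Im R E),
      |(Fintype.card (Im R E) : ℝ)⁻¹ * ∑ e', f (tt R E n) (mm R E e) (mm R E e') -
        (Fintype.card (Im R E) : ℝ)⁻¹ * ∑ e', g (tt R E n) (mm R E e) (mm R E e')| ≤ δ) :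
    |T R E f - T R E g| ≤ δ := by
  have hKK := card_KK_pos (R := R) hE
  have hc : Fintype.card (KK R E) = Fintype.card (Ia R E) * (Fintype.card (Im R E) *
      Fintype.card (Im R E)) := by
    rw [Fintype.card_prod, Fintype.card_prod]
  have : Nonempty (Fin E) := ⟨⟨0, hE⟩⟩
  have h1 : (0 : ℝ) < Fintype.card (Ia R E) := by exact_mod_cast Fintype.card_pos
  have h2 : (0 : ℝ) < Fintype.card (Im R E) := by exact_mod_cast Fintype.card_pos
  have e1 : ∀ f : ℚ → ℚ → ℚ → ℝ, T R E f = ∑ n : Ia R E, ∑ e : Im R E,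
      ((Fintype.card (Ia R E) : ℝ)⁻¹ * (Fintype.card (Im R E) : ℝ)⁻¹) *
        ((Fintype.card (Im R E) : ℝ)⁻¹ * ∑ e', f (tt R E n) (mm R E e) (mm R E e')) := by
    intro f
    unfold T
    rw [Fintype.sum_prod_type]
    refine sum_congr rfl fun n _ => ?_
    rw [Fintype.sum_prod_type]
    refine sum_congr rfl fun e _ => ?_
    rw [← mul_sum, hc]
    push_cast
    rw [mul_inv, mul_inv]
    ring
  rw [e1, e1, ← sum_sub_distrib]
  have h3 : ∀ n : Ia R E, |∑ e : Im R E, ((Fintype.card (Ia R E) : ℝ)⁻¹ *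
      (Fintype.card (Im R E) : ℝ)⁻¹) *
        ((Fintype.card (Im R E) : ℝ)⁻¹ * ∑ e', f (tt R E n) (mm R E e) (mm R E e')) -
      ∑ e : Im R E, ((Fintype.card (Ia R E) : ℝ)⁻¹ * (Fintype.card (Im R E) : ℝ)⁻¹) *
        ((Fintype.card (Im R E) : ℝ)⁻¹ * ∑ e', g (tt R E n) (mm R E e) (mm R E e'))| ≤
      (Fintype.card (Ia R E) : ℝ)⁻¹ * δ := by
    intro n
    rw [← sum_sub_distrib]
    refine (abs_sum_le_sum_abs _ _).trans ?_
    have h4 : ∀ e : Im R E, |((Fintype.card (Ia R E) : ℝ)⁻¹ * (Fintype.card (Im R E) : ℝ)⁻¹) *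
        ((Fintype.card (Im R E) : ℝ)⁻¹ * ∑ e', f (tt R E n) (mm R E e) (mm R E e')) -
        ((Fintype.card (Ia R E) : ℝ)⁻¹ * (Fintype.card (Im R E) : ℝ)⁻¹) *
        ((Fintype.card (Im R E) : ℝ)⁻¹ * ∑ e', g (tt R E n) (mm R E e) (mm R E e'))| ≤
        (Fintype.card (Ia R E) : ℝ)⁻¹ * (Fintype.card (Im R E) : ℝ)⁻¹ * δ := by
      intro e
      rw [← mul_sub, abs_mul, abs_of_pos (by positivity)]
      exact mul_le_mul_of_nonneg_left (h n e) (by positivity)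
    refine (sum_le_sum fun e _ => h4 e).trans (le_of_eq ?_)
    rw [sum_const, card_univ, nsmul_eq_mul]
    field_simp
  refine (abs_sum_le_sum_abs _ _).trans ((sum_le_sum fun n _ => h3 n).trans (le_of_eq ?_))
  rw [sum_const, card_univ, nsmul_eq_mul]
  field_simp

/-- a bound for the inner averages over the first coordinate bounds the triple averages -/
theorem T_inner' (hE : 0 < E) {f g : ℚ → ℚ → ℚ → ℝ} {δ : ℝ}
    (h : ∀ (e e' : Im R E),
      |(Fintype.card (Ia R E) : ℝ)⁻¹ * ∑ n, f (tt R E n) (mm R E e) (mm R E e') -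
        (Fintype.card (Ia R E) : ℝ)⁻¹ * ∑ n, g (tt R E n) (mm R E e) (mm R E e')| ≤ δ) :
    |T R E f - T R E g| ≤ δ := by
  have hKK := card_KK_pos (R := R) hE
  have hc : Fintype.card (KK R E) = Fintype.card (Ia R E) * (Fintype.card (Im R E) *
      Fintype.card (Im R E)) := by
    rw [Fintype.card_prod, Fintype.card_prod]
  have : Nonempty (Fin E) := ⟨⟨0, hE⟩⟩
  have h1 : (0 : ℝ) < Fintype.card (Ia R E) := by exact_mod_cast Fintype.card_pos
  have h2 : (0 : ℝ) < Fintype.card (Im R E) := by exact_mod_cast Fintype.card_pos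
  have e1 : ∀ f : ℚ → ℚ → ℚ → ℝ, T R E f = ∑ p : Im R E × Im R E,
      ((Fintype.card (Im R E) : ℝ)⁻¹ * (Fintype.card (Im R E) : ℝ)⁻¹) *
        ((Fintype.card (Ia R E) : ℝ)⁻¹ * ∑ n, f (tt R E n) (mm R E p.1) (mm R E p.2)) := by
    intro f
    unfold T
    rw [Fintype.sum_prod_type, sum_comm]
    refine sum_congr rfl fun p _ => ?_
    rw [← mul_sum, hc]
    push_cast
    rw [mul_inv, mul_inv]
    ring
  rw [e1, e1, ← sum_sub_distrib]
  have h4 : ∀ p : Im R E × Im R E, |((Fintype.card (Im R E) : ℝ)⁻¹ *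
      (Fintype.card (Im R E) : ℝ)⁻¹) *
      ((Fintype.card (Ia R E) : ℝ)⁻¹ * ∑ n, f (tt R E n) (mm R E p.1) (mm R E p.2)) -
      ((Fintype.card (Im R E) : ℝ)⁻¹ * (Fintype.card (Im R E) : ℝ)⁻¹) *
      ((Fintype.card (Ia R E) : ℝ)⁻¹ * ∑ n, g (tt R E n) (mm R E p.1) (mm R E p.2))| ≤
      (Fintype.card (Im R E) : ℝ)⁻¹ * (Fintype.card (Im R E) : ℝ)⁻¹ * δ := by
    intro p
    rw [← mul_sub, abs_mul, abs_of_pos (by positivity)]
    exact mul_le_mul_of_nonneg_left (h p.1 p.2) (by positivity)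
  refine (abs_sum_le_sum_abs _ _).trans ((sum_le_sum fun p _ => h4 p).trans (le_of_eq ?_))
  rw [sum_const, card_univ, Fintype.card_prod, nsmul_eq_mul]
  push_cast
  field_simp

/-- shift of the last coordinate by a generator -/
theorem T_y (hE : 0 < E) {f : ℚ → ℚ → ℚ → ℝ} {Bd : ℝ} (hf : ∀ t x y, |f t x y| ≤ Bd) {r : ℚ}
    (hr : r ∈ R) : |T R E (fun t x y => f t x (r * y)) - T R E f| ≤ 2 * Bd / E :=
  T_inner hE fun n e => av_mul (fun r : {r // r ∈ R} => (r : ℚ)) hE (f (tt R E n) (mm R E e))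
    (hf _ _) ⟨r, hr⟩

/-- shift of the last coordinate by the inverse of a generator -/
theorem T_y' (hE : 0 < E) {f : ℚ → ℚ → ℚ → ℝ} {Bd : ℝ} (hf : ∀ t x y, |f t x y| ≤ Bd) {r : ℚ}
    (hr : r ∈ R) (hr0 : r ≠ 0) : |T R E (fun t x y => f t x (y / r)) - T R E f| ≤ 2 * Bd / E := by
  have h := T_y hE (f := fun t x y => f t x (y / r)) (fun t x y => hf t x (y / r)) hr
  simp only [mul_div_cancel_left₀ _ hr0] at h
  rw [abs_sub_comm]
  exact h

/-- shift of the middle coordinate -/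
theorem T_x (hE : 0 < E) {f : ℚ → ℚ → ℚ → ℝ} {Bd : ℝ} (hf : ∀ t x y, |f t x y| ≤ Bd) {r : ℚ}
    (hr : r ∈ R) : |T R E (fun t x y => f t (r * x) y) - T R E f| ≤ 2 * Bd / E := by
  have h := T_y hE (f := fun t x y => f t y x) (fun t x y => hf t y x) hr
  rw [T_swap (fun t x y => f t x y), T_swap (fun t x y => f t (r * x) y)] at h
  exact h

theorem T_x' (hE : 0 < E) {f : ℚ → ℚ → ℚ → ℝ} {Bd : ℝ} (hf : ∀ t x y, |f t x y| ≤ Bd) {r : ℚ}
    (hr : r ∈ R) (hr0 : r ≠ 0) : |T R E (fun t x y => f t (x / r) y) - T R E f| ≤ 2 * Bd / E := by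
  have h := T_y' hE (f := fun t x y => f t y x) (fun t x y => hf t y x) hr hr0
  rw [T_swap (fun t x y => f t x y), T_swap (fun t x y => f t (x / r) y)] at h
  exact h

/-- translation of the first coordinate by the middle coordinate -/
theorem T_t (hE : 0 < E) {f : ℚ → ℚ → ℚ → ℝ} {Bd : ℝ} (hf : ∀ t x y, |f t x y| ≤ Bd) :
    |T R E (fun t x y => f (t - x) x y) - T R E f| ≤ 2 * Bd / E := by
  rw [abs_sub_comm]
  refine T_inner' hE fun e e' => ?_
  have h := av_add (fun e : Im R E => mm R E e) hE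
    (fun t => f (t - mm R E e) (mm R E e) (mm R E e')) (fun t => hf _ _ _) e
  simp only [add_sub_cancel_left] at h
  exact h

end

end Pool.Agent.MPac5134.SD
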