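import Pool.Agent.Lib.MP_ac5134_an.Lip.T1
import Pool.Agent.Lib.MP_ac5134_an.Lip.T2
import Pool.Agent.Lib.MP_ac5134_an.Lip.T3

/-!
# SD-TubA: the section of the union of the tubes contains many cells

`d ≥ 1`, `q ≥ 1` an integer, `R ≥ 0`.  If at height `h` every tube `T_i` has its axis point
`y_i(h) = c_i' - 2 (h - c_{i,n}) foot_i` within sup-distance `R N` of `N u_i`, `u_i ∈ (1/q) Z^d`, then the number of different
`u_i` is at most `C N^(-d)` times the volume of the section of the union of the tubes at height `h`,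
`C = C(d, q, R)`.

PROOF.  `U = {u_i}`: different points of `U` have sup-distance `≥ 1/q`, so the cubes `closedBall u (1/(4q))`, `u ∈ U`, are
disjoint, volume `(1/(2q))^d` each, and lie in `⋃_i closedBall (y_i/N) (R + 1/(4q))`.  By `Lip.thicken` this union has volume
`≤ ((R + 1/(4q)) 4 d + 1)^d |⋃_i closedBall (y_i/N) (1/(4d))|`, and scaling by `N` (`Measure.addHaar_smul`, see `z1_scale` in
`Lip/Z1`) and `Lip.section_mem` finish.
-/

open MeasureTheory Pool.Agent.MPac5134.Lip Pointwise

namespace Pool.Agent.MPac5134.SD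

variable {d : ℕ}

/-- the axis point divided by `N` -/
private noncomputable def tubA_Y {ι : Type} (N : ℝ) (θ : ι → Cap d) (c : ι → Sp d) (h : ℝ) (i : ι) :
    V d :=
  fun k => (c i k.castSucc - 2 * (h - c i (Fin.last d)) * (θ i).foot k) / N

private theorem tubA_sep {q : ℕ} (hq : 1 ≤ q) {v w : Fin d → ℚ} (hv : ∀ k, ∃ m : ℤ, v k = m / q)
    (hw : ∀ k, ∃ m : ℤ, w k = m / q) (x : V d)
    (h1 : x ∈ Metric.closedBall (fun k => (v k : ℝ) : V d) (1 / (4 * q)))
    (h2 : x ∈ Metric.closedBall (fun k => (w k : ℝ) : V d) (1 / (4 * q))) : v = w := by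
  have hq0 : (0 : ℝ) < q := by exact_mod_cast hq
  have hε : (0 : ℝ) ≤ 1 / (4 * q) := by positivity
  rw [Metric.mem_closedBall, dist_pi_le_iff hε] at h1 h2
  funext k
  obtain ⟨m, hm⟩ := hv k
  obtain ⟨m', hm'⟩ := hw k
  have h3 := h1 k
  have h4 := h2 k
  rw [Real.dist_eq] at h3 h4
  rw [hm] at h3 ⊢
  rw [hm'] at h4 ⊢
  push_cast at h3 h4
  have h5 : |(m : ℝ) / q - m' / q| ≤ 1 / (2 * q) := by
    have : (m : ℝ) / q - m' / q = (x k - m' / q) - (x k - m / q) := by ring
    rw [this]
    refine (abs_sub _ _).trans ?_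
    have : (1 : ℝ) / (2 * q) = 1 / (4 * q) + 1 / (4 * q) := by field_simp; norm_num
    rw [this]
    exact add_le_add h4 h3
  have h6 : |(m : ℝ) - m'| ≤ 1 / 2 := by
    have h7 : (m : ℝ) / q - m' / q = (m - m') / q := by ring
    rw [h7, abs_div, abs_of_pos hq0, div_le_div_iff₀ hq0 (by positivity)] at h5
    nlinarith
  have h8 : m = m' := by
    have h9 : |m - m'| < 1 := by
      have : ((|m - m'| : ℤ) : ℝ) < 1 := by
        push_cast
        linarith
      exact_mod_cast this
    have := Int.abs_lt_one_iff.1 h9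
    omega
  rw [h8]

open Classical in
theorem section_count (hd : 1 ≤ d) (q : ℕ) (hq : 1 ≤ q) (R : ℝ) (hR : 0 ≤ R) :
    ∃ C : ℝ, 0 < C ∧ ∀ (N : ℝ), 1 ≤ N → ∀ (ι : Type) [Fintype ι] (θ : ι → Cap d) (c : ι → Sp d)
      (h : ℝ) (u : ι → Fin d → ℚ), (∀ i, |h - c i (Fin.last d)| ≤ N ^ 2 / 10) →
      (∀ i k, ∃ m : ℤ, u i k = m / q) →
      (∀ i k, |c i k.castSucc - 2 * (h - c i (Fin.last d)) * (θ i).foot k - N * (u i k : ℝ)| ≤
        R * N) →
      ENNReal.ofReal (((Finset.univ : Finset ι).image u).card * N ^ d) ≤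
        ENNReal.ofReal C * volume {y : V d | pt (y, h) ∈ ⋃ i, tube N (θ i) (c i)} := by
  have hq0 : (0 : ℝ) < q := by exact_mod_cast hq
  have hd0 : (0 : ℝ) < d := by exact_mod_cast hd
  obtain ⟨ε, hεd⟩ : ∃ ε : ℝ, ε = 1 / (4 * q) := ⟨_, rfl⟩
  obtain ⟨r, hrd⟩ : ∃ r : ℝ, r = 1 / (4 * d) := ⟨_, rfl⟩
  have hε : 0 < ε := by rw [hεd]; positivity
  have hr : 0 < r := by rw [hrd]; positivity
  obtain ⟨K, hKd⟩ : ∃ K : ℝ, K = ((R + ε) / r + 1) ^ d := ⟨_, rfl⟩
  have hK : 0 < K := by rw [hKd]; positivity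
  refine ⟨K / (2 * ε) ^ d, by positivity, ?_⟩
  intro N hN ι _ θ c h u hh hu hy
  have hN0 : 0 < N := by linarith
  set U := (Finset.univ : Finset ι).image u with hU
  obtain ⟨S, hS⟩ : ∃ S : Set (V d), S = Set.range (tubA_Y N θ c h) := ⟨_, rfl⟩
  -- the lower bound
  have hlow : ENNReal.ofReal (U.card * (2 * ε) ^ d) ≤
      volume (⋃ x ∈ S, Metric.closedBall x (R + ε)) := by
    have h1 : (⋃ v ∈ U, Metric.closedBall (fun k => ((v : Fin d → ℚ) k : ℝ) : V d) ε) ⊆
        ⋃ x ∈ S, Metric.closedBall x (R + ε) := by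
      intro x hx
      simp only [Set.mem_iUnion, exists_prop] at hx
      obtain ⟨v, hv, hx⟩ := hx
      rw [hU, Finset.mem_image] at hv
      obtain ⟨i, -, rfl⟩ := hv
      simp only [Set.mem_iUnion, exists_prop]
      refine ⟨tubA_Y N θ c h i, by rw [hS]; exact ⟨i, rfl⟩, ?_⟩
      have h2 : dist (fun k => (u i k : ℝ) : V d) (tubA_Y N θ c h i) ≤ R := by
        rw [dist_pi_le_iff hR]
        intro k
        rw [Real.dist_eq, abs_sub_comm]
        have h3 := hy i k
        have h4 : tubA_Y N θ c h i k - (u i k : ℝ) =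
            (c i k.castSucc - 2 * (h - c i (Fin.last d)) * (θ i).foot k - N * (u i k : ℝ)) / N := by
          unfold tubA_Y
          field_simp
        rw [h4, abs_div, abs_of_pos hN0, div_le_iff₀ hN0]
        exact h3
      rw [Metric.mem_closedBall] at hx ⊢
      have := dist_triangle x (fun k => (u i k : ℝ) : V d) (tubA_Y N θ c h i)
      linarith
    refine le_trans (le_of_eq ?_) (measure_mono h1)
    rw [measure_biUnion_finset]
    · simp_rw [Real.volume_pi_closedBall _ hε.le]
      rw [Finset.sum_const, Fintype.card_fin, nsmul_eq_mul, ENNReal.ofReal_mul (by positivity),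
        ENNReal.ofReal_natCast]
    · intro v hv w hw hvw
      rw [Function.onFun, Set.disjoint_left]
      intro x h2 h3
      rw [hU, Finset.mem_coe, Finset.mem_image] at hv hw
      obtain ⟨i, -, rfl⟩ := hv
      obtain ⟨j, -, rfl⟩ := hw
      rw [hεd] at h2 h3
      exact hvw (tubA_sep hq (hu i) (hu j) x h2 h3)
    · intro v _
      exact Metric.isClosed_closedBall.measurableSet
  have hthick := thicken S hr (show (0 : ℝ) ≤ R + ε by positivity)
  rw [← hKd] at hthick
  -- scaling
  have hscale : ENNReal.ofReal (N ^ d) * volume (⋃ x ∈ S, Metric.closedBall x r) ≤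
      volume {y : V d | pt (y, h) ∈ ⋃ i, tube N (θ i) (c i)} := by
    have h1 : N • (⋃ x ∈ S, Metric.closedBall x r) ⊆
        {y : V d | pt (y, h) ∈ ⋃ i, tube N (θ i) (c i)} := by
      rintro y ⟨z, hz, rfl⟩
      simp only [Set.mem_iUnion, exists_prop] at hz
      obtain ⟨x, hx, hz⟩ := hz
      rw [hS] at hx
      obtain ⟨i, rfl⟩ := hx
      rw [Metric.mem_closedBall, dist_pi_le_iff hr.le] at hz
      refine Set.mem_iUnion.2 ⟨i, ?_⟩
      refine section_mem hd hN (θ i) (c i) h (hh i) _ ?_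
      intro k
      have h2 := hz k
      rw [Real.dist_eq] at h2
      have h3 : (N • z) k - (c i k.castSucc - 2 * (h - c i (Fin.last d)) * (θ i).foot k) =
          N * (z k - tubA_Y N θ c h i k) := by
        unfold tubA_Y
        rw [Pi.smul_apply, smul_eq_mul]
        field_simp
      have h4 : |(N • z) k - (c i k.castSucc - 2 * (h - c i (Fin.last d)) * (θ i).foot k)| ≤
          N / (4 * d) := by
        rw [h3, abs_mul, abs_of_pos hN0]
        calc N * |z k - tubA_Y N θ c h i k| ≤ N * r := mul_le_mul_of_nonneg_left h2 hN0.le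
          _ = N / (4 * d) := by rw [hrd]; ring
      exact h4
    refine le_trans (le_of_eq ?_) (measure_mono h1)
    rw [Measure.addHaar_smul, Module.finrank_fin_fun, abs_of_pos (by positivity)]
  calc ENNReal.ofReal (U.card * N ^ d)
      = ENNReal.ofReal (N ^ d) * (ENNReal.ofReal (1 / (2 * ε) ^ d) *
          ENNReal.ofReal (U.card * (2 * ε) ^ d)) := by
        rw [← ENNReal.ofReal_mul (by positivity), ← ENNReal.ofReal_mul (by positivity)]
        congr 1
        field_simp
    _ ≤ ENNReal.ofReal (N ^ d) * (ENNReal.ofReal (1 / (2 * ε) ^ d) *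
          (ENNReal.ofReal K * volume (⋃ x ∈ S, Metric.closedBall x r))) := by
        gcongr
        exact hlow.trans hthick
    _ = ENNReal.ofReal (K / (2 * ε) ^ d) *
          (ENNReal.ofReal (N ^ d) * volume (⋃ x ∈ S, Metric.closedBall x r)) := by
        have h1 : ENNReal.ofReal (K / (2 * ε) ^ d) =
            ENNReal.ofReal (1 / (2 * ε) ^ d) * ENNReal.ofReal K := by
          rw [← ENNReal.ofReal_mul (by positivity)]
          congr 1
          ring
        rw [h1]
        ring
    _ ≤ _ := by gcongr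

end Pool.Agent.MPac5134.SD
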