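import Pool.Agent.Lib.MP_ac5134_an.SD.TubA
import Pool.Agent.Lib.MP_ac5134_an.SD.Sets

/-!
# SD-TubB: tubes with different direction cells and almost the same height

PROOF.  `F` nonempty (`Ineq.nonempty`).  Let `ρ = 1/(40 m)`, `m ≥ 1` a natural number `≥ |τ|` for all `τ ∈ F`; heights
`h_τ(s) = c0 + N² (s + ρ τ)`, `|s| ≤ 1/40`: `|h_τ(s) - c0| ≤ N²/20`, `|h_τ(s) - c_{i,n}| ≤ N²/10`.
Fix `s`, `h0 = c0 + N² s`, `y_i(h) = c_i' - 2 (h - c_{i,n}) foot_i`, `a_i = ⌊y_i(h0)/N⌋ ∈ Z^d`, `z_i = ⌊N foot_i⌋ = cell N (θ i)`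
(injective in `i`), `A_i = a_i`, `B_i = -2ρ z_i` in `Fin d → ℚ`.  `y_i(h_τ)/N = y_i(h0)/N - 2ρτ N foot_i`, so
`|y_i(h_τ)/N - (A_i + τ B_i)| ≤ 1 + 2ρ|τ| ≤ 2` and `A_i + τ B_i ∈ (1/q) Z^d`, `q` = common denominator of `2ρτ`, `τ ∈ F`.
SD-TubA (`R = 2`): `n_τ(s) N^d ≤ C |section_{h_τ(s)}|`.  Integrate over `|s| ≤ 1/40` and sum over `τ ∈ F`
(`volume_eq_lintegral_pt` for the measurable set `(⋃ T_i) ∩ slab`, substitution `s ↦ c0 + N² (s + ρτ)`,
`MeasureTheory.lintegral_comp_mul_left`-type lemma, see `z1_lint` in `Lip/Z1`): there is `s` with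
`∑_τ |section_{h_τ(s)}| ≤ 20 |F| N^(-2) |(⋃ T_i) ∩ slab|` (otherwise integrate the reverse inequality; the case of
infinite or zero volume is harmless).  So `n_τ(s) ≤ M := C' N^(-d-2) |(⋃ T_i) ∩ slab|` for all `τ ∈ F`, and `card_le` gives
`|ι| ≤ M^α`; take the power `1/α`.
-/

open MeasureTheory Pool.Agent.MPac5134.Lip

namespace Pool.Agent.MPac5134.SD

variable {d : ℕ}

private theorem tubB_lint {a : ℝ} (ha : 0 < a) (g : ℝ → ENNReal) (hg : Measurable g) :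
    ∫⁻ h : ℝ, g (a * h) = ENNReal.ofReal a⁻¹ * ∫⁻ h : ℝ, g h := by
  have h1 := Real.map_volume_mul_left ha.ne'
  have h2 : ∫⁻ h : ℝ, g (a * h) = ∫⁻ y : ℝ, g y ∂(Measure.map (a * ·) volume) :=
    (lintegral_map hg (measurable_const_mul a)).symm
  rw [h2, h1, lintegral_smul_measure, abs_of_pos (by positivity), smul_eq_mul]

private theorem tubB_avg (U : Set (Sp d)) (hU : MeasurableSet U) (F : Finset ℚ) (ρ c0 N : ℝ)
    (hN : 1 ≤ N) :
    ∃ s ∈ Set.Icc (-(1 / 40) : ℝ) (1 / 40),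
      ∑ τ ∈ F, volume {y : V d | pt (y, c0 + N ^ 2 * (s + ρ * (τ : ℝ))) ∈ U} ≤
        20 * (F.card * (ENNReal.ofReal ((N ^ 2)⁻¹) * volume U)) := by
  have hN0 : 0 < N := by linarith
  have hN2 : 0 < N ^ 2 := by positivity
  obtain ⟨g, hgd⟩ : ∃ g : ℝ → ENNReal, g = fun h => volume {y : V d | pt (y, h) ∈ U} := ⟨_, rfl⟩
  have hg : Measurable g := by rw [hgd]; exact measurable_section U hU
  have hterm : ∀ τ : ℚ, Measurable fun s : ℝ => g (c0 + N ^ 2 * (s + ρ * (τ : ℝ))) := by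
    intro τ
    refine hg.comp ?_
    fun_prop
  have hf : Measurable fun s : ℝ => ∑ τ ∈ F, g (c0 + N ^ 2 * (s + ρ * (τ : ℝ))) :=
    Finset.measurable_fun_sum _ fun τ _ => hterm τ
  have hvol : (volume : Measure ℝ) (Set.Icc (-(1 / 40) : ℝ) (1 / 40)) = ENNReal.ofReal (1 / 20) := by
    rw [Real.volume_Icc]
    congr 1
    norm_num
  have h0 : (volume : Measure ℝ) (Set.Icc (-(1 / 40) : ℝ) (1 / 40)) ≠ 0 := by
    rw [hvol]
    simp
  have h1 : (volume : Measure ℝ) (Set.Icc (-(1 / 40) : ℝ) (1 / 40)) ≠ ⊤ := by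
    rw [hvol]
    exact ENNReal.ofReal_ne_top
  obtain ⟨s, hs, hle⟩ := exists_le_setLAverage (μ := volume) h0 h1 hf.aemeasurable
  refine ⟨s, hs, ?_⟩
  have e1 : ∀ τ : ℚ, ∫⁻ s : ℝ, g (c0 + N ^ 2 * (s + ρ * (τ : ℝ))) =
      ENNReal.ofReal ((N ^ 2)⁻¹) * volume U := by
    intro τ
    have h2 : ∀ s : ℝ, g (c0 + N ^ 2 * (s + ρ * (τ : ℝ))) =
        (fun x => g (N ^ 2 * x)) (s + (ρ * (τ : ℝ) + c0 / N ^ 2)) := by
      intro s
      show _ = g (N ^ 2 * (s + (ρ * (τ : ℝ) + c0 / N ^ 2)))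
      congr 1
      field_simp
      ring
    simp_rw [h2]
    rw [lintegral_add_right_eq_self (fun x => g (N ^ 2 * x)), tubB_lint hN2 g hg,
      volume_eq_lintegral_pt U hU, hgd]
  have e2 : ∫⁻ s : ℝ, ∑ τ ∈ F, g (c0 + N ^ 2 * (s + ρ * (τ : ℝ))) =
      F.card * (ENNReal.ofReal ((N ^ 2)⁻¹) * volume U) := by
    rw [lintegral_finsetSum _ fun τ _ => hterm τ]
    simp_rw [e1]
    rw [Finset.sum_const, nsmul_eq_mul]
  have e3 : (∑ τ ∈ F, volume {y : V d | pt (y, c0 + N ^ 2 * (s + ρ * (τ : ℝ))) ∈ U}) =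
      ∑ τ ∈ F, g (c0 + N ^ 2 * (s + ρ * (τ : ℝ))) := by
    rw [hgd]
  rw [e3]
  refine hle.trans ?_
  rw [setLAverage_eq, hvol]
  refine (ENNReal.div_le_div_right (setLIntegral_le_lintegral _ _) _).trans ?_
  rw [e2, ENNReal.div_eq_inv_mul]
  refine mul_le_mul_left ?_ _
  rw [← ENNReal.ofReal_inv_of_pos (by norm_num)]
  norm_num

private theorem tubB_m (F : Finset ℚ) : ∃ m : ℕ, 1 ≤ m ∧ ∀ τ ∈ F, |(τ : ℝ)| ≤ m := by
  refine ⟨⌈∑ τ ∈ F, |(τ : ℝ)|⌉₊ + 1, by omega, fun τ hτ => ?_⟩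
  have h1 : |(τ : ℝ)| ≤ ∑ τ ∈ F, |(τ : ℝ)| :=
    Finset.single_le_sum (f := fun τ : ℚ => |(τ : ℝ)|) (fun _ _ => abs_nonneg _) hτ
  have h2 := Nat.le_ceil (∑ τ ∈ F, |(τ : ℝ)|)
  push_cast
  linarith

private theorem tubB_D (F : Finset ℚ) : ∃ D : ℕ, 1 ≤ D ∧ ∀ τ ∈ F, ∃ z : ℤ, τ * D = z := by
  refine ⟨∏ τ ∈ F, τ.den, Nat.succ_le_of_lt (Finset.prod_pos fun τ _ => Rat.den_pos τ),
    fun τ hτ => ?_⟩
  obtain ⟨k, hk⟩ := Finset.dvd_prod_of_mem (fun τ : ℚ => τ.den) hτ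
  refine ⟨τ.num * k, ?_⟩
  rw [hk]
  push_cast
  rw [← mul_assoc, Rat.mul_den_eq_num]

private theorem tubB_fin {d : ℕ} {F : Finset ℚ} (n : ℚ → ℕ) {α C0 N v : ℝ} {I : ℕ} (hα0 : 0 < α)
    (hC0 : 0 < C0) (hN0 : 0 < N) (hv0 : 0 ≤ v) (hF : F.Nonempty)
    (hsec : ∀ τ ∈ F, ENNReal.ofReal (n τ * N ^ d) ≤
      ENNReal.ofReal C0 * (20 * (F.card * (ENNReal.ofReal ((N ^ 2)⁻¹) * ENNReal.ofReal v))))
    (h : ∀ M : ℝ, 0 ≤ M → (∀ τ ∈ F, (n τ : ℝ) ≤ M) → (I : ℝ) ≤ M ^ α) :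
    ENNReal.ofReal ((I : ℝ) ^ (1 / α) * N ^ (d + 2)) ≤
      ENNReal.ofReal (20 * C0 * F.card) * ENNReal.ofReal v := by
  have hN2 : 0 < N ^ 2 := pow_pos hN0 2
  have hNd : 0 < N ^ (d + 2) := pow_pos hN0 _
  have hk : (0 : ℝ) < F.card := by exact_mod_cast hF.card_pos
  obtain ⟨k, hkd⟩ : ∃ k : ℝ, k = F.card := ⟨_, rfl⟩
  have hkE : ((F.card : ℕ) : ENNReal) = ENNReal.ofReal k := by
    rw [hkd, ENNReal.ofReal_natCast]
  have h20 : (20 : ENNReal) = ENNReal.ofReal 20 := by norm_num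
  rw [← hkd] at hk ⊢
  have hinv : 0 ≤ (N ^ 2)⁻¹ := (inv_pos.2 hN2).le
  have hA : 0 ≤ (N ^ 2)⁻¹ * v := mul_nonneg hinv hv0
  have hB : 0 ≤ k * ((N ^ 2)⁻¹ * v) := mul_nonneg hk.le hA
  have hC : 0 ≤ 20 * (k * ((N ^ 2)⁻¹ * v)) := mul_nonneg (by norm_num) hB
  have e1 : ENNReal.ofReal C0 * (20 * (F.card * (ENNReal.ofReal ((N ^ 2)⁻¹) *
      ENNReal.ofReal v))) = ENNReal.ofReal (C0 * (20 * (k * ((N ^ 2)⁻¹ * v)))) := by
    rw [ENNReal.ofReal_mul hC0.le, ENNReal.ofReal_mul (p := 20) (by norm_num),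
      ENNReal.ofReal_mul hk.le, ENNReal.ofReal_mul hinv, hkE, h20]
  rw [e1] at hsec
  have hM0 : 0 ≤ 20 * C0 * k * v / N ^ (d + 2) :=
    div_nonneg (mul_nonneg (mul_nonneg (mul_nonneg (by norm_num) hC0.le) hk.le) hv0) hNd.le
  have hfin := h _ hM0 (fun τ hτ => by
    have h1 := (ENNReal.ofReal_le_ofReal_iff (mul_nonneg hC0.le hC)).1 (hsec τ hτ)
    rw [le_div_iff₀ hNd]
    have e2 : C0 * (20 * (k * ((N ^ 2)⁻¹ * v))) * N ^ 2 = 20 * C0 * k * v := by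
      field_simp
    rw [← e2, pow_add, ← mul_assoc]
    exact mul_le_mul_of_nonneg_right h1 hN2.le)
  have h1 : (I : ℝ) ^ (1 / α) ≤ 20 * C0 * k * v / N ^ (d + 2) := by
    have h2 := Real.rpow_le_rpow (Nat.cast_nonneg I) hfin (one_div_pos.2 hα0).le
    rwa [← Real.rpow_mul hM0, mul_one_div_cancel hα0.ne', Real.rpow_one] at h2
  rw [← ENNReal.ofReal_mul (mul_nonneg (mul_nonneg (by norm_num) hC0.le) hk.le)]
  apply ENNReal.ofReal_le_ofReal
  rw [le_div_iff₀ hNd] at h1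
  exact h1

private theorem tubB_card {ι κ : Type} [Fintype ι] (f : ι → κ) (i1 i2 : DecidableEq κ) :
    (@Finset.image ι κ i1 f Finset.univ).card = (@Finset.image ι κ i2 f Finset.univ).card := by
  rw [Subsingleton.elim i1 i2]

theorem class_bound (hd : 1 ≤ d) {α : ℝ} (hα : 1 ≤ α) {F : Finset ℚ} (hI : Ineq 0 α F) :
    ∃ C : ℝ, 0 < C ∧ ∀ (N : ℝ), 1 ≤ N → ∀ (ι : Type) [Fintype ι] (θ : ι → Cap d) (c : ι → Sp d)
      (c0 : ℝ), (∀ i, |c i (Fin.last d) - c0| ≤ N ^ 2 / 20) →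
      Function.Injective (fun i => cell N (θ i)) →
      ENNReal.ofReal ((Fintype.card ι : ℝ) ^ (1 / α) * N ^ (d + 2)) ≤ ENNReal.ofReal C *
        volume ((⋃ i, tube N (θ i) (c i)) ∩ {x : Sp d | |x (Fin.last d) - c0| ≤ N ^ 2 / 20}) := by
  classical
  have hα0 : 0 < α := by linarith
  obtain ⟨m, hm1, hm⟩ := tubB_m F
  obtain ⟨D, hD1, hD⟩ := tubB_D F
  have hm0 : (0 : ℝ) < m := by exact_mod_cast hm1
  have hD0 : (0 : ℝ) < D := by exact_mod_cast hD1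
  have hFne : F.Nonempty := hI.nonempty hα0
  have hFc : (0 : ℝ) < F.card := by exact_mod_cast hFne.card_pos
  obtain ⟨q, hq⟩ : ∃ q : ℕ, q = 20 * m * D := ⟨_, rfl⟩
  have hq1 : 1 ≤ q := by
    rw [hq]
    have : 0 < 20 * m * D := by positivity
    omega
  obtain ⟨C0, hC0, hcount⟩ := section_count (d := d) hd q hq1 2 (by norm_num)
  refine ⟨20 * C0 * F.card, by positivity, ?_⟩
  intro N hN ι _ θ c c0 hc hinj
  have hN0 : 0 < N := by linarith
  have hN2 : 0 < N ^ 2 := by positivity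
  obtain ⟨ρ, hρ⟩ : ∃ ρ : ℚ, ρ = 1 / (40 * m) := ⟨_, rfl⟩
  have hρr : (ρ : ℝ) = 1 / (40 * m) := by rw [hρ]; push_cast; ring
  have hρ0 : 0 < (ρ : ℝ) := by rw [hρr]; positivity
  have hρτ : ∀ τ ∈ F, |(ρ : ℝ) * τ| ≤ 1 / 40 := by
    intro τ hτ
    rw [abs_mul, abs_of_pos hρ0, hρr]
    calc 1 / (40 * (m : ℝ)) * |(τ : ℝ)| ≤ 1 / (40 * (m : ℝ)) * m :=
          mul_le_mul_of_nonneg_left (hm τ hτ) (by positivity)
      _ = 1 / 40 := by field_simp
  set T : Set (Sp d) := ⋃ i, tube N (θ i) (c i) with hT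
  set U : Set (Sp d) := T ∩ {x : Sp d | |x (Fin.last d) - c0| ≤ N ^ 2 / 20} with hU
  have hTm : MeasurableSet T := MeasurableSet.iUnion fun i => measurableSet_tube N (θ i) (c i)
  have hlastc : Continuous fun x : Sp d => |x (Fin.last d) - c0| := by
    fun_prop
  have hUm : MeasurableSet U :=
    hTm.inter (isClosed_le hlastc continuous_const).measurableSet
  obtain ⟨s, hs, hsum⟩ := tubB_avg U hUm F (ρ : ℝ) c0 N hN
  have hsabs : |s| ≤ 1 / 40 := abs_le.2 ⟨by linarith [hs.1], hs.2⟩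
  by_cases htop : volume U = ⊤
  · rw [htop, ENNReal.mul_top]
    · exact le_top
    · rw [ne_eq, ENNReal.ofReal_eq_zero, not_le]
      positivity
  -- the points
  obtain ⟨y, hyd⟩ : ∃ y : ι → Fin d → ℝ, y = fun i k => c i k.castSucc -
      2 * (c0 + N ^ 2 * s - c i (Fin.last d)) * (θ i).foot k := ⟨_, rfl⟩
  obtain ⟨a, had⟩ : ∃ a : ι → Fin d → ℚ, a = fun i k => ((⌊y i k / N⌋ : ℤ) : ℚ) := ⟨_, rfl⟩
  obtain ⟨b, hbd⟩ : ∃ b : ι → Fin d → ℚ, b = fun i k => -2 * ρ * ((cell N (θ i) k : ℤ) : ℚ) :=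
    ⟨_, rfl⟩
  have hρq : ρ ≠ 0 := by
    intro h
    rw [h] at hρ0
    simp at hρ0
  have hb : Function.Injective b := by
    intro i j hij
    apply hinj
    funext k
    have h1 := congrFun hij k
    rw [hbd] at h1
    simp only [] at h1
    have h2 : (-2 * ρ) ≠ 0 := mul_ne_zero (by norm_num) hρq
    exact_mod_cast mul_left_cancel₀ h2 h1
  -- sections
  have hsec : ∀ τ ∈ F, ENNReal.ofReal
      (((Finset.univ : Finset ι).image fun i => a i + τ • b i).card * N ^ d) ≤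
      ENNReal.ofReal C0 * (20 * (F.card * (ENNReal.ofReal ((N ^ 2)⁻¹) * volume U))) := by
    intro τ hτ
    have hh0 : |c0 + N ^ 2 * (s + (ρ : ℝ) * τ) - c0| ≤ N ^ 2 / 20 := by
      have e1 : c0 + N ^ 2 * (s + (ρ : ℝ) * τ) - c0 = N ^ 2 * (s + (ρ : ℝ) * τ) := by ring
      rw [e1, abs_mul, abs_of_pos hN2]
      have h1 := abs_add_le s ((ρ : ℝ) * τ)
      have h2 := hρτ τ hτ
      have h3 : |s + (ρ : ℝ) * τ| ≤ 1 / 20 := by linarith
      calc N ^ 2 * |s + (ρ : ℝ) * τ| ≤ N ^ 2 * (1 / 20) := mul_le_mul_of_nonneg_left h3 hN2.le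
        _ = N ^ 2 / 20 := by ring
    have h1 := hcount N hN ι θ c (c0 + N ^ 2 * (s + (ρ : ℝ) * τ)) (fun i => a i + τ • b i)
      (fun i => by
        have h2 := abs_sub_le (c0 + N ^ 2 * (s + (ρ : ℝ) * τ)) c0 (c i (Fin.last d))
        have h3 := hc i
        rw [abs_sub_comm] at h3
        linarith)
      (fun i k => by
        obtain ⟨z, hz⟩ := hD τ hτ
        refine ⟨⌊y i k / N⌋ * q - z * cell N (θ i) k, ?_⟩
        have hmq : (m : ℚ) ≠ 0 := by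
          have : (m : ℕ) ≠ 0 := by omega
          exact_mod_cast this
        have hDq : (D : ℚ) ≠ 0 := by
          have : (D : ℕ) ≠ 0 := by omega
          exact_mod_cast this
        have hqq : (q : ℚ) = 20 * m * D := by rw [hq]; push_cast; ring
        rw [Pi.add_apply, Pi.smul_apply, smul_eq_mul, had, hbd]
        push_cast
        rw [hqq, ← hz, hρ]
        field_simp
        ring)
      (fun i k => by
        have hfl := Int.floor_le (y i k / N)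
        have hfl2 := Int.lt_floor_add_one (y i k / N)
        have hc1 := Int.floor_le (N * (θ i).foot k)
        have hc2 := Int.lt_floor_add_one (N * (θ i).foot k)
        have hcell : (cell N (θ i) k : ℝ) = (⌊N * (θ i).foot k⌋ : ℝ) := rfl
        have e1 : c i k.castSucc - 2 * (c0 + N ^ 2 * (s + (ρ : ℝ) * τ) - c i (Fin.last d)) *
            (θ i).foot k - N * (((a i + τ • b i) k : ℚ) : ℝ) =
            N * (y i k / N - (⌊y i k / N⌋ : ℝ)) -
              2 * N * ((ρ : ℝ) * τ) * (N * (θ i).foot k - (⌊N * (θ i).foot k⌋ : ℝ)) := by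
          have e2 : (((a i + τ • b i) k : ℚ) : ℝ) =
              (⌊y i k / N⌋ : ℝ) - 2 * (ρ : ℝ) * τ * (⌊N * (θ i).foot k⌋ : ℝ) := by
            rw [Pi.add_apply, Pi.smul_apply, smul_eq_mul, had, hbd]
            push_cast
            rw [hcell]
            ring
          have e3 : N * (y i k / N) = c i k.castSucc -
              2 * (c0 + N ^ 2 * s - c i (Fin.last d)) * (θ i).foot k := by
            rw [mul_div_cancel₀ _ hN0.ne', hyd]
          rw [e2, mul_sub N (y i k / N), e3]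
          ring
        rw [e1]
        have h2 : |N * (y i k / N - (⌊y i k / N⌋ : ℝ))| ≤ N := by
          rw [abs_mul, abs_of_pos hN0, abs_of_nonneg (by linarith)]
          calc N * (y i k / N - (⌊y i k / N⌋ : ℝ)) ≤ N * 1 :=
                mul_le_mul_of_nonneg_left (by linarith) hN0.le
            _ = N := mul_one N
        have h3 : |2 * N * ((ρ : ℝ) * τ) * (N * (θ i).foot k - (⌊N * (θ i).foot k⌋ : ℝ))| ≤
            N := by
          rw [abs_mul, abs_mul, abs_mul, abs_two, abs_of_pos hN0,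
            abs_of_nonneg (sub_nonneg.2 hc1)]
          have h4 := hρτ τ hτ
          have h5 : N * (θ i).foot k - (⌊N * (θ i).foot k⌋ : ℝ) ≤ 1 := by linarith
          calc 2 * N * |(ρ : ℝ) * τ| * (N * (θ i).foot k - (⌊N * (θ i).foot k⌋ : ℝ))
              ≤ 2 * N * (1 / 40) * 1 :=
                mul_le_mul (mul_le_mul_of_nonneg_left h4 (by positivity)) h5
                  (sub_nonneg.2 hc1) (by positivity)
            _ ≤ N := by linarith
        refine (abs_sub _ _).trans ?_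
        linarith)
    have h2 : volume {y : V d | pt (y, c0 + N ^ 2 * (s + (ρ : ℝ) * τ)) ∈ T} ≤
        20 * (F.card * (ENNReal.ofReal ((N ^ 2)⁻¹) * volume U)) := by
      refine le_trans ?_ hsum
      refine le_trans (measure_mono ?_) (Finset.single_le_sum
        (f := fun τ : ℚ => volume {y : V d | pt (y, c0 + N ^ 2 * (s + (ρ : ℝ) * τ)) ∈ U})
        (fun _ _ => zero_le) hτ)
      intro z hz
      refine ⟨hz, ?_⟩
      have e1 : (pt (z, c0 + N ^ 2 * (s + (ρ : ℝ) * τ)) : Sp d) (Fin.last d) =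
          c0 + N ^ 2 * (s + (ρ : ℝ) * τ) := by
        unfold pt
        simp
      show |(pt (z, c0 + N ^ 2 * (s + (ρ : ℝ) * τ)) : Sp d) (Fin.last d) - c0| ≤ N ^ 2 / 20
      rw [e1]
      exact hh0
    exact h1.trans (mul_le_mul_right h2 _)
  -- real numbers
  obtain ⟨v, hv0, hvU⟩ : ∃ v : ℝ, 0 ≤ v ∧ volume U = ENNReal.ofReal v :=
    ⟨(volume U).toReal, ENNReal.toReal_nonneg, (ENNReal.ofReal_toReal htop).symm⟩
  rw [hvU] at hsec ⊢
  refine tubB_fin (fun τ => ((Finset.univ : Finset ι).image fun i => a i + τ • b i).card)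
    hα0 hC0 hN0 hv0 hFne hsec (fun M hM0 hM => ?_)
  refine card_le hα0 hI a b hb hM0 (fun τ hτ => ?_)
  refine le_trans (le_of_eq ?_) (hM τ hτ)
  exact congrArg Nat.cast (tubB_card _ _ _)

end Pool.Agent.MPac5134.SD
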