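import Pool.Agent.Lib.MP_ac5134_an.SD.TubB

/-!
# SD-TubC: all tubes

PROOF.  Class of `i`: the integer `k_i = ⌊20 c_{i,n} / N²⌋`, `c0_k = (k + 1/2) N²/20`.  In every class `k` choose one tube in every
direction cell that occurs: `m'_k ≥ m_k / K` tubes, SD-TubB: `(m_k/K)^(1/α) N^(d+2) ≤ C |U ∩ slab_k|`,
`slab_k = {|x_n - c0_k| ≤ N²/20}`; every point is in at most 3 slabs, so `∑_k |U ∩ slab_k| ≤ 3 |U|`
(`measure_biUnion`-type or `lintegral` of the sum of indicators); `(∑ m_k)^(1/α) ≤ ∑ m_k^(1/α)` (`1/α ≤ 1`).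
The second theorem: `|T_i| = N^(d+2)` (`volume_tube`), `|ι| = |ι|^(1/α) |ι|^(1-1/α)`, `|ι| ≤ K (2N+2)^d ≤ K (4N)^d`
(the feet are in the unit ball, so at most `(2N+2)^d` cells).
-/

open MeasureTheory Pool.Agent.MPac5134.Lip

namespace Pool.Agent.MPac5134.SD

variable {d : ℕ}

/-- subadditivity of `x ↦ x^p`, `0 < p ≤ 1` -/
private theorem tubC_rpow_sum {κ : Type*} (S : Finset κ) (f : κ → ℝ) (hf : ∀ k, 0 ≤ f k) {p : ℝ}
    (hp0 : 0 < p) (hp1 : p ≤ 1) : (∑ k ∈ S, f k) ^ p ≤ ∑ k ∈ S, f k ^ p := by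
  classical
  induction S using Finset.induction_on with
  | empty => simp [Real.zero_rpow hp0.ne']
  | insert a S ha ih =>
    rw [Finset.sum_insert ha, Finset.sum_insert ha]
    have h1 : (f a + ∑ k ∈ S, f k) ^ p ≤ f a ^ p + (∑ k ∈ S, f k) ^ p :=
      Real.rpow_add_le_add_rpow (hf a) (Finset.sum_nonneg fun k _ => hf k) hp0.le hp1
    linarith

/-- the slabs have overlap at most `3` -/
private theorem tubC_slabs {N : ℝ} (hN : 1 ≤ N) (U : Set (Sp d)) (hU : MeasurableSet U)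
    (S : Finset ℤ) :
    ∑ k ∈ S, volume (U ∩ {x : Sp d | |x (Fin.last d) - ((k : ℝ) + 1 / 2) * (N ^ 2 / 20)| ≤
      N ^ 2 / 20}) ≤ 3 * volume U := by
  classical
  have hN2 : 0 < N ^ 2 / 20 := by positivity
  have hms : ∀ k : ℤ, MeasurableSet
      {x : Sp d | |x (Fin.last d) - ((k : ℝ) + 1 / 2) * (N ^ 2 / 20)| ≤ N ^ 2 / 20} := by
    intro k
    have hc : Continuous fun x : Sp d => |x (Fin.last d) - ((k : ℝ) + 1 / 2) * (N ^ 2 / 20)| := by
      fun_prop
    exact (isClosed_le hc continuous_const).measurableSet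
  have h1 : ∀ k : ℤ, volume (U ∩ {x : Sp d | |x (Fin.last d) -
      ((k : ℝ) + 1 / 2) * (N ^ 2 / 20)| ≤ N ^ 2 / 20}) =
      ∫⁻ x, (U ∩ {x : Sp d | |x (Fin.last d) -
      ((k : ℝ) + 1 / 2) * (N ^ 2 / 20)| ≤ N ^ 2 / 20}).indicator 1 x := by
    intro k
    rw [lintegral_indicator_one (hU.inter (hms k))]
  simp_rw [h1]
  rw [← lintegral_finsetSum]
  swap
  · intro k _
    exact measurable_one.indicator (hU.inter (hms k))
  have h2 : 3 * volume U = ∫⁻ x, U.indicator (fun _ => (3 : ENNReal)) x := by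
    rw [lintegral_indicator_const hU]
  rw [h2]
  refine lintegral_mono fun x => ?_
  simp only
  by_cases hx : x ∈ U
  · rw [Set.indicator_of_mem hx]
    have h3 : ∀ k ∈ S, (U ∩ {x : Sp d | |x (Fin.last d) -
      ((k : ℝ) + 1 / 2) * (N ^ 2 / 20)| ≤ N ^ 2 / 20}).indicator (1 : Sp d → ENNReal) x =
        if |x (Fin.last d) - ((k : ℝ) + 1 / 2) * (N ^ 2 / 20)| ≤ N ^ 2 / 20 then 1 else 0 := by
      intro k _
      rw [Set.indicator_apply]
      simp only [Set.mem_inter_iff, hx, true_and, Set.mem_ofPred_eq, Pi.one_apply]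
    rw [Finset.sum_congr rfl h3, ← Finset.sum_filter, Finset.sum_const, nsmul_eq_mul, mul_one]
    set y : ℝ := x (Fin.last d) / (N ^ 2 / 20) with hy
    have h4 : (S.filter fun k : ℤ => |x (Fin.last d) - ((k : ℝ) + 1 / 2) * (N ^ 2 / 20)| ≤
        N ^ 2 / 20) ⊆ Finset.Icc ⌈y - 3 / 2⌉ (⌈y - 3 / 2⌉ + 2) := by
      intro k hk
      rw [Finset.mem_filter] at hk
      have h5 := hk.2
      have h6 : x (Fin.last d) = y * (N ^ 2 / 20) := by
        rw [hy, div_mul_cancel₀ _ hN2.ne']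
      rw [h6, ← sub_mul, abs_mul, abs_of_pos hN2] at h5
      have h7 : |y - ((k : ℝ) + 1 / 2)| ≤ 1 := by
        by_contra h8
        push Not at h8
        nlinarith
      rw [abs_le] at h7
      rw [Finset.mem_Icc]
      constructor
      · rw [Int.ceil_le]
        linarith [h7.2]
      · have h9 := Int.le_ceil (y - 3 / 2)
        have h10 : (k : ℝ) ≤ ((⌈y - 3 / 2⌉ + 2 : ℤ) : ℝ) := by
          push_cast
          linarith [h7.1]
        exact_mod_cast h10
    have h5 := Finset.card_le_card h4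
    rw [Int.card_Icc] at h5
    have h6 : (⌈y - 3 / 2⌉ + 2 + 1 - ⌈y - 3 / 2⌉).toNat = 3 := by
      have : ⌈y - 3 / 2⌉ + 2 + 1 - ⌈y - 3 / 2⌉ = 3 := by ring
      rw [this]
      rfl
    rw [h6] at h5
    exact_mod_cast h5
  · have h3 : ∀ k ∈ S, (U ∩ {x : Sp d | |x (Fin.last d) -
      ((k : ℝ) + 1 / 2) * (N ^ 2 / 20)| ≤ N ^ 2 / 20}).indicator (1 : Sp d → ENNReal) x = 0 := by
      intro k _
      rw [Set.indicator_of_notMem]
      exact fun h => hx h.1
    rw [Finset.sum_congr rfl h3]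
    simp

/-- representatives of a fibre family -/
private theorem tubC_reps {ι κ : Type*} [DecidableEq κ] (f : ι → κ) (s : Finset ι) (K : ℕ)
    (hK : ∀ z : κ, ∀ t : Finset ι, (∀ i ∈ t, f i = z) → t.card ≤ K) :
    ∃ r : Finset ι, r ⊆ s ∧ Set.InjOn f r ∧ s.card ≤ K * r.card := by
  classical
  obtain ⟨r, hr, himg, hinj⟩ : ∃ r : Finset ι, r ⊆ s ∧ r.image f = s.image f ∧ Set.InjOn f r := by
    obtain ⟨r, hr1, hr2, hr3⟩ := Finset.exists_subset_injOn_image_eq_of_surjOn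
      (s := s) (t := s.image f) (f := f) (by
        intro y hy
        rw [Finset.mem_coe, Finset.mem_image] at hy
        obtain ⟨x, hx, rfl⟩ := hy
        exact ⟨x, hx, rfl⟩)
    exact ⟨r, hr1, hr3, hr2⟩
  refine ⟨r, hr, hinj, ?_⟩
  have h1 : s.card ≤ K * (s.image f).card := by
    apply Finset.card_le_mul_card_image
    intro a _
    exact hK a _ fun i hi => (Finset.mem_filter.1 hi).2
  rw [← himg, Finset.card_image_of_injOn hinj] at h1
  exact h1

theorem all_tubes (hd : 1 ≤ d) {α : ℝ} (hα : 1 ≤ α) {F : Finset ℚ} (hI : Ineq 0 α F) (K : ℕ) :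
    ∃ C : ℝ, 0 < C ∧ ∀ (N : ℝ), 1 ≤ N → ∀ (ι : Type) [Fintype ι] (θ : ι → Cap d) (c : ι → Sp d),
      (∀ z : Fin d → ℤ, ∀ s : Finset ι, (∀ i ∈ s, cell N (θ i) = z) → s.card ≤ K) →
      ENNReal.ofReal ((Fintype.card ι : ℝ) ^ (1 / α) * N ^ (d + 2)) ≤ ENNReal.ofReal C *
        volume (⋃ i, tube N (θ i) (c i)) := by
  classical
  obtain ⟨C, hC, hcl⟩ := class_bound hd hα hI
  have hα0 : 0 < α := by linarith
  have hp0 : 0 < 1 / α := by positivity
  have hp1 : 1 / α ≤ 1 := by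
    rw [div_le_one hα0]
    exact hα
  obtain ⟨L, hL⟩ : ∃ L : ℝ, L = (K : ℝ) ^ (1 / α) := ⟨_, rfl⟩
  have hL0 : 0 ≤ L := by rw [hL]; positivity
  refine ⟨(L + 1) * C * 3, by positivity, ?_⟩
  intro N hN ι _ θ c hK
  have hN0 : 0 < N := by linarith
  have hN2 : 0 < N ^ 2 / 20 := by positivity
  obtain ⟨U, hUd⟩ : ∃ U : Set (Sp d), U = ⋃ i, tube N (θ i) (c i) := ⟨_, rfl⟩
  rw [← hUd]
  have hUm : MeasurableSet U := by
    rw [hUd]
    exact MeasurableSet.iUnion fun i => measurableSet_tube _ _ _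
  obtain ⟨κ, hκ⟩ : ∃ κ : ι → ℤ, κ = fun i => ⌊c i (Fin.last d) / (N ^ 2 / 20)⌋ := ⟨_, rfl⟩
  obtain ⟨S, hS⟩ : ∃ S : Finset ℤ, S = (Finset.univ : Finset ι).image κ := ⟨_, rfl⟩
  obtain ⟨m, hm⟩ : ∃ m : ℤ → Finset ι, m = fun k => (Finset.univ : Finset ι).filter
    fun i => κ i = k := ⟨_, rfl⟩
  have hcard : (Fintype.card ι : ℝ) = ∑ k ∈ S, ((m k).card : ℝ) := by
    rw [← Finset.card_univ, Finset.card_eq_sum_card_image κ (Finset.univ : Finset ι), ← hS, hm]
    push_cast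
    rfl
  -- the bound for one class
  have hone : ∀ k : ℤ, ENNReal.ofReal (((m k).card : ℝ) ^ (1 / α) * N ^ (d + 2)) ≤
      ENNReal.ofReal ((L + 1) * C) * volume (U ∩ {x : Sp d | |x (Fin.last d) -
      ((k : ℝ) + 1 / 2) * (N ^ 2 / 20)| ≤ N ^ 2 / 20}) := by
    intro k
    obtain ⟨r, hr, hinj, hrc⟩ := tubC_reps (fun i => cell N (θ i)) (m k) K hK
    have h1 := hcl N hN {i // i ∈ r} (fun i => θ i) (fun i => c i)
      (((k : ℝ) + 1 / 2) * (N ^ 2 / 20)) (by
        rintro ⟨i, hi⟩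
        have h2 := hr hi
        rw [hm] at h2
        simp only [Finset.mem_filter, Finset.mem_univ, true_and] at h2
        rw [hκ] at h2
        simp only at h2
        have h3 := Int.floor_le (c i (Fin.last d) / (N ^ 2 / 20))
        have h4 := Int.lt_floor_add_one (c i (Fin.last d) / (N ^ 2 / 20))
        rw [h2] at h3 h4
        rw [le_div_iff₀ hN2] at h3
        rw [div_lt_iff₀ hN2] at h4
        simp only
        rw [abs_le]
        constructor <;> nlinarith) (by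
        rintro ⟨i, hi⟩ ⟨j, hj⟩ hij
        exact Subtype.ext (hinj hi hj hij))
    have h2 : volume ((⋃ i : {i // i ∈ r}, tube N (θ i) (c i)) ∩ {x : Sp d | |x (Fin.last d) -
        ((k : ℝ) + 1 / 2) * (N ^ 2 / 20)| ≤ N ^ 2 / 20}) ≤
        volume (U ∩ {x : Sp d | |x (Fin.last d) -
        ((k : ℝ) + 1 / 2) * (N ^ 2 / 20)| ≤ N ^ 2 / 20}) := by
      apply measure_mono
      apply Set.inter_subset_inter_left
      rw [hUd]
      intro x hx
      rw [Set.mem_iUnion] at hx ⊢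
      obtain ⟨i, hi⟩ := hx
      exact ⟨i, hi⟩
    have h3 : ((m k).card : ℝ) ^ (1 / α) ≤ (L + 1) * (r.card : ℝ) ^ (1 / α) := by
      have h4 : ((m k).card : ℝ) ≤ K * r.card := by exact_mod_cast hrc
      calc ((m k).card : ℝ) ^ (1 / α) ≤ ((K : ℝ) * r.card) ^ (1 / α) :=
            Real.rpow_le_rpow (by positivity) h4 hp0.le
        _ = L * (r.card : ℝ) ^ (1 / α) := by
            rw [Real.mul_rpow (by positivity) (by positivity), hL]
        _ ≤ _ := by
            have : 0 ≤ (r.card : ℝ) ^ (1 / α) := by positivity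
            nlinarith
    calc ENNReal.ofReal (((m k).card : ℝ) ^ (1 / α) * N ^ (d + 2))
        ≤ ENNReal.ofReal ((L + 1) * ((r.card : ℝ) ^ (1 / α) * N ^ (d + 2))) := by
          apply ENNReal.ofReal_le_ofReal
          rw [← mul_assoc]
          gcongr
      _ = ENNReal.ofReal (L + 1) * ENNReal.ofReal ((r.card : ℝ) ^ (1 / α) * N ^ (d + 2)) :=
          ENNReal.ofReal_mul (by positivity)
      _ ≤ ENNReal.ofReal (L + 1) * (ENNReal.ofReal C *
            volume ((⋃ i : {i // i ∈ r}, tube N (θ i) (c i)) ∩ {x : Sp d | |x (Fin.last d) -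
              ((k : ℝ) + 1 / 2) * (N ^ 2 / 20)| ≤ N ^ 2 / 20})) := by
          gcongr
          refine le_trans (le_of_eq ?_) h1
          rw [Fintype.card_coe]
      _ ≤ ENNReal.ofReal (L + 1) * (ENNReal.ofReal C * volume (U ∩ {x : Sp d | |x (Fin.last d) -
              ((k : ℝ) + 1 / 2) * (N ^ 2 / 20)| ≤ N ^ 2 / 20})) := by
          gcongr
      _ = _ := by
          rw [← mul_assoc, ← ENNReal.ofReal_mul (by positivity)]
  calc ENNReal.ofReal ((Fintype.card ι : ℝ) ^ (1 / α) * N ^ (d + 2))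
      ≤ ENNReal.ofReal (∑ k ∈ S, ((m k).card : ℝ) ^ (1 / α) * N ^ (d + 2)) := by
        apply ENNReal.ofReal_le_ofReal
        rw [← Finset.sum_mul, hcard]
        gcongr
        exact tubC_rpow_sum S _ (fun k => by positivity) hp0 hp1
    _ = ∑ k ∈ S, ENNReal.ofReal (((m k).card : ℝ) ^ (1 / α) * N ^ (d + 2)) :=
        ENNReal.ofReal_sum_of_nonneg fun k _ => by positivity
    _ ≤ ∑ k ∈ S, ENNReal.ofReal ((L + 1) * C) * volume (U ∩ {x : Sp d | |x (Fin.last d) -
          ((k : ℝ) + 1 / 2) * (N ^ 2 / 20)| ≤ N ^ 2 / 20}) :=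
        Finset.sum_le_sum fun k _ => hone k
    _ = ENNReal.ofReal ((L + 1) * C) * ∑ k ∈ S, volume (U ∩ {x : Sp d | |x (Fin.last d) -
          ((k : ℝ) + 1 / 2) * (N ^ 2 / 20)| ≤ N ^ 2 / 20}) := by
        rw [Finset.mul_sum]
    _ ≤ ENNReal.ofReal ((L + 1) * C) * (3 * volume U) := by
        gcongr
        exact tubC_slabs hN U hUm S
    _ = _ := by
        rw [ENNReal.ofReal_mul (by positivity : (0:ℝ) ≤ (L + 1) * C), ← mul_assoc]
        congr 2
        simp

/-- the number of tubes -/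
private theorem tubC_card {N : ℝ} (hN : 1 ≤ N) (K : ℕ) {ι : Type} [Fintype ι] (θ : ι → Cap d)
    (hK : ∀ z : Fin d → ℤ, ∀ s : Finset ι, (∀ i ∈ s, cell N (θ i) = z) → s.card ≤ K) :
    (Fintype.card ι : ℝ) ≤ K * (4 * N) ^ d := by
  classical
  have hN0 : 0 < N := by linarith
  have h1 : (Finset.univ : Finset ι).card ≤
      K * ((Finset.univ : Finset ι).image fun i => cell N (θ i)).card := by
    apply Finset.card_le_mul_card_image
    intro a _
    exact hK a _ fun i hi => (Finset.mem_filter.1 hi).2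
  have h2 : ((Finset.univ : Finset ι).image fun i => cell N (θ i)) ⊆
      Fintype.piFinset fun _ : Fin d => Finset.Icc ⌊-N⌋ ⌊N⌋ := by
    intro z hz
    rw [Finset.mem_image] at hz
    obtain ⟨i, -, rfl⟩ := hz
    rw [Fintype.mem_piFinset]
    intro k
    have h3 : |(θ i).foot k| ≤ 1 := by
      have h4 := (θ i).foot_mem
      have h5 : (θ i).foot k ^ 2 ≤ ∑ j, (θ i).foot j ^ 2 :=
        Finset.single_le_sum (f := fun j => (θ i).foot j ^ 2) (fun j _ => sq_nonneg _)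
          (Finset.mem_univ k)
      rw [← sq_le_one_iff_abs_le_one]
      linarith
    rw [abs_le] at h3
    rw [Finset.mem_Icc]
    constructor
    · apply Int.floor_le_floor
      nlinarith [h3.1]
    · apply Int.floor_le_floor
      nlinarith [h3.2]
  have h3 := Finset.card_le_card h2
  rw [Fintype.card_piFinset_const, Int.card_Icc] at h3
  have h4 : (((⌊N⌋ + 1 - ⌊-N⌋).toNat : ℕ) : ℝ) ≤ 4 * N := by
    have h5 : (0 : ℤ) ≤ ⌊N⌋ + 1 - ⌊-N⌋ := by
      have : ⌊-N⌋ ≤ ⌊N⌋ := Int.floor_le_floor (by linarith)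
      omega
    have h6 : (((⌊N⌋ + 1 - ⌊-N⌋).toNat : ℕ) : ℝ) = ((⌊N⌋ + 1 - ⌊-N⌋ : ℤ) : ℝ) := by
      have : (((⌊N⌋ + 1 - ⌊-N⌋).toNat : ℕ) : ℤ) = ⌊N⌋ + 1 - ⌊-N⌋ := Int.toNat_of_nonneg h5
      exact_mod_cast this
    rw [h6]
    push_cast
    have h7 := Int.floor_le N
    have h8 := Int.lt_floor_add_one (-N)
    linarith
  have h5 : (((Finset.univ : Finset ι).image fun i => cell N (θ i)).card : ℝ) ≤ (4 * N) ^ d := by
    calc (((Finset.univ : Finset ι).image fun i => cell N (θ i)).card : ℝ)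
        ≤ (((⌊N⌋ + 1 - ⌊-N⌋).toNat ^ d : ℕ) : ℝ) := by exact_mod_cast h3
      _ ≤ _ := by
          push_cast
          gcongr
  rw [Finset.card_univ] at h1
  calc (Fintype.card ι : ℝ)
      ≤ ((K * ((Finset.univ : Finset ι).image fun i => cell N (θ i)).card : ℕ) : ℝ) := by
        exact_mod_cast h1
    _ ≤ _ := by
        push_cast
        gcongr

theorem sum_tubes (hd : 1 ≤ d) {α : ℝ} (hα : 1 ≤ α) {F : Finset ℚ} (hI : Ineq 0 α F) (K : ℕ) :
    ∃ C : ℝ, 0 < C ∧ ∀ (N : ℝ), 1 ≤ N → ∀ (ι : Type) [Fintype ι] (θ : ι → Cap d) (c : ι → Sp d),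
      (∀ z : Fin d → ℤ, ∀ s : Finset ι, (∀ i ∈ s, cell N (θ i) = z) → s.card ≤ K) →
      ∑ i, volume (tube N (θ i) (c i)) ≤ ENNReal.ofReal (C * N ^ (d * (1 - 1 / α))) *
        volume (⋃ i, tube N (θ i) (c i)) := by
  classical
  obtain ⟨C, hC, hall⟩ := all_tubes hd hα hI K
  have hα0 : 0 < α := by linarith
  have hp0 : 0 < 1 / α := by positivity
  have hp1 : 1 / α ≤ 1 := by
    rw [div_le_one hα0]
    exact hα
  obtain ⟨L, hL⟩ : ∃ L : ℝ, L = ((K : ℝ) * 4 ^ d) ^ (1 - 1 / α) := ⟨_, rfl⟩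
  have hL0 : 0 ≤ L := by rw [hL]; positivity
  refine ⟨(L + 1) * C, by positivity, ?_⟩
  intro N hN ι _ θ c hK
  have hN0 : 0 < N := by linarith
  have h1 := hall N hN ι θ c hK
  have h2 := tubC_card hN K θ hK
  have h3 : (Fintype.card ι : ℝ) ≤ (L + 1) * N ^ (d * (1 - 1 / α)) *
      (Fintype.card ι : ℝ) ^ (1 / α) := by
    rcases Nat.eq_zero_or_pos (Fintype.card ι) with h0 | h0
    · rw [h0]
      simp only [Nat.cast_zero]
      positivity
    · have h0' : (0 : ℝ) < Fintype.card ι := by exact_mod_cast h0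
      have h4 : (Fintype.card ι : ℝ) ^ (1 - 1 / α) ≤ L * N ^ (d * (1 - 1 / α)) := by
        calc (Fintype.card ι : ℝ) ^ (1 - 1 / α) ≤ ((K : ℝ) * 4 ^ d * N ^ d) ^ (1 - 1 / α) := by
              apply Real.rpow_le_rpow h0'.le _ (by linarith)
              rw [mul_pow] at h2
              linarith
          _ = L * N ^ (d * (1 - 1 / α)) := by
              rw [Real.mul_rpow (by positivity) (by positivity), hL, ← Real.rpow_natCast N d,
                ← Real.rpow_mul hN0.le]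
      calc (Fintype.card ι : ℝ)
          = (Fintype.card ι : ℝ) ^ (1 - 1 / α) * (Fintype.card ι : ℝ) ^ (1 / α) := by
            rw [← Real.rpow_add h0']
            simp
        _ ≤ L * N ^ (d * (1 - 1 / α)) * (Fintype.card ι : ℝ) ^ (1 / α) := by gcongr
        _ ≤ _ := by
            have : 0 ≤ N ^ (d * (1 - 1 / α)) := by positivity
            gcongr
            linarith
  have h5 : ∑ i, volume (tube N (θ i) (c i)) =
      ENNReal.ofReal ((Fintype.card ι : ℝ) * N ^ (d + 2)) := by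
    simp_rw [volume_tube hN0.le]
    rw [Finset.sum_const, Finset.card_univ, nsmul_eq_mul, ENNReal.ofReal_mul (by positivity),
      ENNReal.ofReal_natCast]
  rw [h5]
  calc ENNReal.ofReal ((Fintype.card ι : ℝ) * N ^ (d + 2))
      ≤ ENNReal.ofReal (((L + 1) * N ^ (d * (1 - 1 / α))) *
          ((Fintype.card ι : ℝ) ^ (1 / α) * N ^ (d + 2))) := by
        apply ENNReal.ofReal_le_ofReal
        rw [← mul_assoc]
        gcongr
    _ = ENNReal.ofReal ((L + 1) * N ^ (d * (1 - 1 / α))) *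
          ENNReal.ofReal ((Fintype.card ι : ℝ) ^ (1 / α) * N ^ (d + 2)) :=
        ENNReal.ofReal_mul (by positivity)
    _ ≤ ENNReal.ofReal ((L + 1) * N ^ (d * (1 - 1 / α))) *
          (ENNReal.ofReal C * volume (⋃ i, tube N (θ i) (c i))) := by
        gcongr
    _ = _ := by
        rw [← mul_assoc, ← ENNReal.ofReal_mul (by positivity)]
        congr 2
        ring

end Pool.Agent.MPac5134.SD
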